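import Pool.Agent.Lib.MP_e840b2_an.OP.Defs

/-! From the polynomial to the data. -/

set_option autoImplicit false
open Finset Polynomial
open scoped ComplexConjugate

namespace Pool.Agent.Lib.MP_e840b2_an.OP

variable {p : ℤ[X]} {l θ : ℂ}

theorem irr_map (hp : Irreducible p) {x : ℂ} (hx : aeval x p = 0) :
    Irreducible (p.map (algebraMap ℤ ℚ)) := by
  have h0 : p.natDegree ≠ 0 := by
    intro h
    rw [eq_C_of_natDegree_eq_zero h] at hx hp
    have : p.coeff 0 = 0 := by simpa using hx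
    rw [this] at hp
    exact hp.ne_zero C_0
  exact (IsPrimitive.Int.irreducible_iff_irreducible_map_cast (hp.isPrimitive h0)).1 hp

theorem minpoly_eq (hp : Irreducible p) {x : ℂ} (hx : aeval x p = 0) :
    p.map (algebraMap ℤ ℚ) * C (p.map (algebraMap ℤ ℚ)).leadingCoeff⁻¹ = minpoly ℚ x :=
  minpoly.eq_of_irreducible (irr_map hp hx) (by rwa [aeval_map_algebraMap])

theorem mem_roots_iff (hp : Irreducible p) (z : ℂ) :
    z ∈ (p.map (Int.castRingHom ℂ)).roots ↔ aeval z p = 0 := by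
  rw [mem_roots ((Polynomial.map_ne_zero_iff (RingHom.injective_int _)).2 hp.ne_zero), IsRoot,
    eval_map, aeval_def]
  rfl

theorem conj_root {z : ℂ} (hz : aeval z p = 0) : aeval (conj z) p = 0 := by
  have := aeval_algHom_apply (starRingEnd ℂ).toIntAlgHom z p
  rw [hz, map_zero] at this
  exact this

/-- Two complex roots of an irreducible integer polynomial have the same minimal polynomial
(Gauss lemma, `minpoly.eq_of_irreducible`). -/
theorem root_of_root (hp : Irreducible p) {x z : ℂ} (hx : aeval x p = 0) (hz : aeval z p = 0)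
    {q : ℤ[X]} (hq : aeval x q = 0) : aeval z q = 0 := by
  have h1 : minpoly ℚ x ∣ q.map (algebraMap ℤ ℚ) := minpoly.dvd _ _ (by rwa [aeval_map_algebraMap])
  rw [← minpoly_eq hp hx, minpoly_eq hp hz] at h1
  have := aeval_eq_zero_of_dvd_aeval_eq_zero h1 (minpoly.aeval ℚ z)
  rwa [aeval_map_algebraMap] at this

/-- `θ⁻¹ = conj θ` is a root, so `θ` is a root of `p.reverse`. -/
theorem inv_root (hp : Irreducible p) (hθ : aeval θ p = 0) (h1 : ‖θ‖ = 1) {z : ℂ}
    (hz : aeval z p = 0) : z ≠ 0 ∧ aeval z⁻¹ p = 0 := by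
  have t0 : θ ≠ 0 := norm_pos_iff.1 (by rw [h1]; exact one_pos)
  have z0 : z ≠ 0 := by
    rintro rfl
    exact t0 (by simpa using root_of_root hp hz hθ (q := X) (by simp))
  refine ⟨z0, ?_⟩
  have hr : ∀ x : ℂ, x ≠ 0 → (aeval x p.reverse = 0 ↔ aeval x⁻¹ p = 0) := by
    intro x hx
    let _ := invertibleOfNonzero (inv_ne_zero hx)
    have := eval₂_reverse_eq_zero_iff (algebraMap ℤ ℂ) x⁻¹ p
    rwa [invOf_eq_inv, inv_inv] at this
  refine (hr z z0).1 (root_of_root hp hθ hz ((hr θ t0).2 ?_))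
  rw [Complex.inv_eq_conj h1]
  exact conj_root hθ

theorem roots_nodup (hp : Irreducible p) (hθ : aeval θ p = 0) :
    (p.map (Int.castRingHom ℂ)).roots.Nodup := by
  have h := ((irr_map hp hθ).separable).map (f := algebraMap ℚ ℂ)
  rw [Polynomial.map_map] at h
  rw [RingHom.ext_int (Int.castRingHom ℂ) ((algebraMap ℚ ℂ).comp (algebraMap ℤ ℚ))]
  exact nodup_roots h

/-- The sum is the trace of a power of the generator of `AdjoinRoot (p.map ℚ)`
(`trace_eq_sum_embeddings`), so it is rational; it is integral. -/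
theorem pow_sum_int (hp : Irreducible p) (hθ : aeval θ p = 0) (k : ℤ)
    (hi : ∀ z : ℂ, aeval z p = 0 → IsIntegral ℤ (z ^ k)) :
    ∃ n : ℤ, ∑ z ∈ (p.map (Int.castRingHom ℂ)).roots.toFinset, z ^ k = n := by
  have hq := irr_map hp hθ
  have := Fact.mk hq
  set q := p.map (algebraMap ℤ ℚ) with hqd
  have : FiniteDimensional ℚ (AdjoinRoot q) := (AdjoinRoot.powerBasis hq.ne_zero).finite
  have ht := trace_eq_sum_embeddings (K := ℚ) (L := AdjoinRoot q) ℂ (x := AdjoinRoot.root q ^ k)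
  have hroot : ∀ σ : AdjoinRoot q →ₐ[ℚ] ℂ, aeval (σ (AdjoinRoot.root q)) p = 0 := by
    intro σ
    have : aeval (AdjoinRoot.root q) q = 0 := (AdjoinRoot.aeval_eq q).trans AdjoinRoot.mk_self
    rw [← aeval_map_algebraMap ℚ, ← hqd, aeval_algHom_apply, this, map_zero]
  have hs : ∑ σ : AdjoinRoot q →ₐ[ℚ] ℂ, σ (AdjoinRoot.root q ^ k) =
      ∑ z ∈ (p.map (Int.castRingHom ℂ)).roots.toFinset, z ^ k := by
    refine sum_bij (fun σ _ => σ (AdjoinRoot.root q)) (fun σ _ => ?_) (fun σ _ τ _ h => ?_)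
      (fun z hz => ?_) fun σ _ => map_zpow₀ _ _ _
    · exact Multiset.mem_toFinset.2 ((mem_roots_iff hp _).2 (hroot σ))
    · exact AdjoinRoot.algHom_ext h
    · have hz' : aeval z q = 0 := by
        rw [aeval_map_algebraMap]
        exact (mem_roots_iff hp _).1 (Multiset.mem_toFinset.1 hz)
      exact ⟨AdjoinRoot.liftAlgHom q (Algebra.ofId ℚ ℂ) z hz', mem_univ _,
        AdjoinRoot.liftAlgHom_root _ _ _ _⟩
  rw [hs] at ht
  have hint : IsIntegral ℤ (algebraMap ℚ ℂ (Algebra.trace ℚ (AdjoinRoot q) (AdjoinRoot.root q ^ k))) := by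
    rw [ht]
    exact IsIntegral.sum _ fun z hz => hi z ((mem_roots_iff hp _).1 (Multiset.mem_toFinset.1 hz))
  obtain ⟨n, hn⟩ := IsIntegrallyClosed.algebraMap_eq_of_integral
    ((isIntegral_algebraMap_iff (algebraMap ℚ ℂ).injective).1 hint)
  exact ⟨n, by rw [← ht, ← hn]; simp⟩

/-- `mahlerMeasure_eq_leadingCoeff_mul_prod_roots`; `l⁻¹` is a root. -/
theorem two_lt (hp : Irreducible p) (hl : aeval l p = 0) (l1 : ‖l‖ < 1) (hθ : aeval θ p = 0)
    (h1 : ‖θ‖ = 1) (hu : ¬ IsUnit p.leadingCoeff) :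
    2 < (p.map (Int.castRingHom ℂ)).mahlerMeasure := by
  have hl' := inv_root hp hθ h1 hl
  rw [mahlerMeasure_eq_leadingCoeff_mul_prod_roots,
    leadingCoeff_map_of_injective (RingHom.injective_int _)]
  have h2 : (2 : ℝ) ≤ ‖(Int.castRingHom ℂ) p.leadingCoeff‖ := by
    have h0 : p.leadingCoeff ≠ 0 := leadingCoeff_ne_zero.2 hp.ne_zero
    rw [Int.isUnit_iff] at hu
    have : (2 : ℤ) ≤ |p.leadingCoeff| := by
      rcases abs_cases p.leadingCoeff with h | h <;> omega
    simpa using (by exact_mod_cast this : (2 : ℝ) ≤ |(p.leadingCoeff : ℝ)|)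
  have h3 : 1 < ((p.map (Int.castRingHom ℂ)).roots.map fun a => max 1 ‖a‖).prod := by
    obtain ⟨t, ht⟩ := Multiset.exists_cons_of_mem ((mem_roots_iff hp _).2 hl'.2)
    rw [ht, Multiset.map_cons, Multiset.prod_cons]
    have h4 : 1 < ‖l⁻¹‖ := by
      rw [norm_inv]
      exact (one_lt_inv₀ (norm_pos_iff.2 hl'.1)).2 l1
    have h5 : 1 ≤ (t.map fun a => max 1 ‖a‖).prod := by
      refine Multiset.prod_induction (fun x : ℝ => 1 ≤ x) _ (fun a b => one_le_mul_of_one_le_of_one_le)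
        le_rfl fun x hx => ?_
      obtain ⟨a, _, rfl⟩ := Multiset.mem_map.1 hx
      exact le_max_left _ _
    nlinarith [le_max_right 1 ‖l⁻¹‖]
  nlinarith

/-- `ι` is the subtype of the roots of norm greater than one; `a` is the least norm. -/
theorem exists_dat (hp : Irreducible p) (hl : aeval l p = 0) (l1 : ‖l‖ < 1) (hθ : aeval θ p = 0)
    (h1 : ‖θ‖ = 1) (h2 : ∀ z : ℂ, aeval z p = 0 → ‖z‖ = 1 → z = θ ∨ z = conj θ)
    (hu : IsUnit p.leadingCoeff) : ∃ (ι : Type) (_ : Fintype ι) (D : Dat ι) (r : ι),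
      D.M = (p.map (Int.castRingHom ℂ)).mahlerMeasure ∧ (D.σ r)⁻¹ = l := by
  classical
  set R := (p.map (Int.castRingHom ℂ)).roots.toFinset with hR
  have mR : ∀ z, z ∈ R ↔ aeval z p = 0 := fun z => Multiset.mem_toFinset.trans (mem_roots_iff hp z)
  have hl' := inv_root hp hθ h1 hl
  have h4 : 1 < ‖l⁻¹‖ := by
    rw [norm_inv]
    exact (one_lt_inv₀ (norm_pos_iff.2 hl'.1)).2 l1
  set S := R.filter fun z => 1 < ‖z‖ with hS
  have mS : ∀ z, z ∈ S ↔ aeval z p = 0 ∧ 1 < ‖z‖ := fun z => by rw [hS, mem_filter, mR]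
  have lS : l⁻¹ ∈ S := (mS _).2 ⟨hl'.2, h4⟩
  obtain ⟨z0, hz0, hmin⟩ := S.exists_min_image (fun z => ‖z‖) ⟨_, lS⟩
  have hint : ∀ z : ℂ, aeval z p = 0 → IsIntegral ℤ z := fun z hz =>
    (minpoly.IsIntegrallyClosed.isIntegral_iff_isUnit_leadingCoeff hp hz).2 hu
  have nru : ∀ n : ℕ, 0 < n → θ ^ n ≠ 1 := by
    intro n hn h
    have := root_of_root hp hθ hl (q := X ^ n - 1) (by simp [h])
    have h5 : l ^ n = 1 := sub_eq_zero.1 (by simpa using this)
    have h6 : ‖l‖ ^ n = 1 := by rw [← norm_pow, h5, norm_one]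
    exact (pow_lt_one₀ (norm_nonneg _) l1 hn.ne').ne h6
  have hne : θ ≠ conj θ := by
    intro h
    apply nru 2 two_pos
    rw [sq]
    nth_rewrite 2 [h]
    rw [Complex.mul_conj, Complex.normSq_eq_norm_sq, h1]
    simp
  have split : ∀ f : ℂ → ℂ, ∑ z ∈ R, f z = ∑ z ∈ S, f z + (f θ + f (conj θ)) + ∑ z ∈ S, f z⁻¹ := by
    intro f
    rw [← sum_filter_add_sum_filter_not R fun z => 1 < ‖z‖, add_assoc,
      ← sum_filter_add_sum_filter_not (R.filter fun z => ¬ 1 < ‖z‖) fun z => ‖z‖ = 1]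
    congr 2
    · rw [← sum_pair hne]
      congr 1
      ext z
      simp only [mem_filter, mR, mem_insert, mem_singleton]
      constructor
      · exact fun h => h2 z h.1.1 h.2
      · rintro (rfl | rfl)
        · exact ⟨⟨hθ, by rw [h1]; exact lt_irrefl _⟩, h1⟩
        · exact ⟨⟨conj_root hθ, by simp [h1]⟩, by simp [h1]⟩
    · refine sum_nbij' (fun z => z⁻¹) (fun z => z⁻¹) (fun z hz => ?_) (fun z hz => ?_)
        (fun z _ => inv_inv z) (fun z _ => inv_inv z) fun z _ => by rw [inv_inv]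
      · simp only [mem_filter, mR] at hz
        have := inv_root hp hθ h1 hz.1.1
        refine (mS _).2 ⟨this.2, ?_⟩
        rw [norm_inv]
        exact (one_lt_inv₀ (norm_pos_iff.2 this.1)).2 (lt_of_le_of_ne (not_lt.1 hz.1.2) hz.2)
      · obtain ⟨a, b⟩ := (mS _).1 hz
        have c : ‖z⁻¹‖ < 1 := by
          rw [norm_inv]
          exact inv_lt_one_of_one_lt₀ b
        simp only [mem_filter, mR]
        exact ⟨⟨(inv_root hp hθ h1 a).2, not_lt.2 c.le⟩, c.ne⟩
  refine ⟨S, inferInstance,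
    { σ := fun i => i
      bar := fun i => ⟨conj i, (mS _).2 ⟨conj_root ((mS _).1 i.2).1, by simpa using ((mS _).1 i.2).2⟩⟩
      θ := θ
      a := ‖z0‖
      i0 := ⟨z0, hz0⟩
      a1 := ((mS _).1 hz0).2
      big := fun i => hmin _ i.2
      inj := Subtype.val_injective
      cj := fun _ => rfl
      th := h1
      nru := nru
      int := fun i => ⟨hint _ ((mS _).1 i.2).1, hint _ (inv_root hp hθ h1 ((mS _).1 i.2).1).2⟩
      tr := fun k => ?_ }, ⟨_, lS⟩, ?_, inv_inv l⟩
  · obtain ⟨n, hn⟩ := pow_sum_int hp hθ k fun z hz => by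
      rcases Int.eq_nat_or_neg k with ⟨m, rfl | rfl⟩
      · simpa using (hint z hz).pow m
      · simpa using (hint _ (inv_root hp hθ h1 hz).2).pow m
    refine ⟨n, ?_⟩
    rw [split fun z => z ^ k] at hn
    have := congrArg Complex.re hn
    rw [sum_coe_sort S fun z => z ^ k, sum_coe_sort S fun z => z ^ (-k)]
    simp only [Complex.add_re, ← map_zpow₀, Complex.conj_re, Complex.intCast_re, inv_zpow'] at this
    linarith
  · rw [mahlerMeasure_eq_leadingCoeff_mul_prod_roots,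
      leadingCoeff_map_of_injective (RingHom.injective_int _)]
    have e1 : ‖(Int.castRingHom ℂ) p.leadingCoeff‖ = 1 := by
      rcases Int.isUnit_iff.1 hu with h | h <;> simp [h]
    have e2 : (p.map (Int.castRingHom ℂ)).roots = R.val := by
      rw [hR, Multiset.toFinset_val, Multiset.dedup_eq_self.2 (roots_nodup hp hθ)]
    change ∏ i : S, ‖(i : ℂ)‖ = _
    rw [prod_coe_sort S fun z => ‖z‖, hS, prod_filter, e1, one_mul, e2, ← prod_eq_multiset_prod]
    refine prod_congr rfl fun z _ => ?_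
    split_ifs with h
    · exact (max_eq_right h.le).symm
    · exact (max_eq_left (not_lt.1 h)).symm

end Pool.Agent.Lib.MP_e840b2_an.OP
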