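import Pool.Agent.Lib.MP_e840b2_an.OP.Basic

/-! The first dual lattice point. -/

set_option autoImplicit false
open Finset Real
open scoped ComplexConjugate

namespace Pool.Agent.Lib.MP_e840b2_an.OP

variable {ι : Type} [Fintype ι] {D : Dat ι}

/-- A real algebraic integer is not half an odd integer. -/
theorem cc_pos {x : ℝ} (hx : IsIntegral ℤ (x : ℂ)) : 0 < cc x := by
  refine abs_pos.2 fun h => ?_
  obtain ⟨n, hn⟩ := Real.cos_eq_zero_iff.1 h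
  have h1 : x = (2 * n + 1) / 2 := by
    apply mul_left_cancel₀ pi_pos.ne'
    rw [hn]; ring
  have h2 : (x : ℂ) = algebraMap ℚ ℂ ((2 * n + 1) / 2) := by
    rw [h1]; simp
  rw [h2, isIntegral_algebraMap_iff (algebraMap ℚ ℂ).injective] at hx
  obtain ⟨y, hy⟩ := IsIntegrallyClosed.isIntegral_iff.1 hx
  have h3 : ((2 * y : ℤ) : ℚ) = ((2 * n + 1 : ℤ) : ℚ) := by
    have : (y : ℚ) = (2 * n + 1) / 2 := by simpa using hy
    push_cast
    rw [this]; ring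
  have h4 := Int.cast_injective h3
  omega

/-- `E 1 k` is a real algebraic integer (`Sym.im_sum`, `int`). -/
theorem Dat.int_E (D : Dat ι) (k : ℤ) : IsIntegral ℤ ((D.E 1 k : ℝ) : ℂ) := by
  have h1 : ((D.E 1 k : ℝ) : ℂ) = ∑ i, D.σ i ^ k := by
    apply Complex.ext
    · simp [Dat.E]
    · rw [Complex.ofReal_im, (D.sym_zpow k).im_sum]
  rw [h1]
  refine IsIntegral.sum _ fun i _ => ?_
  obtain ⟨n, rfl | rfl⟩ := k.eq_nat_or_neg
  · rw [zpow_natCast]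
    exact (D.int i).1.pow n
  · rw [zpow_neg, zpow_natCast, ← inv_pow]
    exact (D.int i).2.pow n

/-- Take `s` with `2 * card ι * a ^ (-s) ≤ 1 / 20`. For `k ≤ -s` use `E_le`; for `k ≥ J + s` use
`dual_one.step J` at `k`, `cc_int_sub` and `cc_ge_lin` (the remainder is at most `1/4 + 1/20`);
the finitely many other `k` have `cc_pos`. -/
theorem Dat.marg0 (D : Dat ι) (J : ℕ) (hJ : ‖1 - D.θ ^ (-(J : ℤ))‖ ≤ 1 / 8) :
    ∃ m : ℝ, 0 < m ∧ ∀ k : ℤ, m ≤ cc (D.E 1 k - D.E 1 (k - J)) := by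
  obtain ⟨s, hs⟩ := pow_unbounded_of_one_lt (40 * ∑ i, ‖(1 : ι → ℂ) i‖) D.a1
  have small : ∀ k : ℤ, k ≤ -(s : ℤ) → |D.E 1 k| ≤ 1 / 40 := by
    intro k hk
    have h0 : 0 ≤ ∑ i, ‖(1 : ι → ℂ) i‖ := sum_nonneg fun _ _ => norm_nonneg _
    refine (D.E_le 1 (by omega)).trans
      ((mul_le_mul_of_nonneg_right (D.zpow_le hk) h0).trans ?_)
    rw [zpow_neg, zpow_natCast, inv_mul_le_iff₀ (pow_pos D.a_pos s)]
    linarith
  obtain ⟨k₀, -, hk₀⟩ := exists_min_image (Icc (-(s : ℤ)) (J + s))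
    (fun k => cc (D.E 1 k - D.E 1 (k - J))) ⟨0, mem_Icc.2 ⟨by omega, by omega⟩⟩
  have hpos : 0 < cc (D.E 1 k₀ - D.E 1 (k₀ - J)) := by
    apply cc_pos
    rw [Complex.ofReal_sub]
    exact (D.int_E _).sub (D.int_E _)
  refine ⟨min (2 / 5) (cc (D.E 1 k₀ - D.E 1 (k₀ - J))), lt_min (by norm_num) hpos, fun k => ?_⟩
  by_cases h1 : k ≤ -(s : ℤ)
  · have a1 := small k h1
    have a2 := small (k - J) (by omega)
    have a3 := abs_sub (D.E 1 k) (D.E 1 (k - J))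
    have a4 := cc_ge_lin (D.E 1 k - D.E 1 (k - J)) (by linarith)
    exact (min_le_left _ _).trans (by linarith)
  by_cases h2 : (J : ℤ) + s ≤ k
  · obtain ⟨n, hn⟩ := D.dual_one.step J k
    rw [D.E_step, D.E_step, ← sub_eq_add_neg] at hn
    have a1 := small (-k) (by omega)
    have a2 := small (-k + J) (by omega)
    have a3 := D.abs_re_le k (1 * (1 - D.θ ^ (-(J : ℤ))))
    rw [norm_mul, norm_one] at a3
    have a4 := abs_sub (D.E 1 (-k)) (D.E 1 (-k + J))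
    have a5 := abs_add_le (2 * (D.θ ^ k * (1 * (1 - D.θ ^ (-(J : ℤ))))).re)
      (D.E 1 (-k) - D.E 1 (-k + J))
    have a6 := cc_ge_lin (2 * (D.θ ^ k * (1 * (1 - D.θ ^ (-(J : ℤ))))).re +
      (D.E 1 (-k) - D.E 1 (-k + J))) (by linarith)
    have e : D.E 1 k - D.E 1 (k - J) = n - (2 * (D.θ ^ k * (1 * (1 - D.θ ^ (-(J : ℤ))))).re +
      (D.E 1 (-k) - D.E 1 (-k + J))) := by linarith
    rw [e, cc_int_sub]
    exact (min_le_left _ _).trans (by linarith)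
  · exact (min_le_right _ _).trans (hk₀ k (mem_Icc.2 ⟨by omega, by omega⟩))

theorem Dat.base0_small (D : Dat ι) (C : ℝ) {ε : ℝ} (hε : 0 < ε) :
    ∀ᶠ n : ℕ in Filter.atTop, C * D.a ^ (-(n : ℤ)) ≤ ε := by
  have h := (tendsto_pow_atTop_nhds_zero_of_lt_one (inv_pos.mpr D.a_pos).le
    (inv_lt_one_of_one_lt₀ D.a1)).const_mul C
  rw [mul_zero] at h
  filter_upwards [h.eventually (ge_mem_nhds hε)] with n hn
  rwa [zpow_neg, zpow_natCast, ← inv_pow]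

/-- `(dual_one.step J).shift s` with `J ≥ 1` from `dirichlet`; `E w k` is minus a value of the
sequence of `marg0`, and `cc` is even. -/
theorem Dat.base0 (D : Dat ι) : ∃ (y : ι → ℂ) (z : ℂ) (w : ι → ℂ) (L : ℕ) (m : ℝ), 0 < m ∧
    D.Dual y z w ∧ D.Sym y ∧ ∑ i, ‖y i‖ ≤ 1 / 20 ∧ D.a ^ (-(L : ℤ)) ≤ ‖y D.i0‖ ∧ ‖z‖ ≤ 1 / 8 ∧
    ∑ i, ‖w i‖ / ‖D.σ i‖ ^ L ≤ 1 / 20 ∧ (∀ k, m ≤ cc (D.E y k)) ∧ ∀ k, m ≤ cc (D.E w k) := by
  obtain ⟨J, hJ0, -, hJ⟩ := D.dirichlet (Q := 60) (by norm_num)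
  have hθ : ‖1 - D.θ ^ (-(J : ℤ))‖ ≤ 1 / 8 := by
    have h := hJ 1
    rw [mul_one] at h
    refine h.trans ?_
    have := pi_lt_d2
    push_cast
    linarith
  obtain ⟨m, m0, hm⟩ := D.marg0 J hθ
  obtain ⟨s, hs⟩ := (D.base0_small (2 * Fintype.card ι) (ε := 1 / 20) (by norm_num)).exists
  have hlt : ∀ i, ‖D.σ i ^ (-(J : ℤ))‖ < 1 := fun i =>
    (D.norm_zpow_le i (by omega)).trans_lt (zpow_lt_one_of_neg₀ D.a1 (by omega))
  have hy0 : 0 < ‖D.σ D.i0 ^ (-(s : ℤ)) * ((1 : ι → ℂ) D.i0 * (1 - D.σ D.i0 ^ (-(J : ℤ))))‖ := by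
    refine norm_pos_iff.2 (mul_ne_zero (zpow_ne_zero _ (D.ne _)) (mul_ne_zero one_ne_zero ?_))
    intro h
    have h1 := hlt D.i0
    rw [← sub_eq_zero.1 h, norm_one] at h1
    exact lt_irrefl _ h1
  obtain ⟨L, hL1, hL2⟩ := ((D.base0_small 1 hy0).and (D.base0_small
    (∑ i, ‖D.σ i ^ (s : ℤ) * ((1 : ι → ℂ) i * (1 - D.σ i ^ (J : ℤ)))‖) (ε := 1 / 20)
    (by norm_num))).exists
  refine ⟨_, _, _, L, m, m0, (D.dual_one.step J).shift s, ?_, ?_, ?_, ?_, ?_, fun k => ?_,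
    fun k => ?_⟩
  · exact (D.sym_zpow _).mul (Dat.Sym.step (fun i => by simp) _)
  · refine le_trans ?_ hs
    have h : ∀ i ∈ (univ : Finset ι), ‖D.σ i ^ (-(s : ℤ)) *
        ((1 : ι → ℂ) i * (1 - D.σ i ^ (-(J : ℤ))))‖ ≤ 2 * D.a ^ (-(s : ℤ)) := by
      intro i _
      rw [norm_mul, mul_comm, Pi.one_apply, one_mul]
      refine mul_le_mul ((norm_sub_le _ _).trans ?_) (D.norm_zpow_le i (by omega))
        (norm_nonneg _) (by norm_num)
      rw [norm_one]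
      linarith [hlt i]
    refine (sum_le_sum h).trans (le_of_eq ?_)
    rw [sum_const, card_univ, nsmul_eq_mul]
    ring
  · rwa [one_mul] at hL1
  · rw [norm_mul, D.norm_th, one_mul, one_mul]
    exact hθ
  · refine le_trans ?_ hL2
    rw [sum_mul]
    refine sum_le_sum fun i _ => ?_
    rw [zpow_neg, zpow_natCast D.a, ← div_eq_mul_inv]
    exact div_le_div_of_nonneg_left (norm_nonneg _) (pow_pos D.a_pos _)
      (pow_le_pow_left₀ D.a_pos.le (D.big i) _)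
  · rw [D.E_shift, D.E_step, ← sub_eq_add_neg (k + -(s : ℤ))]
    exact hm _
  · rw [D.E_shift, D.E_step]
    have h := hm (k + s + J)
    rw [← cc_int_sub 0, add_sub_cancel_right, Int.cast_zero, zero_sub, neg_sub] at h
    exact h

/-- Split `s` at `0`: `prod_pert`, `cc_ge_quad`, `E_le`, `geom` for `k < 0`, and `m ^ L` for
`0 ≤ k < L` (`m ≤ 1`, `card_le_of_Ico`). -/
theorem Dat.cost_of (D : Dat ι) {y : ι → ℂ} (hy : ∑ i, ‖y i‖ ≤ 1 / 5) {m : ℝ} (m0 : 0 < m)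
    (hm : ∀ k, m ≤ cc (D.E y k)) (L : ℕ) :
    ∃ W : ℝ, 0 < W ∧ ∀ s : Finset ℤ, (∀ k ∈ s, k < L) → W ≤ ∏ k ∈ s, cc (D.E y k) := by
  have m1 : m ≤ 1 := (hm 0).trans (cc_le_one _)
  refine ⟨m ^ L * exp (-D.G), by positivity, fun s hs => ?_⟩
  rw [← prod_filter_mul_prod_filter_not s fun k => 0 ≤ k]
  set s1 := s.filter fun k => 0 ≤ k
  set s2 := s.filter fun k => ¬ 0 ≤ k
  refine mul_le_mul ?_ ?_ (exp_pos _).le (prod_nonneg fun _ _ => cc_nonneg _)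
  · have h1 := card_le_of_Ico s1 0 L fun k hk =>
      ⟨(mem_filter.mp hk).2, by simpa using hs k (mem_filter.mp hk).1⟩
    calc m ^ L ≤ m ^ s1.card := pow_le_pow_of_le_one m0.le m1 (by exact_mod_cast h1)
      _ = ∏ _k ∈ s1, m := by rw [prod_const]
      _ ≤ _ := prod_le_prod (fun _ _ => m0.le) fun k _ => hm k
  · have hk0 : ∀ k ∈ s2, k < 0 := fun k hk => not_le.mp (mem_filter.mp hk).2
    have hp : ∀ k : ℤ, 0 < D.a ^ k := fun k => zpow_pos D.a_pos k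
    have h1 : ∀ k ∈ s2, D.a ^ k ≤ 1 := fun k hk => by
      simpa using D.zpow_le (hk0 k hk).le
    have := prod_pert s2 (fun k => cc (D.E y k)) (fun _ => 1) (fun k => 1 / 5 * D.a ^ k) D.G
      (fun _ _ => zero_le_one) (fun k _ => by have := hp k; positivity)
      (fun k hk => by linarith [h1 k hk])
      (fun k hk => by
        have a1 := (D.E_le y (hk0 k hk).le).trans (mul_le_mul_of_nonneg_left hy (hp k).le)
        have a2 := cc_ge_quad (D.E y k)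
        have a3 : D.E y k ^ 2 ≤ (D.a ^ k * (1 / 5)) ^ 2 := by
          rw [← sq_abs]
          exact pow_le_pow_left₀ (abs_nonneg _) a1 2
        have a4 := mul_le_mul_of_nonneg_left (h1 k hk) (hp k).le
        nlinarith)
      (by
        have a1 := D.geom s2 (fun k => -k) (fun a _ b _ hab => neg_injective hab)
          fun k hk => by linarith [hk0 k hk]
        simp only [neg_neg] at a1
        rw [← mul_sum]
        linarith [D.one_le_G])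
    simpa using this

/-- One step from `base0`, with `3 / Γ ≤ m`, `a ^ (-s) ≤ 1 / Γ`, `c = L`, `J₁ = L + 2 * s`. Margin:
for `k < J - s` use `E_step`, `E_le`, `cc_lip`; for `k ≥ J - s` use the new dual relation at `k`:
`E y' k = n - (2 * re + E w (-k) - E w (-k + J))`, `E_w`, `cc_int_sub`, `cc_lip`. -/
theorem Dat.base (D : Dat ι) : ∃ (Γ : ℝ) (c J₁ : ℕ), D.G ≤ Γ ∧ ∀ J : ℕ, J₁ ≤ J → ∀ ε : ℝ,
    ‖1 - D.θ ^ (-(J : ℤ))‖ / 8 ≤ ε → 100 * Γ ^ 2 * ε ≤ 1 →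
    ∃ (y : ι → ℂ) (z : ℂ) (w : ι → ℂ) (W : ℝ), 0 < W ∧ D.St Γ y z w (c + J) ε W := by
  obtain ⟨y, z, w, L, m, m0, hd, hs, hy, hyi, hz, hw, my, mw⟩ := D.base0
  have hG := D.one_le_G
  have m1 : m ≤ 1 := (my 0).trans (cc_le_one _)
  obtain ⟨Γ, hΓG, hΓm⟩ : ∃ Γ : ℝ, D.G ≤ Γ ∧ 3 / m ≤ Γ := ⟨max D.G (3 / m), le_max_left _ _, le_max_right _ _⟩
  have hΓ3 : 3 ≤ Γ := le_trans (by rw [le_div_iff₀ m0]; linarith) hΓm
  have hΓ0 : 0 < Γ := by linarith
  obtain ⟨u, hu⟩ : ∃ u : ℝ, u = 1 / Γ := ⟨_, rfl⟩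
  have u0 : 0 < u := by rw [hu]; positivity
  have uΓ : u * Γ = 1 := by rw [hu]; field_simp
  have u3 : u ≤ 1 / 3 := by nlinarith
  have um : 3 * u ≤ m := by
    rw [div_le_iff₀ m0] at hΓm
    nlinarith
  obtain ⟨s, hsΓ⟩ := pow_unbounded_of_one_lt Γ D.a1
  have hsu : D.a ^ (-(s : ℤ)) ≤ u := by
    rw [zpow_neg, zpow_natCast, hu, one_div]
    exact inv_anti₀ hΓ0 hsΓ.le
  refine ⟨Γ, L, L + 2 * s, hΓG, fun J hJ ε hε hε2 => ?_⟩
  have ε0 : 0 ≤ ε := le_trans (by positivity) hε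
  have εu : 100 * ε ≤ u := by
    have h1 : 100 * ε * Γ ≤ 1 := by nlinarith [mul_nonneg ε0 hΓ0.le]
    nlinarith
  have hJu : ∀ i, ‖D.σ i ^ (-(J : ℤ))‖ ≤ u := fun i =>
    (D.norm_zpow_le i (by omega)).trans ((D.zpow_le (by omega)).trans hsu)
  have hy' : ∑ i, ‖y i * (1 - D.σ i ^ (-(J : ℤ)))‖ ≤ 1 / 10 := by
    refine le_trans (sum_le_sum (g := fun i => 2 * ‖y i‖) fun i _ => ?_) ?_
    · rw [norm_mul, mul_comm]
      refine mul_le_mul_of_nonneg_right ((norm_sub_le _ _).trans ?_) (norm_nonneg _)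
      rw [norm_one]
      linarith [hJu i]
    · rw [← mul_sum]; linarith
  have hz' : ‖z * (1 - D.θ ^ (-(J : ℤ)))‖ ≤ ε := by
    rw [norm_mul]
    nlinarith [norm_nonneg (1 - D.θ ^ (-(J : ℤ))), norm_nonneg z]
  have hd' := hd.step J
  have hpi := pi_lt_four
  have hmarg : ∀ k : ℤ, 1 / Γ + 20 * ε ≤
      cc (D.E (fun i => y i * (1 - D.σ i ^ (-(J : ℤ)))) k) := fun k => by
    rw [← hu]
    rcases lt_or_ge k (J - s) with hk | hk
    · have h1 := D.E_le y (k := k + -(J : ℤ)) (by omega)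
      have h2 : D.a ^ (k + -(J : ℤ)) ≤ u := (D.zpow_le (by omega)).trans hsu
      have h3 : |D.E y (k + -(J : ℤ))| ≤ u * (1 / 20) :=
        h1.trans (mul_le_mul h2 hy (sum_nonneg fun i _ => norm_nonneg _) u0.le)
      have h4 := cc_lip (D.E y k) (-D.E y (k + -(J : ℤ)))
      rw [abs_neg, ← sub_eq_add_neg (D.E y k)] at h4
      rw [D.E_step]
      have h8 := mul_le_mul hpi.le h3 (abs_nonneg _) (by norm_num)
      linarith [my k]
    · obtain ⟨n, hn⟩ := hd' k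
      rw [D.E_step w] at hn
      have h1 := D.E_w w L (k := k) (by omega)
      have h2 : D.a ^ ((L : ℤ) - k) ≤ u := (D.zpow_le (by omega)).trans hsu
      have h3 : |D.E w (-k)| ≤ u * (1 / 20) :=
        h1.trans (mul_le_mul h2 hw (sum_nonneg fun i _ => by positivity) u0.le)
      have h5 := D.abs_re_le k (z * (1 - D.θ ^ (-(J : ℤ))))
      obtain ⟨r, hr⟩ : ∃ r, r = 2 * (D.θ ^ k * (z * (1 - D.θ ^ (-(J : ℤ))))).re := ⟨_, rfl⟩
      rw [← hr] at hn h5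
      have h4 := cc_lip (D.E w (-k + J)) (-(r + D.E w (-k)))
      have h6 : cc (D.E (fun i => y i * (1 - D.σ i ^ (-(J : ℤ)))) k) =
          cc (D.E w (-k + J) + -(r + D.E w (-k))) := by
        rw [← cc_int_sub n, ← hn, ← cc_int_sub 0]
        congr 1
        push_cast
        ring
      have h7 : |-(r + D.E w (-k))| ≤ 2 * ε + u * (1 / 20) := by
        rw [abs_neg]
        exact (abs_add_le _ _).trans (by linarith)
      rw [h6]
      have h8 := mul_le_mul hpi.le h7 (abs_nonneg _) (by norm_num)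
      linarith [mw (-k + J)]
  obtain ⟨W, W0, hW⟩ := D.cost_of (hy'.trans (by norm_num)) (m := 1 / Γ + 20 * ε) (by positivity)
    hmarg (L + J)
  refine ⟨_, _, _, W, W0, hd', hs.step _, by linarith, ?_, hz', ?_, hmarg, hW⟩
  · have h1 : D.a ^ (-(J : ℤ)) ≤ ‖1 - D.σ D.i0 ^ (-(J : ℤ))‖ := by
      have h2 : D.a ^ (-(J : ℤ)) ≤ u := (D.zpow_le (by omega)).trans hsu
      have h3 := norm_sub_norm_le (1 : ℂ) (D.σ D.i0 ^ (-(J : ℤ)))
      rw [norm_one] at h3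
      linarith [hJu D.i0]
    rw [norm_mul, show (-((L + J : ℕ) : ℤ)) = -(L : ℤ) + -(J : ℤ) by push_cast; ring,
      zpow_add₀ D.a_pos.ne']
    exact mul_le_mul hyi h1 (zpow_pos D.a_pos _).le (norm_nonneg _)
  · refine le_trans (sum_le_sum (g := fun i => 2 * (‖w i‖ / ‖D.σ i‖ ^ L)) fun i _ => ?_) ?_
    · have h0 : 0 < ‖D.σ i‖ := D.a_pos.trans_le (D.big i)
      have h1 : 1 ≤ ‖D.σ i‖ ^ J := one_le_pow₀ (D.a1.le.trans (D.big i))
      have h2 : ‖1 - D.σ i ^ (J : ℤ)‖ ≤ 2 * ‖D.σ i‖ ^ J := by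
        refine (norm_sub_le _ _).trans ?_
        rw [norm_one, zpow_natCast, norm_pow]
        linarith
      rw [norm_mul, pow_add, div_le_iff₀ (by positivity)]
      refine (mul_le_mul_of_nonneg_left h2 (norm_nonneg _)).trans (le_of_eq ?_)
      field_simp
    · rw [← mul_sum]; linarith

end Pool.Agent.Lib.MP_e840b2_an.OP
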