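import Pool.Agent.Lib.MP_e840b2_an.OP.Defs

/-! Elementary estimates. -/

set_option autoImplicit false
open Finset Real
open scoped ComplexConjugate

namespace Pool.Agent.Lib.MP_e840b2_an.OP

variable {ι : Type} [Fintype ι] {D : Dat ι}

theorem Dat.a_pos (D : Dat ι) : 0 < D.a := zero_lt_one.trans D.a1

theorem Dat.ne (D : Dat ι) (i : ι) : D.σ i ≠ 0 :=
  norm_pos_iff.1 (D.a_pos.trans_le (D.big i))

theorem Dat.th_ne (D : Dat ι) : D.θ ≠ 0 := norm_pos_iff.1 (by rw [D.th]; exact one_pos)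

theorem Dat.norm_th (D : Dat ι) (k : ℤ) : ‖D.θ ^ k‖ = 1 := by rw [norm_zpow, D.th, one_zpow]

theorem Dat.one_le_G (D : Dat ι) : 1 ≤ D.G := by
  unfold Dat.G
  rw [le_div_iff₀ (by linarith [D.a1])]
  linarith

theorem Dat.zpow_le (D : Dat ι) {j k : ℤ} (h : j ≤ k) : D.a ^ j ≤ D.a ^ k :=
  zpow_le_zpow_right₀ D.a1.le h

theorem Dat.norm_zpow_le (D : Dat ι) (i : ι) {k : ℤ} (h : k ≤ 0) : ‖D.σ i ^ k‖ ≤ D.a ^ k := by
  rw [norm_zpow]
  obtain ⟨n, rfl⟩ := Int.exists_eq_neg_ofNat h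
  rw [zpow_neg, zpow_neg, zpow_natCast, zpow_natCast]
  exact inv_anti₀ (pow_pos D.a_pos _) (pow_le_pow_left₀ D.a_pos.le (D.big i) _)

/-- Copy `sum_geom_le`. -/
theorem Dat.geom (D : Dat ι) {κ : Type*} (s : Finset κ) (g : κ → ℤ) (hinj : Set.InjOn g s)
    (h0 : ∀ k ∈ s, 0 ≤ g k) : ∑ k ∈ s, D.a ^ (-g k) ≤ D.G := by
  have hr0 : 0 ≤ D.a⁻¹ := (inv_pos.mpr D.a_pos).le
  have hr1 : D.a⁻¹ < 1 := inv_lt_one_of_one_lt₀ D.a1
  have e1 : ∑ k ∈ s, D.a ^ (-g k) = ∑ j ∈ s.image (fun k => (g k).toNat), D.a⁻¹ ^ j := by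
    rw [sum_image]
    · apply sum_congr rfl
      intro k hk
      rw [inv_pow, ← zpow_natCast, Int.toNat_of_nonneg (h0 k hk), zpow_neg]
    · intro a ha b hb hab
      apply hinj ha hb
      have h1 := h0 a ha
      have h2 := h0 b hb
      simp only at hab
      omega
  rw [e1]
  refine (sum_le_hasSum _ (fun j _ => pow_nonneg hr0 j)
    (hasSum_geometric_of_lt_one hr0 hr1)).trans (le_of_eq ?_)
  unfold Dat.G
  have h1 := D.a_pos.ne'
  have h2 : D.a - 1 ≠ 0 := by linarith [D.a1]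
  field_simp

/-- `log a ≥ 1 - 1 / a = 1 / G`. -/
theorem Dat.zpow_le_exp (D : Dat ι) {s : ℕ} {e : ℝ} (h : D.G * e ≤ s) :
    D.a ^ (-(s : ℤ)) ≤ exp (-e) := by
  have h1 : 1 - D.a⁻¹ ≤ Real.log D.a := Real.one_sub_inv_le_log_of_pos D.a_pos
  have h2 : D.G * (1 - D.a⁻¹) = 1 := by
    unfold Dat.G
    have h1 := D.a_pos.ne'
    have h2 : D.a - 1 ≠ 0 := by linarith [D.a1]
    field_simp
  have h3 : 0 < 1 - D.a⁻¹ := by linarith [inv_lt_one_of_one_lt₀ D.a1]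
  rw [zpow_neg, zpow_natCast, Real.exp_neg]
  apply inv_anti₀ (exp_pos _)
  rw [← Real.exp_log (pow_pos D.a_pos s), Real.log_pow, exp_le_exp]
  have h4 := mul_le_mul_of_nonneg_right h h3.le
  have h5 := mul_le_mul_of_nonneg_left h1 (Nat.cast_nonneg (α := ℝ) s)
  have h6 : D.G * e * (1 - D.a⁻¹) = e := by linear_combination e * h2
  linarith

theorem Dat.abs_re_le (D : Dat ι) (k : ℤ) (z : ℂ) : |2 * (D.θ ^ k * z).re| ≤ 2 * ‖z‖ := by
  rw [abs_mul, abs_two]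
  have := Complex.abs_re_le_norm (D.θ ^ k * z)
  rw [norm_mul, D.norm_th, one_mul] at this
  linarith

theorem Dat.E_le (D : Dat ι) (y : ι → ℂ) {k : ℤ} (h : k ≤ 0) :
    |D.E y k| ≤ D.a ^ k * ∑ i, ‖y i‖ := by
  refine ((Complex.abs_re_le_norm _).trans (norm_sum_le _ _)).trans ?_
  rw [mul_sum]
  refine sum_le_sum fun i _ => ?_
  rw [norm_mul]
  exact mul_le_mul_of_nonneg_right (D.norm_zpow_le i h) (norm_nonneg _)

theorem Dat.E_w (D : Dat ι) (w : ι → ℂ) (L : ℕ) {k : ℤ} (h : (L : ℤ) ≤ k) :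
    |D.E w (-k)| ≤ D.a ^ ((L : ℤ) - k) * ∑ i, ‖w i‖ / ‖D.σ i‖ ^ L := by
  refine ((Complex.abs_re_le_norm _).trans (norm_sum_le _ _)).trans ?_
  rw [mul_sum]
  refine sum_le_sum fun i _ => ?_
  have h0 : 0 < ‖D.σ i‖ := D.a_pos.trans_le (D.big i)
  have h1 := D.norm_zpow_le i (k := L - k) (by omega)
  rw [norm_zpow] at h1
  rw [norm_mul, norm_zpow, show -k = (L - k) - (L : ℤ) by ring, zpow_sub₀ h0.ne', zpow_natCast,
    div_mul_eq_mul_div, mul_div_assoc]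
  exact mul_le_mul_of_nonneg_right h1 (by positivity)

theorem Dat.E_shift (D : Dat ι) (y : ι → ℂ) (j k : ℤ) :
    D.E (fun i => D.σ i ^ j * y i) k = D.E y (k + j) := by
  unfold Dat.E
  congr 1
  exact sum_congr rfl fun i _ => by rw [zpow_add₀ (D.ne i), mul_assoc]

theorem Dat.E_step (D : Dat ι) (y : ι → ℂ) (j k : ℤ) :
    D.E (fun i => y i * (1 - D.σ i ^ j)) k = D.E y k - D.E y (k + j) := by
  unfold Dat.E
  rw [← Complex.sub_re, ← sum_sub_distrib]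
  congr 1
  exact sum_congr rfl fun i _ => by rw [zpow_add₀ (D.ne i)]; ring

theorem Dat.dual_one (D : Dat ι) : D.Dual 1 1 1 := by
  intro k
  simpa [Dat.E] using D.tr k

theorem Dat.Dual.step {y w : ι → ℂ} {z : ℂ} (h : D.Dual y z w) (J : ℤ) :
    D.Dual (fun i => y i * (1 - D.σ i ^ (-J))) (z * (1 - D.θ ^ (-J)))
      (fun i => w i * (1 - D.σ i ^ J)) := by
  intro k
  obtain ⟨n1, h1⟩ := h k
  obtain ⟨n2, h2⟩ := h (k + -J)
  refine ⟨n1 - n2, ?_⟩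
  push_cast
  rw [← h1, ← h2, D.E_step, D.E_step, zpow_add₀ D.th_ne, show -(k + -J) = -k + J by ring]
  have e4 : D.θ ^ k * (z * (1 - D.θ ^ (-J))) = D.θ ^ k * z - D.θ ^ k * D.θ ^ (-J) * z := by ring
  rw [e4, Complex.sub_re]
  ring

theorem Dat.Dual.shift {y w : ι → ℂ} {z : ℂ} (h : D.Dual y z w) (s : ℤ) :
    D.Dual (fun i => D.σ i ^ (-s) * y i) (D.θ ^ (-s) * z) (fun i => D.σ i ^ s * w i) := by
  intro k
  obtain ⟨n, h1⟩ := h (k + -s)
  refine ⟨n, ?_⟩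
  rw [← h1, D.E_shift, D.E_shift, zpow_add₀ D.th_ne, show -(k + -s) = -k + s by ring, mul_assoc]

theorem Dat.sym_zpow (D : Dat ι) (k : ℤ) : D.Sym fun i => D.σ i ^ k := by
  intro i
  simp only [D.cj, map_zpow₀]

theorem Dat.Sym.mul {x y : ι → ℂ} (hx : D.Sym x) (hy : D.Sym y) : D.Sym fun i => x i * y i := by
  intro i
  simp only [hx i, hy i, map_mul]

theorem Dat.Sym.step {y : ι → ℂ} (hy : D.Sym y) (k : ℤ) :
    D.Sym fun i => y i * (1 - D.σ i ^ k) := by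
  intro i
  simp only [hy i, D.cj, map_mul, map_sub, map_one, map_zpow₀]

theorem Dat.bar_bar (D : Dat ι) (i : ι) : D.bar (D.bar i) = i := by
  apply D.inj
  rw [D.cj, D.cj, Complex.conj_conj]

/-- The sum of a symmetric vector is real. -/
theorem Dat.Sym.im_sum {y : ι → ℂ} (hy : D.Sym y) : (∑ i, y i).im = 0 := by
  rw [← Complex.conj_eq_iff_im, map_sum]
  exact (sum_congr rfl fun i _ => (hy i).symm).trans
    (Equiv.sum_comp (Function.Involutive.toPerm D.bar D.bar_bar) y)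

/-- Dirichlet: copy `ee_th`, `norm_one_sub_aa`, `Real.exists_nat_abs_mul_sub_round_le`. -/
theorem Dat.dirichlet (D : Dat ι) {Q : ℕ} (hQ : 0 < Q) : ∃ q : ℕ, 0 < q ∧ q ≤ Q ∧ ∀ M : ℕ,
    ‖1 - D.θ ^ (-((q * M : ℕ) : ℤ))‖ ≤ 2 * π * (M * (1 / ((Q : ℝ) + 1))) := by
  have hth : ee (Complex.arg D.θ / (2 * π)) = D.θ := by
    unfold ee
    have h := Complex.norm_mul_exp_arg_mul_I D.θ
    rw [D.th, Complex.ofReal_one, one_mul] at h
    have := pi_pos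
    have e : 2 * π * (Complex.arg D.θ / (2 * π)) = Complex.arg D.θ := by field_simp
    rw [e, h]
  set t := Complex.arg D.θ / (2 * π)
  obtain ⟨q, h0, hq, h⟩ := Real.exists_nat_abs_mul_sub_round_le t hQ
  refine ⟨q, h0, hq, fun M => ?_⟩
  have h1 : D.θ ^ (-((q * M : ℕ) : ℤ)) = ee (-(M * ((q : ℝ) * t - round ((q : ℝ) * t)))) := by
    rw [zpow_neg, zpow_natCast, ← hth, ← ee_nat_mul]
    apply inv_eq_of_mul_eq_one_right
    rw [← ee_add, ← ee_int (M * round ((q : ℝ) * t))]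
    congr 1
    push_cast
    ring
  rw [h1, norm_sub_rev]
  refine (norm_ee_sub_one_le _).trans ?_
  rw [abs_neg, abs_mul, Nat.abs_cast]
  have := pi_pos
  gcongr

end Pool.Agent.Lib.MP_e840b2_an.OP
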