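import Pool.Agent.Lib.MP_e840b2_an.OP.Basic

/-! The neutral coordinate and the mean of a test function. -/

set_option autoImplicit false
open Finset Real
open scoped ComplexConjugate

namespace Pool.Agent.Lib.MP_e840b2_an.OP

variable {ι : Type} [Fintype ι] {D : Dat ι}

/-- Copy `cell_cost`; the drift has norm at most `ρ / 2` (`norm_geom_le`). -/
theorem Dat.cell_cost (D : Dat ι) (N m : ℕ) {ρ : ℝ} (hρ : 1 ≤ ρ) (h2 : 2 ≤ ρ * ‖D.θ⁻¹ - 1‖)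
    (hN : (N : ℝ) ≤ ρ ^ 2) (ζ : ℂ) :
    ∑ b : Fin N → Bool, (-Real.log (k1 (⌊(D.nz m ζ b).re / ρ⌋ - ⌊ζ.re / ρ⌋)) +
      -Real.log (k1 (⌊(D.nz m ζ b).im / ρ⌋ - ⌊ζ.im / ρ⌋))) ≤ 2 ^ N * 8 := by
  unfold Dat.nz
  have h2' := second_moment N 0 (fun t => D.θ ^ (-((m : ℤ) + t + 1)))
  simp only [zero_add, D.norm_th, one_pow, sum_const, card_univ, Fintype.card_fin,
    nsmul_eq_mul, mul_one] at h2'
  have h3 : ‖(∑ t : Fin N, D.θ ^ (-((m : ℤ) + t + 1))) / 2‖ ≤ ρ / 2 := by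
    have e : ∑ t : Fin N, D.θ ^ (-((m : ℤ) + t + 1)) =
        D.θ ^ (-((m : ℤ) + 1)) * ∑ t ∈ range N, D.θ⁻¹ ^ t := by
      rw [mul_sum, ← Fin.sum_univ_eq_sum_range (fun t => D.θ ^ (-((m : ℤ) + 1)) * D.θ⁻¹ ^ t)]
      apply sum_congr rfl
      intro t _
      rw [inv_pow, ← zpow_natCast, ← zpow_neg, ← zpow_add₀ D.th_ne]
      congr 1
      ring
    rw [e, norm_div, norm_mul, D.norm_th, one_mul]
    have h4 := norm_geom_le D.θ⁻¹ (by rw [norm_inv, D.th, inv_one]) N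
    have h5 : 0 < ‖D.θ⁻¹ - 1‖ := by
      by_contra h
      have := mul_nonpos_of_nonneg_of_nonpos (zero_le_one.trans hρ) (not_lt.1 h)
      linarith
    simp only [Complex.norm_ofNat]
    have h6 : ‖∑ t ∈ range N, D.θ⁻¹ ^ t‖ ≤ ρ := le_of_mul_le_mul_right (by linarith) h5
    linarith
  have h4 : ∀ b : Fin N → Bool,
      (-Real.log (k1 (⌊(ζ + ∑ t : Fin N, (dg (b t) : ℂ) * D.θ ^ (-((m : ℤ) + t + 1))).re / ρ⌋ -
          ⌊ζ.re / ρ⌋)) +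
        -Real.log (k1 (⌊(ζ + ∑ t : Fin N, (dg (b t) : ℂ) * D.θ ^ (-((m : ℤ) + t + 1))).im / ρ⌋ -
          ⌊ζ.im / ρ⌋))) ≤
        7 + ‖∑ t : Fin N, (dg (b t) : ℂ) * D.θ ^ (-((m : ℤ) + t + 1))‖ ^ 2 / (2 * ρ ^ 2) := by
    intro b
    set v := ∑ t : Fin N, (dg (b t) : ℂ) * D.θ ^ (-((m : ℤ) + t + 1))
    rw [Complex.add_re, Complex.add_im, add_div, add_div]
    have a1 := neg_log_k1 (⌊ζ.re / ρ + v.re / ρ⌋ - ⌊ζ.re / ρ⌋)
    have a2 := neg_log_k1 (⌊ζ.im / ρ + v.im / ρ⌋ - ⌊ζ.im / ρ⌋)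
    have a3 := abs_floor_sub (ζ.re / ρ) (v.re / ρ)
    have a4 := abs_floor_sub (ζ.im / ρ) (v.im / ρ)
    have a5 : ‖v‖ ^ 2 / (2 * ρ ^ 2) = (|v.re / ρ| ^ 2 + |v.im / ρ| ^ 2) / 2 := by
      rw [sq_abs, sq_abs, Complex.sq_norm, Complex.normSq_apply]
      field_simp
    rw [a5]
    nlinarith [sq_nonneg (|v.re / ρ| - 1), sq_nonneg (|v.im / ρ| - 1)]
  refine (sum_le_sum fun b _ => h4 b).trans ?_
  rw [sum_add_distrib, ← sum_div, h2']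
  simp only [sum_const, card_univ, Fintype.card_fun, Fintype.card_bool, Fintype.card_fin,
    nsmul_eq_mul]
  push_cast
  have h5 : (‖(∑ t : Fin N, D.θ ^ (-((m : ℤ) + t + 1))) / 2‖ ^ 2 + N / 4) / (2 * ρ ^ 2) ≤ 1 := by
    rw [div_le_one (by positivity)]
    nlinarith [norm_nonneg ((∑ t : Fin N, D.θ ^ (-((m : ℤ) + t + 1))) / 2)]
  have h6 : (0 : ℝ) < 2 ^ N := by positivity
  rw [mul_div_assoc]
  nlinarith

/-- The second half of `mean_ge`. -/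
theorem mean_abs {N : ℕ} (e : Fin N → ℝ) {A r ρ ε W : ℝ} {φ ζ o : ℂ} {n : ℤ} (hρ : 0 < ρ)
    (hφ : ‖φ‖ ≤ ε) (h1 : ε * ρ ≤ 1 / 50) (hr : |r| ≤ 1 / 25) (hn : A + 2 * (φ * ζ).re + r = n)
    (ho : o = ∏ t, (1 + ee (e t)) / 2) (W0 : 0 < W) (hW : W ≤ ‖o‖) :
    2 ^ N * (W / 2) ≤ ∑ b : Fin N → Bool, (conj o / (‖o‖ : ℂ) *
      ee (2 * (φ * ⟨ρ * (⌊ζ.re / ρ⌋ : ℤ), ρ * (⌊ζ.im / ρ⌋ : ℤ)⟩).re) *
        ee (A + ∑ t, dg (b t) * e t)).re := by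
  have hε0 : 0 ≤ ε := (norm_nonneg _).trans hφ
  have hom0 : 0 < ‖o‖ := W0.trans_le hW
  simp only [ee_add]
  rw [← Complex.re_sum, ← mul_sum, ← mul_sum, sum_ee_dg, ← ho]
  set c : ℂ := ⟨ρ * (⌊ζ.re / ρ⌋ : ℤ), ρ * (⌊ζ.im / ρ⌋ : ℤ)⟩ with hc
  set x : ℝ := 2 * (φ * (ζ - c)).re + r with hx
  have e2 : conj o / (‖o‖ : ℂ) * ee (2 * (φ * c).re) * (ee A * (2 ^ N * o)) =
      ((2 ^ N * ‖o‖ : ℝ) : ℂ) * ee (-x) := by
    have e3 : ee (2 * (φ * c).re) * ee A = ee (-x) := by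
      rw [← ee_add, ← one_mul (ee (-x)), ← ee_int n, ← ee_add, ← hn, hx]
      congr 1
      rw [mul_sub, Complex.sub_re]
      ring
    have e4 : conj o * o = (‖o‖ : ℂ) ^ 2 := by rw [Complex.conj_mul']
    have e5 : (‖o‖ : ℂ) ≠ 0 := by exact_mod_cast hom0.ne'
    rw [← e3]
    push_cast
    field_simp
    linear_combination (ee (2 * (φ * c).re) * ee A) * e4
  rw [e2, Complex.re_ofReal_mul, ee_re]
  have hζ : ‖ζ - c‖ ≤ 2 * ρ := by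
    refine (Complex.norm_le_abs_re_add_abs_im _).trans ?_
    have key : ∀ a : ℝ, |a - ρ * (⌊a / ρ⌋ : ℤ)| ≤ ρ := by
      intro a
      have h1 := Int.floor_le (a / ρ)
      have h2 := Int.lt_floor_add_one (a / ρ)
      rw [le_div_iff₀ hρ] at h1
      rw [div_lt_iff₀ hρ] at h2
      rw [abs_le]
      constructor <;> linarith
    have h1 := key ζ.re
    have h2 := key ζ.im
    simp only [hc, Complex.sub_re, Complex.sub_im]
    linarith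
  have hx1 : |x| ≤ 1 / 8 := by
    have h2 := Complex.abs_re_le_norm (φ * (ζ - c))
    rw [norm_mul] at h2
    have h3 : ‖φ‖ * ‖ζ - c‖ ≤ ε * (2 * ρ) := mul_le_mul hφ hζ (norm_nonneg _) hε0
    refine (abs_add_le _ _).trans ?_
    rw [abs_mul, abs_two]
    linarith
  have hcos : 1 / 2 ≤ cos (2 * π * -x) := by
    have := cos_ge_lin (2 * -x) (by rw [abs_mul, abs_neg, abs_two]; linarith)
    rw [abs_mul, abs_neg, abs_two, show π * (2 * -x) = 2 * π * -x by ring] at this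
    linarith
  have h7 : (0 : ℝ) < 2 ^ N := by positivity
  rw [mul_assoc]
  apply mul_le_mul_of_nonneg_left _ h7.le
  nlinarith

end Pool.Agent.Lib.MP_e840b2_an.OP
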