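import Pool.Agent.Lib.MP_e840b2_an.OP.Ker
import Pool.Agent.Lib.MP_e840b2_an.OP.Mean

/-! The coding cost of one block. -/

set_option autoImplicit false
open Finset Real
open scoped ComplexConjugate

namespace Pool.Agent.Lib.MP_e840b2_an.OP

variable {ι : Type} [Fintype ι] {D : Dat ι}

variable {Γ ε W ρ : ℝ} {y w : ι → ℂ} {z : ℂ} {L g N nJ : ℕ}

/-- `Sym.pair` turns the argument of `ee` into `E (y * X) j + ∑ t, dg (b t) * E y (j - 1 - t)` with
`j = jj L g i`; then `mean_abs` with `φ = θ ^ (j + m) * z`, `r = E (w * Xw) (-j)` (`E_w`, `gap`). -/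
theorem Dat.Ok.mean_ge (h : D.Ok Γ y z w L ε W g N nJ ρ) {i : ℕ} (hi : i < nJ) (m : ℕ)
    {X Xw : ι → ℂ} {ζ : ℂ} (hX : D.Sym X) (hw : ∀ r, ‖Xw r‖ ≤ D.G)
    (hp : ∀ j : ℤ, ∃ n : ℤ, D.E (fun r => y r * X r) j + 2 * (D.θ ^ (j + m) * z * ζ).re +
      D.E (fun r => w r * Xw r) (-j) = n) :
    2 ^ N * (W * exp (-(2 * Γ)) / 2) ≤ ∑ b : Fin N → Bool,
      (D.uu y z L g N ρ m (D.cst ρ X ζ).2 i *
        ee (∑ r, D.ff y L g N i r * D.co (D.nx X b) r)).re := by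
  have hε0 : 0 ≤ ε := (norm_nonneg _).trans h.st.z_le
  have hG := D.one_le_G
  have e1 : ∀ b : Fin N → Bool, ∑ r, D.ff y L g N i r * D.co (D.nx X b) r =
      D.E (fun r => y r * X r) (jj L g i) +
        ∑ t : Fin N, dg (b t) * D.E y (jj L g i - 1 - t) := by
    intro b
    unfold Dat.ff
    rw [← Dat.Sym.pair ((D.sym_zpow _).mul h.st.sym) (hX.nx b)]
    have e2 : ∀ r, D.σ r ^ (jj L g i - N) * y r * D.nx X b r =
        D.σ r ^ jj L g i * (y r * X r) +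
          ∑ t : Fin N, (dg (b t) : ℂ) * (D.σ r ^ (jj L g i - 1 - t) * y r) := by
      intro r
      unfold Dat.nx
      rw [mul_add, mul_sum]
      congr 1
      · have e3 : D.σ r ^ jj L g i = D.σ r ^ (jj L g i - N) * D.σ r ^ N := by
          rw [← zpow_natCast, ← zpow_add₀ (D.ne r), sub_add_cancel]
        rw [e3]
        ring
      · refine sum_congr rfl fun t _ => ?_
        rw [show jj L g i - 1 - t = (jj L g i - N) + ((N : ℤ) - 1 - t) by ring,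
          zpow_add₀ (D.ne r)]
        ring
    simp only [e2]
    unfold Dat.E
    rw [sum_add_distrib, Complex.add_re, sum_comm, Complex.re_sum (f := fun t : Fin N =>
      ∑ r, (dg (b t) : ℂ) * (D.σ r ^ (jj L g i - 1 - t) * y r))]
    congr 1
    refine sum_congr rfl fun t _ => ?_
    rw [← mul_sum, Complex.re_ofReal_mul]
  have hj : (L : ℤ) + g ≤ jj L g i := by
    unfold jj
    have : (0 : ℤ) ≤ g * i := by positivity
    linarith
  have hr : |D.E (fun r => w r * Xw r) (-jj L g i)| ≤ 1 / 25 := by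
    refine (D.E_w _ L (by omega)).trans ?_
    have h1 : ∑ r, ‖w r * Xw r‖ / ‖D.σ r‖ ^ L ≤ D.G * (1 / 5 - ε) := by
      refine le_trans ?_ (mul_le_mul_of_nonneg_left h.st.w_le (by linarith))
      rw [mul_sum]
      refine sum_le_sum fun r _ => ?_
      rw [norm_mul, ← mul_div_assoc, mul_comm D.G]
      exact div_le_div_of_nonneg_right (mul_le_mul_of_nonneg_left (hw r) (norm_nonneg _))
        (by positivity)
    have h2 : D.a ^ ((L : ℤ) - jj L g i) ≤ (D.a ^ g)⁻¹ := by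
      rw [← zpow_natCast, ← zpow_neg]
      exact D.zpow_le (by omega)
    have h3 : (D.a ^ g)⁻¹ * D.G ≤ 1 / 20 := by
      rw [inv_mul_le_iff₀ (pow_pos D.a_pos g)]
      linarith [h.gap]
    have h4 : 0 ≤ (D.a ^ g)⁻¹ := (inv_pos.2 (pow_pos D.a_pos g)).le
    have h5 : D.G * (1 / 5 - ε) ≤ D.G * (1 / 5) :=
      mul_le_mul_of_nonneg_left (by linarith) (by linarith)
    refine (mul_le_mul h2 (h1.trans h5) (sum_nonneg fun r _ => by positivity) h4).trans ?_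
    rw [← mul_assoc]
    linarith
  obtain ⟨n, hn⟩ := hp (jj L g i)
  have hφ : ‖D.θ ^ (jj L g i + m) * z‖ ≤ ε := by
    rw [norm_mul, D.norm_th, one_mul]
    exact h.st.z_le
  have hW := h.W0
  simp only [e1]
  exact mean_abs (fun t : Fin N => D.E y (jj L g i - 1 - t)) (by linarith [h.r1]) hφ h.r3 hr hn
    rfl (by positivity) (h.om_ge hi)

/-- The step `hcost` of `block_cost`: `mem_box`, `neg_log_rg_le`, `ff_sum`,
`∏ r, 8 * G * ‖σ r‖ ^ N = (8 * G) ^ card ι * M ^ N`. -/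
theorem Dat.Ok.kD_cost (h : D.Ok Γ y z w L ε W g N nJ ρ) {lam : ℝ} (l0 : 0 ≤ lam)
    (l1 : lam ≤ 1 / 2) (m : ℕ) {X : ι → ℂ} (hX : D.Sym X) (ζ : ℂ) (b : Fin N → Bool) :
    0 < D.kD y z L g N nJ ρ lam m (D.cst ρ X ζ) (fun r => ⌊D.co (D.nx X b) r⌋) ∧
    -Real.log (D.kD y z L g N nJ ρ lam m (D.cst ρ X ζ) fun r => ⌊D.co (D.nx X b) r⌋) ≤
      N * Real.log D.M + Real.log (2 * (8 * D.G) ^ Fintype.card ι) + 2 + nJ * (2 * lam ^ 2) -
        lam * ∑ i ∈ range nJ, (D.uu y z L g N ρ m (D.cst ρ X ζ).2 i *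
          ee (∑ r, D.ff y L g N i r * D.co (D.nx X b) r)).re := by
  have hmem := hX.mem_box b
  have G1 := D.one_le_G
  have hσ : ∀ r, 0 < ‖D.σ r‖ := fun r => norm_pos_iff.2 (D.ne r)
  have hM : 0 < D.M := prod_pos fun r _ => hσ r
  have hP : 2 * ∏ r, 8 * D.G * ‖D.σ r‖ ^ N = 2 * (8 * D.G) ^ Fintype.card ι * D.M ^ N := by
    rw [prod_mul_distrib, prod_const, card_univ, prod_pow, mul_assoc]
    rfl
  have hkD : (D.kD y z L g N nJ ρ lam m (D.cst ρ X ζ) fun r => ⌊D.co (D.nx X b) r⌋) =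
      (∏ i ∈ range nJ, rg lam (D.uu y z L g N ρ m (D.cst ρ X ζ).2 i)
        (∑ r, D.ff y L g N i r * (⌊D.co (D.nx X b) r⌋ : ℤ))) /
        (2 * (8 * D.G) ^ Fintype.card ι * D.M ^ N) := by
    rw [← hP]
    unfold Dat.kD
    exact if_pos hmem
  have hrf : ∀ i (x : ℝ), 0 < rg lam (D.uu y z L g N ρ m (D.cst ρ X ζ).2 i) x :=
    fun i x => rg_pos l0 l1 (D.norm_uu_le _ _ _ _ _ _ _ _ _) _
  have hc : 0 < 2 * (8 * D.G) ^ Fintype.card ι := by positivity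
  rw [hkD]
  refine ⟨div_pos (prod_pos fun i _ => hrf i _) (by positivity), ?_⟩
  rw [Real.log_div (prod_pos fun i _ => hrf i _).ne' (by positivity),
    Real.log_prod (fun i _ => (hrf i _).ne'), Real.log_mul hc.ne' (pow_pos hM N).ne', Real.log_pow]
  have h6 : ∀ i ∈ range nJ, -Real.log (rg lam (D.uu y z L g N ρ m (D.cst ρ X ζ).2 i)
      (∑ r, D.ff y L g N i r * (⌊D.co (D.nx X b) r⌋ : ℤ))) ≤
        2 * lam ^ 2 - lam * (D.uu y z L g N ρ m (D.cst ρ X ζ).2 i *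
          ee (∑ r, D.ff y L g N i r * D.co (D.nx X b) r)).re + π * ∑ r, |D.ff y L g N i r| := by
    intro i _
    refine (neg_log_rg_le l0 l1 (D.norm_uu_le _ _ _ _ _ _ _ _ _) _).trans ?_
    have h9 : |∑ r, D.ff y L g N i r * D.co (D.nx X b) r -
        ∑ r, D.ff y L g N i r * (⌊D.co (D.nx X b) r⌋ : ℤ)| ≤ ∑ r, |D.ff y L g N i r| := by
      rw [← sum_sub_distrib]
      refine (abs_sum_le_sum_abs _ _).trans (sum_le_sum fun r _ => ?_)
      rw [← mul_sub, abs_mul]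
      refine mul_le_of_le_one_right (abs_nonneg _) (abs_le.2 ⟨?_, ?_⟩)
      · linarith [Int.floor_le (D.co (D.nx X b) r)]
      · linarith [Int.lt_floor_add_one (D.co (D.nx X b) r)]
    have h7 : |(D.uu y z L g N ρ m (D.cst ρ X ζ).2 i *
          ee (∑ r, D.ff y L g N i r * D.co (D.nx X b) r)).re -
        (D.uu y z L g N ρ m (D.cst ρ X ζ).2 i *
          ee (∑ r, D.ff y L g N i r * (⌊D.co (D.nx X b) r⌋ : ℤ))).re| ≤
          2 * π * ∑ r, |D.ff y L g N i r| := by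
      rw [← Complex.sub_re, ← mul_sub]
      refine (Complex.abs_re_le_norm _).trans ?_
      rw [norm_mul]
      exact (mul_le_mul (D.norm_uu_le y z L g N ρ m (D.cst ρ X ζ).2 i)
        ((norm_ee_sub_le _ _).trans (mul_le_mul_of_nonneg_left h9 (by have := pi_pos; positivity)))
        (norm_nonneg _) zero_le_one).trans_eq (one_mul _)
    have h12 := mul_le_mul_of_nonneg_left (abs_le.mp h7).2 l0
    have h13 : 0 ≤ 2 * π * ∑ r, |D.ff y L g N i r| :=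
      mul_nonneg (by have := pi_pos; positivity) (sum_nonneg fun _ _ => abs_nonneg _)
    have h14 := mul_le_mul_of_nonneg_right l1 h13
    linarith
  have h7 := sum_le_sum h6
  rw [sum_add_distrib, sum_sub_distrib, sum_const, card_range, nsmul_eq_mul, ← mul_sum,
    ← mul_sum, sum_neg_distrib] at h7
  have h8 : π * ∑ i ∈ range nJ, ∑ r, |D.ff y L g N i r| ≤ 3.15 * (1 / 2) :=
    mul_le_mul pi_lt_d2.le h.ff_sum (sum_nonneg fun _ _ => sum_nonneg fun _ _ => abs_nonneg _)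
      (by norm_num)
  linarith

/-- The end of `block_cost`: `kD_cost`, `mean_ge`, `cell_cost`, `lot`. -/
theorem Dat.Ok.block (h : D.Ok Γ y z w L ε W g N nJ ρ) (m : ℕ)
    {X Xw : ι → ℂ} {ζ : ℂ} (hX : D.Sym X) (hw : ∀ r, ‖Xw r‖ ≤ D.G)
    (hp : ∀ j : ℤ, ∃ n : ℤ, D.E (fun r => y r * X r) j + 2 * (D.θ ^ (j + m) * z * ζ).re +
      D.E (fun r => w r * Xw r) (-j) = n) :
    (∀ b : Fin N → Bool, 0 < D.kk y z L g N nJ ρ (W * exp (-(2 * Γ)) / 8) m (D.cst ρ X ζ)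
      (D.cst ρ (D.nx X b) (D.nz m ζ b))) ∧
    ∑ b : Fin N → Bool, -Real.log (D.kk y z L g N nJ ρ (W * exp (-(2 * Γ)) / 8) m (D.cst ρ X ζ)
      (D.cst ρ (D.nx X b) (D.nz m ζ b))) ≤ 2 ^ N * (N * Real.log D.M - 1) := by
  obtain ⟨l0, l1⟩ := h.lam
  have hlot := h.lot
  have hmean : ∑ i ∈ range nJ, 2 ^ N * (W * exp (-(2 * Γ)) / 2) ≤
      ∑ i ∈ range nJ, ∑ b : Fin N → Bool, (D.uu y z L g N ρ m (D.cst ρ X ζ).2 i *
        ee (∑ r, D.ff y L g N i r * D.co (D.nx X b) r)).re :=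
    sum_le_sum fun i hi => h.mean_ge (mem_range.1 hi) m hX hw hp
  generalize W * exp (-(2 * Γ)) = W' at l0 l1 hlot hmean ⊢
  have hc := h.kD_cost l0.le l1 m hX ζ
  refine ⟨fun b => mul_pos (hc b).1 (mul_pos (k1_pos _) (k1_pos _)), ?_⟩
  have hcell := D.cell_cost N m h.r1 h.r2 h.r4 ζ
  rw [sum_const, card_range, nsmul_eq_mul, sum_comm] at hmean
  have hsum := sum_le_sum (fun b (_ : b ∈ (univ : Finset (Fin N → Bool))) => (hc b).2)
  rw [sum_sub_distrib, ← mul_sum, sum_const, card_univ, Fintype.card_fun, Fintype.card_bool,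
    Fintype.card_fin, nsmul_eq_mul] at hsum
  push_cast at hsum
  have hsplit : ∀ b : Fin N → Bool, -Real.log (D.kk y z L g N nJ ρ (W' / 8) m (D.cst ρ X ζ)
      (D.cst ρ (D.nx X b) (D.nz m ζ b))) =
      -Real.log (D.kD y z L g N nJ ρ (W' / 8) m (D.cst ρ X ζ) fun r => ⌊D.co (D.nx X b) r⌋) +
      (-Real.log (k1 (⌊(D.nz m ζ b).re / ρ⌋ - ⌊ζ.re / ρ⌋)) +
        -Real.log (k1 (⌊(D.nz m ζ b).im / ρ⌋ - ⌊ζ.im / ρ⌋))) := by
    intro b
    have e : D.kk y z L g N nJ ρ (W' / 8) m (D.cst ρ X ζ) (D.cst ρ (D.nx X b) (D.nz m ζ b)) =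
        (D.kD y z L g N nJ ρ (W' / 8) m (D.cst ρ X ζ) fun r => ⌊D.co (D.nx X b) r⌋) *
          (k1 (⌊(D.nz m ζ b).re / ρ⌋ - ⌊ζ.re / ρ⌋) * k1 (⌊(D.nz m ζ b).im / ρ⌋ - ⌊ζ.im / ρ⌋)) :=
      rfl
    rw [e, Real.log_mul (hc b).1.ne' (mul_pos (k1_pos _) (k1_pos _)).ne',
      Real.log_mul (k1_pos _).ne' (k1_pos _).ne']
    ring
  refine le_trans (le_of_eq (sum_congr rfl fun b _ => hsplit b)) ?_
  rw [sum_add_distrib]
  have h2N : (0 : ℝ) < 2 ^ N := by positivity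
  have h9 := mul_le_mul_of_nonneg_left hmean l0.le
  have h10 : 2 ^ N * (Real.log (2 * (8 * D.G) ^ Fintype.card ι) + 11) ≤
      2 ^ N * (nJ * W' ^ 2 / 32) := mul_le_mul_of_nonneg_left (by linarith) h2N.le
  have h11 : W' / 8 * (nJ * (2 ^ N * (W' / 2))) - 2 ^ N * (nJ * (2 * (W' / 8) ^ 2)) =
      2 ^ N * (nJ * W' ^ 2 / 32) := by ring
  linarith

end Pool.Agent.Lib.MP_e840b2_an.OP
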