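import Pool.Agent.Lib.MP_e840b2_an.OP.Step
import Pool.Agent.Lib.MP_e840b2_an.OP.Base

/-! Iteration of the doubling step. -/

set_option autoImplicit false
open Finset Real
open scoped ComplexConjugate

namespace Pool.Agent.Lib.MP_e840b2_an.OP

variable {ι : Type} [Fintype ι] {D : Dat ι}

theorem Dat.good_base_delta (D : Dat ι) (J : ℕ) :
    ∃ δ : ℝ, 0 < δ ∧ ∀ q : ℕ, 0 < q → q < J → δ ≤ ‖1 - D.θ ^ (-(q : ℤ))‖ := by
  induction J with
  | zero => exact ⟨1, one_pos, fun q _ h => absurd h (Nat.not_lt_zero q)⟩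
  | succ J ih =>
    obtain ⟨δ, h0, h⟩ := ih
    rcases Nat.eq_zero_or_pos J with rfl | hJ
    · exact ⟨δ, h0, fun q h1 h2 => by omega⟩
    have hp : 0 < ‖1 - D.θ ^ (-(J : ℤ))‖ := by
      rw [norm_pos_iff, sub_ne_zero, zpow_neg, zpow_natCast]
      exact fun e => D.nru J hJ (inv_eq_one.1 e.symm)
    refine ⟨min δ _, lt_min h0 hp, fun q h1 h2 => ?_⟩
    rcases Nat.lt_succ_iff_lt_or_eq.1 h2 with h3 | rfl
    · exact (min_le_left _ _).trans (h q h1 h3)
    · exact min_le_right _ _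

/-- `base`; `dirichlet` with `Q = ⌊exp e⌋₊`, `M = 1`; `q ≥ J₁` because the finitely many numbers
`‖1 - θ ^ (-q)‖`, `0 < q < J₁`, are positive (`nru`); `e` large. -/
theorem Dat.good_base (D : Dat ι) : ∃ Γ e u : ℝ, D.G ≤ Γ ∧ D.Good Γ e (e + 2) u := by
  obtain ⟨Γ, c, J₁, hG, hb⟩ := D.base
  obtain ⟨δ, δ0, hδ⟩ := D.good_base_delta J₁
  have hΓ : 1 ≤ Γ := D.one_le_G.trans hG
  obtain ⟨e, e1, e2, e3, e4⟩ : ∃ e : ℝ, 20 ≤ e ∧ 100 * Γ ^ 2 ≤ e ∧ (c : ℝ) ≤ e ∧ 8 / δ ≤ e := by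
    have h1 : (0 : ℝ) ≤ c := Nat.cast_nonneg c
    have h2 : 0 < 8 / δ := by positivity
    have h3 : 0 ≤ 100 * Γ ^ 2 := by positivity
    exact ⟨20 + 100 * Γ ^ 2 + c + 8 / δ, by linarith, by linarith, by linarith, by linarith⟩
  have X1 : e + 1 ≤ exp e := Real.add_one_le_exp e
  have X2 : 2 * Γ * e ≤ exp e := by
    have h1 : e / 2 + 1 ≤ exp (e / 2) := Real.add_one_le_exp _
    have h2 : exp e = exp (e / 2) * exp (e / 2) := by rw [← exp_add]; ring_nf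
    have h3 : 100 * Γ ≤ e := by nlinarith
    have h4 : (e / 2 + 1) * (e / 2 + 1) ≤ exp (e / 2) * exp (e / 2) :=
      mul_self_le_mul_self (by linarith) h1
    nlinarith
  obtain ⟨q, q0, q1, hq⟩ := D.dirichlet (Q := ⌊exp e⌋₊) (Nat.floor_pos.mpr (by linarith))
  have h1 := hq 1
  rw [mul_one, Nat.cast_one, one_mul] at h1
  have hEE : exp (-e) * exp e = 1 := by rw [← exp_add]; simp
  have hε := exp_pos (-e)
  have h2 : 1 / ((⌊exp e⌋₊ : ℝ) + 1) ≤ exp (-e) := by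
    rw [Real.exp_neg, ← one_div]
    exact one_div_le_one_div_of_le (exp_pos e) (Nat.lt_floor_add_one _).le
  have h3 : ‖1 - D.θ ^ (-(q : ℤ))‖ ≤ 7 * exp (-e) := by
    have := pi_lt_d2
    have h4 : 2 * π * (1 / ((⌊exp e⌋₊ : ℝ) + 1)) ≤ 2 * π * exp (-e) :=
      mul_le_mul_of_nonneg_left h2 (by positivity)
    nlinarith
  have hJ : J₁ ≤ q := by
    by_contra hc
    have h4 := (hδ q q0 (not_le.1 hc)).trans h3
    rw [div_le_iff₀ δ0] at e4
    have h5 : δ * exp e ≤ 7 * exp (-e) * exp e := mul_le_mul_of_nonneg_right h4 (exp_pos e).le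
    nlinarith
  obtain ⟨y, z, w, W, W0, hS⟩ := hb q hJ (exp (-e)) (by linarith) (by nlinarith)
  refine ⟨Γ, e, -Real.log W, hG, y, z, w, c + q, ?_, ?_, by linarith, le_rfl, e1, by linarith⟩
  · rwa [neg_neg, Real.exp_log W0]
  · have h4 : (q : ℝ) ≤ exp e := (Nat.cast_le.2 q1).trans (Nat.floor_le (exp_pos e).le)
    have h5 : (7 : ℝ) ≤ exp 2 := exp_two_ge
    rw [exp_add]
    push_cast
    nlinarith

/-- Copy `good_step` with `s0 = ⌈Γ * e⌉₊` (`zpow_le_exp`); `2 * Γ * e ≤ exp l ≤ 8 * exp e`. -/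
theorem Dat.good_step {Γ e l u : ℝ} (hG : D.G ≤ Γ) (h : D.Good Γ e l u) :
    ∃ e' l', D.Good Γ e' l' (2 * u + 150 * Γ) ∧ 9 / 4 * (e - l / 4 - 8) ≤ e' - l' / 4 - 8 := by
  obtain ⟨y, z, w, L, hS, hL, hl0, hl, he, hΓ⟩ := h
  have hΓ1 : 1 ≤ Γ := D.one_le_G.trans hG
  have hε := exp_neg_le he
  have hε0 := exp_pos (-e)
  have hEE : exp (-e) * exp e = 1 := by rw [← exp_add]; simp
  have hE : 100000 ≤ exp e := by
    have := mul_le_mul_of_nonneg_right hε (exp_pos e).le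
    linarith
  have h2e : exp (2 * e) = exp e * exp e := by rw [← exp_add]; ring_nf
  have h7 : (7 : ℝ) ≤ exp 2 := exp_two_ge
  have h8 : exp 2 ≤ 8 := by
    have : exp 2 = exp 1 * exp 1 := by rw [← exp_add]; norm_num
    nlinarith [Real.exp_one_lt_d9, exp_pos 1]
  have hle : exp l ≤ 8 * exp e := by
    have : exp l ≤ exp (e + 2) := exp_le_exp.mpr hl
    rw [exp_add] at this
    linarith [mul_le_mul_of_nonneg_left h8 (exp_pos e).le]
  have hΓe : e ≤ Γ * e := le_mul_of_one_le_left (by linarith) hΓ1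
  have hL0 : (0 : ℝ) ≤ L := Nat.cast_nonneg L
  have hL' : (L : ℝ) + 2 * (Γ * e) + 2 ≤ exp l := by linarith
  set s0 := ⌈Γ * e⌉₊ with hs0
  have hs1 : (s0 : ℝ) ≤ Γ * e + 1 := (Nat.ceil_lt_add_one (by linarith)).le
  have hs2 : Γ * e ≤ s0 := Nat.le_ceil _
  have hs : D.a ^ (-(s0 : ℤ)) ≤ exp (-e) :=
    D.zpow_le_exp ((mul_le_mul_of_nonneg_right hG (by linarith)).trans hs2)
  have hΓε : 100 * Γ ^ 2 * exp (-e) ≤ 1 :=
    (mul_le_mul_of_nonneg_right hΓ hε0.le).trans (by rw [mul_comm, hEE])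
  set Lt := L + 2 * s0 with hLt
  have hLt1 : (Lt : ℝ) ≤ exp l := by rw [hLt]; push_cast; linarith
  have hLt2 : 2 ≤ Lt := by
    have : (2 : ℝ) ≤ s0 := by linarith
    have : 2 ≤ s0 := by exact_mod_cast this
    omega
  have hL10 : exp (-e) * (L + s0) ≤ 10 := by
    have : (L : ℝ) + s0 ≤ 8 * exp e := by linarith
    have := mul_le_mul_of_nonneg_left this hε0.le
    linarith
  have h4e : 100000 * exp e ≤ exp (2 * e) := by
    rw [h2e]; exact mul_le_mul_of_nonneg_right hE (exp_pos _).le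
  obtain ⟨q, hq0, hq1, hq⟩ := D.dirichlet (Q := ⌊exp (2 * e) / 200⌋₊)
    (Nat.floor_pos.mpr (by linarith))
  have hq2 : (q : ℝ) ≤ exp (2 * e) / 200 :=
    le_trans (by exact_mod_cast hq1) (Nat.floor_le (by positivity))
  have hδ : 2 * π * (1 / ((⌊exp (2 * e) / 200⌋₊ : ℝ) + 1)) ≤ exp (8 - 2 * e) := by
    have h1 : 1 / ((⌊exp (2 * e) / 200⌋₊ : ℝ) + 1) ≤ 200 / exp (2 * e) := by
      rw [div_le_div_iff₀ (by positivity) (exp_pos _)]
      linarith [Nat.lt_floor_add_one (exp (2 * e) / 200)]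
    have h2 : (1300 : ℝ) ≤ exp 8 := exp_eight_ge
    rw [Real.exp_sub]
    calc 2 * π * (1 / ((⌊exp (2 * e) / 200⌋₊ : ℝ) + 1)) ≤ 2 * 3.15 * (200 / exp (2 * e)) :=
          mul_le_mul (by linarith [pi_lt_d2]) h1 (by positivity) (by norm_num)
      _ = 1260 / exp (2 * e) := by ring
      _ ≤ exp 8 / exp (2 * e) := div_le_div_of_nonneg_right (by linarith) (exp_pos _).le
  have hW : exp (-u) * exp (-u) * exp (-(150 * Γ)) = exp (-(2 * u + 150 * Γ)) := by
    rw [← exp_add, ← exp_add]; ring_nf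
  have hhalf : ∀ e' : ℝ, e + 1 ≤ e' → exp (-e') ≤ exp (-e) / 2 := by
    intro e' he'
    have h1 : exp (-e') ≤ exp (-e + -1) := exp_le_exp.mpr (by linarith)
    rw [exp_add] at h1
    have h2 : exp (-1) ≤ 1 / 2 := by
      rw [Real.exp_neg, inv_le_comm₀ (exp_pos _) (by norm_num)]
      linarith [Real.exp_one_gt_d9]
    linarith [mul_le_mul_of_nonneg_left h2 hε0.le]
  have hεsq : exp (-e) ^ 2 * exp (2 * e) = 1 := by
    rw [h2e]; linear_combination (exp (-e) * exp e + 1) * hEE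
  rcases le_or_gt Lt q with hc | hc
  · have h1 := hq 1
    rw [mul_one, Nat.cast_one, one_mul] at h1
    have hS' := hS.step hG (exp_pos _).le s0 q hc hs hΓε
      (by linarith [mul_le_mul_of_nonneg_left hq2 (sq_nonneg (exp (-e)))]) hL10
      (ε' := exp (-(3 * e - 8))) (by
        calc exp (-e) * ‖1 - D.θ ^ (-(q : ℤ))‖ ≤ exp (-e) * exp (8 - 2 * e) :=
              mul_le_mul_of_nonneg_left (h1.trans hδ) hε0.le
          _ = exp (-(3 * e - 8)) := by rw [← exp_add]; ring_nf) (hhalf _ (by linarith))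
    rw [hW] at hS'
    refine ⟨3 * e - 8, 2 * e, ⟨_, _, _, _, hS', ?_, by linarith, by linarith, by linarith,
      hΓ.trans (exp_le_exp.mpr (by linarith))⟩, by linarith⟩
    push_cast
    have h3 : 2 * Γ * (3 * e - 8) = 6 * (Γ * e) - 16 * Γ := by ring
    linarith
  · set M := Lt / q + 1 with hM
    have hJ1 : Lt ≤ q * M := by
      rw [hM]; exact (Nat.lt_mul_div_succ Lt hq0).le
    have hJ2 : q * M ≤ 2 * Lt := by
      rw [hM, mul_add, mul_one]
      have := Nat.mul_div_le Lt q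
      omega
    have hM2 : M ≤ 2 * Lt := by
      have := Nat.div_le_self Lt q
      omega
    have hJ3 : ((q * M : ℕ) : ℝ) ≤ 2 * exp l := by
      have : ((q * M : ℕ) : ℝ) ≤ ((2 * Lt : ℕ) : ℝ) := by exact_mod_cast hJ2
      push_cast at this ⊢
      linarith
    have hM3 : (M : ℝ) ≤ exp (l + 1) := by
      have : (M : ℝ) ≤ ((2 * Lt : ℕ) : ℝ) := by exact_mod_cast hM2
      push_cast at this
      rw [exp_add]
      have h2 : (2 : ℝ) ≤ exp 1 := by linarith [Real.exp_one_gt_d9]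
      linarith [mul_le_mul_of_nonneg_left h2 (exp_pos l).le]
    have h1 := hq M
    have hS' := hS.step hG (exp_pos _).le s0 (q * M) hJ1 hs hΓε
      (by
        have : exp (-e) ^ 2 * ((q * M : ℕ) : ℝ) ≤ exp (-e) ^ 2 * (16 * exp e) :=
          mul_le_mul_of_nonneg_left (by linarith) (sq_nonneg _)
        have h2 : exp (-e) ^ 2 * (16 * exp e) = 16 * exp (-e) := by
          linear_combination 16 * exp (-e) * hEE
        linarith) hL10
      (ε' := exp (-(3 * e - l - 9))) (by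
        calc exp (-e) * ‖1 - D.θ ^ (-((q * M : ℕ) : ℤ))‖
            ≤ exp (-e) * (exp (l + 1) * exp (8 - 2 * e)) := by
              apply mul_le_mul_of_nonneg_left (h1.trans _) hε0.le
              rw [mul_left_comm]
              exact mul_le_mul hM3 hδ (by have := pi_pos; positivity) (exp_pos _).le
          _ = exp (-(3 * e - l - 9)) := by rw [← exp_add, ← exp_add]; ring_nf)
      (hhalf _ (by linarith))
    rw [hW] at hS'
    refine ⟨3 * e - l - 9, l + 2, ⟨_, _, _, _, hS', ?_, by linarith, by linarith, by linarith,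
      hΓ.trans (exp_le_exp.mpr (by linarith))⟩, by linarith⟩
    rw [Nat.cast_add, exp_add]
    have h3 : 2 * Γ * (3 * e - l - 9) = 6 * (Γ * e) - 2 * (Γ * l) - 18 * Γ := by ring
    have h4 : 0 ≤ Γ * l := mul_nonneg (by linarith) hl0
    have h5 : exp l * 7 ≤ exp l * exp 2 := mul_le_mul_of_nonneg_left h7 (exp_pos _).le
    linarith [exp_pos l]

/-- Copy `exists_good`. -/
theorem Dat.exists_good (D : Dat ι) :
    ∃ Γ : ℝ, D.G ≤ Γ ∧ ∀ A : ℝ, ∃ e l u, D.Good Γ e l u ∧ A ≤ e - u := by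
  obtain ⟨Γ, e0, u0, hG, h0⟩ := D.good_base
  refine ⟨Γ, hG, fun A => ?_⟩
  have main : ∀ r : ℕ, ∃ e l u, D.Good Γ e l u ∧ (9 / 4 : ℝ) ^ r ≤ e - l / 4 - 8 ∧
      u + 150 * Γ = 2 ^ r * (u0 + 150 * Γ) := by
    intro r
    induction r with
    | zero =>
      refine ⟨e0, e0 + 2, u0, h0, ?_, by simp⟩
      obtain ⟨_, _, _, _, -, -, -, -, he, -⟩ := h0
      rw [pow_zero]
      linarith
    | succ r ih =>
      obtain ⟨e, l, u, h1, h2, h3⟩ := ih
      obtain ⟨e', l', h4, h5⟩ := Dat.good_step hG h1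
      refine ⟨e', l', _, h4, ?_, ?_⟩
      · rw [pow_succ]; linarith
      · rw [pow_succ]; linarith
  obtain ⟨r, hr⟩ := pow_unbounded_of_one_lt (|u0 + 150 * Γ| + |A|)
    (show (1 : ℝ) < 9 / 8 by norm_num)
  obtain ⟨e, l, u, h1, h2, h3⟩ := main r
  refine ⟨e, l, u, h1, ?_⟩
  obtain ⟨_, _, _, _, -, -, hl0, -, -, -⟩ := h1
  have hΓ : 1 ≤ Γ := D.one_le_G.trans hG
  have h4 : (9 / 4 : ℝ) ^ r = 2 ^ r * (9 / 8) ^ r := by rw [← mul_pow]; norm_num
  have h5 : (1 : ℝ) ≤ 2 ^ r := one_le_pow₀ (by norm_num)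
  have h6 := le_abs_self (u0 + 150 * Γ)
  have h7 := le_abs_self A
  have h8 := abs_nonneg A
  nlinarith [mul_le_mul_of_nonneg_left (show u0 + 150 * Γ + |A| ≤ (9 / 8) ^ r by linarith)
    (show (0 : ℝ) ≤ 2 ^ r by linarith)]

/-- Copy the arithmetic of `exists_chain`: `ρ = exp e / 50`, `N = ⌊ρ ^ 2⌋₊`, `nJ = (N - L - g) / g`,
`g ≥ 1` with `20 * G ≤ a ^ g`; `0 ≤ u` (`cost` at the empty set), so `e ≥ A` is large too;
`θ⁻¹ ≠ 1` by `nru`. -/
theorem Dat.exists_ok (D : Dat ι) : ∃ (Γ : ℝ) (y : ι → ℂ) (z : ℂ) (w : ι → ℂ) (L : ℕ) (ε W : ℝ)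
    (g N nJ : ℕ) (ρ : ℝ), 0 < N ∧ D.Ok Γ y z w L ε W g N nJ ρ := by
  obtain ⟨Γ, hG, hA⟩ := D.exists_good
  obtain ⟨g, hg⟩ := pow_unbounded_of_one_lt (20 * D.G) D.a1
  have hg0 : 0 < g := by
    rcases Nat.eq_zero_or_pos g with rfl | h
    · rw [pow_zero] at hg
      linarith [D.one_le_G]
    · exact h
  have hg1 : (1 : ℝ) ≤ g := by exact_mod_cast hg0
  have hθ : 0 < ‖D.θ⁻¹ - 1‖ := by
    refine norm_pos_iff.2 (sub_ne_zero.2 fun h => D.nru 1 one_pos ?_)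
    rw [pow_one, inv_eq_one.1 h]
  set C : ℝ := 32 * (Real.log (2 * (8 * D.G) ^ Fintype.card ι) + 11) with hC
  have hE := exp_pos (-(2 * Γ))
  obtain ⟨e, l, u, ⟨y, z, w, L, hst, h1, -, h3, h4, -⟩, h6⟩ :=
    hA (max (max (5000 * (9 + 2 * g)) (100 / ‖D.θ⁻¹ - 1‖)) (C * (5000 * g) / exp (-(2 * Γ)) ^ 2))
  simp only [max_le_iff] at h6
  obtain ⟨⟨a1, a2⟩, a3⟩ := h6
  have hu : 0 ≤ u := by
    have := hst.cost ∅ (by simp)
    rw [prod_empty, exp_le_one_iff] at this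
    linarith
  have hx : e + 1 ≤ exp e := add_one_le_exp e
  have hx' : e - u + 1 ≤ exp (e - u) := add_one_le_exp _
  have hL : (L : ℝ) ≤ 8 * exp e := by
    have h7 : exp l ≤ exp e * exp 1 * exp 1 := by
      rw [← exp_add, ← exp_add]
      exact exp_le_exp.2 (by linarith)
    have h8 := exp_one_lt_d9
    have h9 : exp 1 * exp 1 ≤ 8 := by nlinarith [exp_pos 1]
    have h10 : 0 ≤ Γ * e := mul_nonneg (by linarith [D.one_le_G]) (by linarith)
    nlinarith [exp_pos e]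
  set x := exp e with hxd
  have hx1 : 5000 * (9 + 2 * (g : ℝ)) ≤ x := by linarith
  have hN1 : (x / 50) ^ 2 < ⌊(x / 50) ^ 2⌋₊ + 1 := Nat.lt_floor_add_one _
  have hN2 : (⌊(x / 50) ^ 2⌋₊ : ℝ) ≤ (x / 50) ^ 2 := Nat.floor_le (by positivity)
  set N := ⌊(x / 50) ^ 2⌋₊ with hNd
  have hN3 : x ^ 2 / 5000 + L + 2 * g ≤ N := by nlinarith
  have hN4 : L + g ≤ N := by
    have : (L : ℝ) + g ≤ N := by nlinarith [sq_nonneg x]
    exact_mod_cast this
  have hJ1 : g * ((N - L - g) / g) ≤ N - L - g := Nat.mul_div_le _ _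
  have hJ2 : N - L - g < g * ((N - L - g) / g) + g := Nat.lt_mul_div_succ _ hg0
  set nJ := (N - L - g) / g with hJd
  have hJ3 : x ^ 2 / 5000 ≤ g * nJ := by
    have : N < L + g + (g * nJ + g) := by omega
    have h : (N : ℝ) < L + g + (g * nJ + g) := by exact_mod_cast this
    linarith
  refine ⟨Γ, y, z, w, L, exp (-e), exp (-u), g, N, nJ, x / 50, by omega, hst, hG, exp_pos _,
    by linarith, ?_, ?_, hN2, hg.le, by omega, ?_⟩
  · rw [div_le_iff₀ hθ] at a2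
    nlinarith
  · rw [exp_neg, ← hxd, ← mul_div_assoc, inv_mul_cancel₀ (by linarith)]
  · rw [div_le_iff₀ (by positivity)] at a3
    have e1 : exp (e - u) = x * exp (-u) := by rw [hxd, ← exp_add, sub_eq_add_neg]
    have e2 : e - u ≤ (x * exp (-u)) ^ 2 := by rw [← e1]; nlinarith
    have e3 : C * (5000 * g) ≤ x ^ 2 * (exp (-u) * exp (-(2 * Γ))) ^ 2 := by
      refine a3.trans ((mul_le_mul_of_nonneg_right e2 (by positivity)).trans (le_of_eq ?_))
      ring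
    have e4 : x ^ 2 * (exp (-u) * exp (-(2 * Γ))) ^ 2
        ≤ (5000 * (g * nJ)) * (exp (-u) * exp (-(2 * Γ))) ^ 2 :=
      mul_le_mul_of_nonneg_right (by linarith) (by positivity)
    refine le_of_mul_le_mul_right ((e3.trans e4).trans (le_of_eq ?_))
      (show (0 : ℝ) < 5000 * g by positivity)
    ring

end Pool.Agent.Lib.MP_e840b2_an.OP
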