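import Pool.Agent.Lib.MP_e840b2_an.OP.Coord

/-! The digit sums in all coordinates. -/

set_option autoImplicit false
open Finset Real
open scoped ComplexConjugate

namespace Pool.Agent.Lib.MP_e840b2_an.OP

variable {ι : Type} [Fintype ι] {D : Dat ι}

theorem Dat.XX_sym (D : Dat ι) {n : ℕ} (ω : Fin n → Bool) (m : ℕ) : D.Sym (D.XX ω m) := by
  intro i
  simp only [Dat.XX, D.cj, map_sum, map_mul, map_zpow₀, Complex.conj_ofReal]

theorem Dat.norm_WW_le (D : Dat ι) {n : ℕ} (ω : Fin n → Bool) (m : ℕ) (r : ι) :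
    ‖D.WW ω m r‖ ≤ D.G := by
  have h := D.geom (range m) (fun i => (m : ℤ) - 1 - i)
    (fun a _ b _ hab => by simp only at hab; omega)
    (fun i hi => by have := mem_range.mp hi; omega)
  refine (norm_sum_le _ _).trans (le_trans (sum_le_sum fun i hi => ?_) h)
  have := mem_range.mp hi
  rcases eg_cases ω i with h | h <;> rw [h]
  · rw [Complex.ofReal_zero, zero_mul, norm_zero]
    exact (zpow_pos D.a_pos _).le
  · rw [Complex.ofReal_one, one_mul]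
    exact D.norm_zpow_le r (by omega)

theorem Dat.WW_sym (D : Dat ι) {n : ℕ} (ω : Fin n → Bool) (m : ℕ) : D.Sym (D.WW ω m) := by
  intro i
  simp only [Dat.WW, D.cj, map_sum, map_mul, map_zpow₀, Complex.conj_ofReal]

theorem Dat.norm_ZZ_le (D : Dat ι) {n : ℕ} (ω : Fin n → Bool) (m : ℕ) : ‖D.ZZ ω m‖ ≤ m := by
  refine (norm_sum_le _ _).trans ?_
  calc ∑ i ∈ range m, ‖(eg ω i : ℂ) * D.θ ^ (-((i : ℤ) + 1))‖ ≤ ∑ _i ∈ range m, (1 : ℝ) := by
        apply sum_le_sum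
        intro i _
        rw [norm_mul, D.norm_th, mul_one]
        rcases eg_cases ω i with h | h <;> rw [h] <;> simp
    _ = m := by simp

/-- Copy `Dual.pair`. -/
theorem Dat.Dual.pair {y w : ι → ℂ} {z : ℂ} (h : D.Dual y z w) {n : ℕ} (ω : Fin n → Bool) (m : ℕ)
    (j : ℤ) : ∃ a : ℤ, D.E (fun r => y r * D.XX ω m r) j +
      2 * (D.θ ^ (j + m) * z * D.ZZ ω m).re + D.E (fun r => w r * D.WW ω m r) (-j) = a := by
  choose f hf using h
  refine ⟨∑ i ∈ range m, if eg ω i = 0 then 0 else f (j + m - 1 - i), ?_⟩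
  have e : ∀ (v : ι → ℂ) (c : ℕ → ℤ) (k : ℤ),
      D.E (fun r => v r * ∑ i ∈ range m, (eg ω i : ℂ) * D.σ r ^ c i) k =
        ∑ i ∈ range m, eg ω i * D.E v (k + c i) := by
    intro v c k
    unfold Dat.E
    simp only [← Complex.re_ofReal_mul, ← Complex.re_sum, mul_sum]
    rw [sum_comm]
    congr 1
    refine sum_congr rfl fun i _ => sum_congr rfl fun r _ => ?_
    rw [zpow_add₀ (D.ne r)]
    ring
  unfold Dat.XX Dat.ZZ Dat.WW
  rw [e, e, mul_sum, Complex.re_sum, mul_sum, ← sum_add_distrib, ← sum_add_distrib]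
  push_cast
  apply sum_congr rfl
  intro i _
  rcases eg_cases ω i with h | h <;> rw [h]
  · simp
  · rw [if_neg one_ne_zero, ← hf]
    have e3 : D.θ ^ (j + m - 1 - i) = D.θ ^ (j + m) * D.θ ^ (-((i : ℤ) + 1)) := by
      rw [← zpow_add₀ D.th_ne]; congr 1; ring
    have e4 : D.θ ^ (j + m) * z * (((1 : ℝ) : ℂ) * D.θ ^ (-((i : ℤ) + 1))) =
        D.θ ^ (j + m) * D.θ ^ (-((i : ℤ) + 1)) * z := by push_cast; ring
    rw [e3, e4, one_mul, one_mul, show j + ((m : ℤ) - 1 - i) = j + m - 1 - i by ring,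
      show -j + -((m : ℤ) - 1 - i) = -(j + m - 1 - i) by ring]

theorem Dat.XX_add (D : Dat ι) {n : ℕ} (ω : Fin n → Bool) (m : ℕ) {N : ℕ} (b : Fin N → Bool)
    (hb : ∀ t : Fin N, eg ω (m + t) = dg (b t)) : D.XX ω (m + N) = D.nx (D.XX ω m) b := by
  funext r
  unfold Dat.XX Dat.nx
  simp only [← hb]
  rw [sum_range_add, mul_sum,
    Fin.sum_univ_eq_sum_range (fun t => (eg ω (m + t) : ℂ) * D.σ r ^ ((N : ℤ) - 1 - t))]
  congr 1
  · apply sum_congr rfl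
    intro i _
    rw [show ((m + N : ℕ) : ℤ) - 1 - i = N + ((m : ℤ) - 1 - i) by push_cast; ring,
      zpow_add₀ (D.ne r), zpow_natCast]
    ring
  · apply sum_congr rfl
    intro i _
    congr 2
    push_cast
    ring

theorem Dat.ZZ_add (D : Dat ι) {n : ℕ} (ω : Fin n → Bool) (m : ℕ) {N : ℕ} (b : Fin N → Bool)
    (hb : ∀ t : Fin N, eg ω (m + t) = dg (b t)) : D.ZZ ω (m + N) = D.nz m (D.ZZ ω m) b := by
  unfold Dat.ZZ Dat.nz
  simp only [← hb]
  rw [sum_range_add,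
    Fin.sum_univ_eq_sum_range (fun t => (eg ω (m + t) : ℂ) * D.θ ^ (-((m : ℤ) + t + 1)))]
  push_cast
  rfl

theorem vand_gen {κ : Type} [Fintype κ] (f w : κ → ℂ) (hf : Function.Injective f)
    (h : ∀ j : ℕ, j < Fintype.card κ → ∑ k, w k * f k ^ j = 0) : w = 0 := by
  have e := (Fintype.equivFin κ).symm
  have h1 : (fun i => w (e i)) = 0 := by
    refine Matrix.eq_zero_of_forall_pow_sum_mul_pow_eq_zero (f := fun i => f (e i))
      (hf.comp e.injective) fun j => ?_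
    rw [← h j j.2]
    exact Equiv.sum_comp e fun k => w k * f k ^ (j : ℕ)
  funext k
  have := congrFun h1 (e.symm k)
  simpa using this

theorem vand_E (D : Dat ι) {y : ι → ℂ} (hy : D.Sym y) (k : ℤ) :
    ((D.E y k : ℝ) : ℂ) = ∑ i, D.σ i ^ k * y i := by
  have h := ((D.sym_zpow k).mul hy).im_sum
  refine Complex.ext ?_ ?_
  · rw [Complex.ofReal_re]
    rfl
  · rw [Complex.ofReal_im]
    exact h.symm

theorem vand_inj (D : Dat ι) : Function.Injective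
    (Sum.elim (Sum.elim D.σ fun i => (D.σ i)⁻¹) fun b : Bool => if b then D.θ else D.θ⁻¹) := by
  have h1 : ∀ i, 1 < ‖D.σ i‖ := fun i => D.a1.trans_le (D.big i)
  have h2 : ∀ i, ‖(D.σ i)⁻¹‖ < 1 := fun i => by
    rw [norm_inv]
    exact inv_lt_one_of_one_lt₀ (h1 i)
  have h3 : ∀ b : Bool, ‖(if b then D.θ else D.θ⁻¹)‖ = 1 := fun b => by
    cases b <;> simp [D.th]
  have h4 : D.θ ≠ D.θ⁻¹ := fun h => by
    refine D.nru 2 (by norm_num) ?_
    rw [pow_two]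
    nth_rewrite 2 [h]
    exact mul_inv_cancel₀ D.th_ne
  rintro ((i | i) | b) ((j | j) | b') h <;> simp only [Sum.elim_inl, Sum.elim_inr] at h
  · rw [D.inj h]
  · have := h1 i
    rw [h] at this
    exact absurd (h2 j) this.not_gt
  · have := h1 i
    rw [h, h3] at this
    exact absurd this (lt_irrefl _)
  · have := h2 i
    rw [h] at this
    exact absurd (h1 j) this.not_gt
  · rw [D.inj (inv_injective h)]
  · have := h2 i
    rw [h, h3] at this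
    exact absurd this (lt_irrefl _)
  · have := h1 j
    rw [← h, h3] at this
    exact absurd this (lt_irrefl _)
  · have := h2 j
    rw [← h, h3] at this
    exact absurd this (lt_irrefl _)
  · cases b <;> cases b'
    · rfl
    · exact absurd h.symm h4
    · exact absurd h h4
    · rfl

/-- Vandermonde (`Matrix.eq_zero_of_forall_pow_sum_mul_pow_eq_zero`) for the distinct nodes `σ r`,
`θ`, `θ⁻¹ = conj θ`, `(σ r)⁻¹`; `θ ≠ θ⁻¹` by `nru 2`; the sums are real by `Sym.im_sum`. -/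
theorem Dat.vand (D : Dat ι) {x v : ι → ℂ} {c : ℂ} (hx : D.Sym x) (hv : D.Sym v)
    (h : ∀ j : ℕ, j < 2 * Fintype.card ι + 2 →
      D.E x j + 2 * (D.θ ^ (j : ℤ) * c).re + D.E v (-(j : ℤ)) = 0) : x = 0 := by
  have key := vand_gen _ (Sum.elim (Sum.elim x v) fun b : Bool => if b then c else conj c)
    (vand_inj D) fun j hj => by
      have hj' : j < 2 * Fintype.card ι + 2 := by
        rw [Fintype.card_sum, Fintype.card_sum, Fintype.card_bool] at hj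
        omega
      have h0 : (((D.E x j + 2 * (D.θ ^ (j : ℤ) * c).re + D.E v (-(j : ℤ)) : ℝ)) : ℂ) = 0 := by
        rw [h j hj', Complex.ofReal_zero]
      rw [Complex.ofReal_add, Complex.ofReal_add, vand_E D hx, vand_E D hv, ← Complex.add_conj,
        map_mul, zpow_natCast, map_pow, ← Complex.inv_eq_conj D.th] at h0
      rw [Fintype.sum_sum_type, Fintype.sum_sum_type, Fintype.sum_bool]
      simp only [Sum.elim_inl, Sum.elim_inr, if_true, Bool.false_eq_true, if_false]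
      have e1 : ∑ i, x i * D.σ i ^ j = ∑ i, D.σ i ^ (j : ℤ) * x i :=
        sum_congr rfl fun i _ => by rw [zpow_natCast, mul_comm]
      have e2 : ∑ i, v i * (D.σ i)⁻¹ ^ j = ∑ i, D.σ i ^ (-(j : ℤ)) * v i :=
        sum_congr rfl fun i _ => by rw [zpow_neg, zpow_natCast, inv_pow, mul_comm]
      rw [e1, e2]
      linear_combination h0
  funext i
  exact congrFun key (Sum.inl (Sum.inl i))

/-- The traces of the digit sum. -/
noncomputable def Dat.H_XX_le_tr (D : Dat ι) {n : ℕ} (ω : Fin n → Bool) (j : ℕ) : ℝ :=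
  D.E (D.XX ω n) j + 2 * (D.θ ^ (j : ℤ) * (D.θ ^ (n : ℤ) * D.ZZ ω n)).re +
    D.E (D.WW ω n) (-(j : ℤ))

theorem Dat.H_XX_le_int (D : Dat ι) {n : ℕ} (ω : Fin n → Bool) (j : ℕ) :
    ∃ a : ℤ, D.H_XX_le_tr ω j = a := by
  obtain ⟨a, ha⟩ := D.dual_one.pair ω n j
  refine ⟨a, ?_⟩
  rw [← ha]
  unfold Dat.H_XX_le_tr
  simp only [Pi.one_apply, one_mul, mul_one]
  rw [zpow_add₀ D.th_ne, mul_assoc (D.θ ^ (j : ℤ))]

theorem Dat.H_XX_le_near (D : Dat ι) {n : ℕ} (ω : Fin n → Bool) (j : ℕ) :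
    |D.H_XX_le_tr ω j - ∑ r, D.du (fun r => D.σ r ^ (j : ℤ)) r * (⌊D.co (D.XX ω n) r⌋ : ℤ)| ≤
      ∑ r, 2 * ‖D.σ r ^ (j : ℤ)‖ + 2 * n + Fintype.card ι * D.G := by
  have e : D.H_XX_le_tr ω j -
      ∑ r, D.du (fun r => D.σ r ^ (j : ℤ)) r * (⌊D.co (D.XX ω n) r⌋ : ℤ) =
      ∑ r, D.du (fun r => D.σ r ^ (j : ℤ)) r * (D.co (D.XX ω n) r - (⌊D.co (D.XX ω n) r⌋ : ℤ)) +
        2 * (D.θ ^ (j : ℤ) * (D.θ ^ (n : ℤ) * D.ZZ ω n)).re + D.E (D.WW ω n) (-(j : ℤ)) := by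
    unfold Dat.H_XX_le_tr
    have h1 : D.E (D.XX ω n) j = ∑ r, D.du (fun r => D.σ r ^ (j : ℤ)) r * D.co (D.XX ω n) r :=
      (D.sym_zpow j).pair (D.XX_sym ω n)
    simp only [mul_sub, sum_sub_distrib]
    rw [h1]
    ring
  rw [e]
  have a1 : |∑ r, D.du (fun r => D.σ r ^ (j : ℤ)) r *
      (D.co (D.XX ω n) r - (⌊D.co (D.XX ω n) r⌋ : ℤ))| ≤ ∑ r, 2 * ‖D.σ r ^ (j : ℤ)‖ := by
    refine (abs_sum_le_sum_abs _ _).trans (sum_le_sum fun r _ => ?_)
    have b3 := Int.floor_le (D.co (D.XX ω n) r)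
    have b4 := Int.lt_floor_add_one (D.co (D.XX ω n) r)
    have b5 : |D.co (D.XX ω n) r - (⌊D.co (D.XX ω n) r⌋ : ℤ)| ≤ 1 := by
      rw [abs_le]
      constructor <;> linarith
    rw [abs_mul]
    exact (mul_le_of_le_one_right (abs_nonneg _) b5).trans
      (D.abs_du_le (fun r => D.σ r ^ (j : ℤ)) r)
  have a2 := D.abs_re_le j (D.θ ^ (n : ℤ) * D.ZZ ω n)
  rw [norm_mul, D.norm_th, one_mul] at a2
  have a3 := D.norm_ZZ_le ω n
  have a4 := D.E_le (D.WW ω n) (k := -(j : ℤ)) (by omega)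
  have a5 : D.a ^ (-(j : ℤ)) ≤ 1 := by
    simpa using D.zpow_le (j := -(j : ℤ)) (k := 0) (by omega)
  have a6 : ∑ i, ‖D.WW ω n i‖ ≤ Fintype.card ι * D.G := by
    refine (sum_le_sum fun i _ => D.norm_WW_le ω n i).trans (le_of_eq ?_)
    rw [sum_const, card_univ, nsmul_eq_mul]
  have a7 := mul_le_of_le_one_left (sum_nonneg fun i (_ : i ∈ univ) => norm_nonneg (D.WW ω n i)) a5
  refine (abs_add_three _ _ _).trans ?_
  linarith

theorem Dat.H_XX_le_sub (D : Dat ι) (x x' : ι → ℂ) (k : ℤ) :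
    D.E (fun r => x r - x' r) k = D.E x k - D.E x' k := by
  unfold Dat.E
  rw [← Complex.sub_re, ← sum_sub_distrib]
  simp only [mul_sub]

theorem Dat.H_XX_le_sym {x x' : ι → ℂ} (h : D.Sym x) (h' : D.Sym x') :
    D.Sym fun r => x r - x' r := by
  intro i
  simp only [h i, h' i, map_sub]

/-- Copy `H_XX_le`: the traces are `dual_one.pair` at `j < d = 2 * card ι + 2`; subtract
`⌊∑ r, du (σ ^ j) r * ⌊co (XX ω n) r⌋⌋` (`Sym.pair`); `vand` for the difference of two patterns. -/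
theorem Dat.H_XX_le (D : Dat ι) : ∃ d c : ℕ, ∀ (n : ℕ) (ρ : ℝ),
    H (fun ω : Fin n → Bool => D.XX ω n) ≤
      H (fun ω : Fin n → Bool => D.cst ρ (D.XX ω n) (D.ZZ ω n)) +
        d * Real.log (4 * n + 2 * c + 1) := by
  classical
  set d := 2 * Fintype.card ι + 2 with hd
  obtain ⟨c, hc⟩ := exists_nat_ge
    (∑ j : Fin d, ∑ r, 2 * ‖D.σ r ^ ((j : ℕ) : ℤ)‖ + Fintype.card ι * D.G + 1)
  refine ⟨d, c, fun n ρ => ?_⟩
  have h := H_pair_le_log (fun ω : Fin n → Bool => D.cst ρ (D.XX ω n) (D.ZZ ω n))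
    (fun ω (j : Fin d) => ⌊D.H_XX_le_tr ω j⌋ -
      ⌊∑ r, D.du (fun r => D.σ r ^ ((j : ℕ) : ℤ)) r * (⌊D.co (D.XX ω n) r⌋ : ℤ)⌋)
    (Fintype.piFinset fun _ => Icc (-(2 * (n : ℤ) + c)) (2 * n + c)) (fun ω => by
      rw [Fintype.mem_piFinset]
      intro j
      have h2 := D.H_XX_le_near ω j
      generalize ∑ r, D.du (fun r => D.σ r ^ ((j : ℕ) : ℤ)) r * (⌊D.co (D.XX ω n) r⌋ : ℤ) = A at h2 ⊢
      have h1 := abs_floor_sub A (D.H_XX_le_tr ω j - A)
      rw [add_sub_cancel] at h1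
      have h4 : ∑ r, 2 * ‖D.σ r ^ ((j : ℕ) : ℤ)‖ ≤ ∑ j : Fin d, ∑ r, 2 * ‖D.σ r ^ ((j : ℕ) : ℤ)‖ :=
        single_le_sum (f := fun j : Fin d => ∑ r, 2 * ‖D.σ r ^ ((j : ℕ) : ℤ)‖)
          (fun j _ => sum_nonneg fun r _ => by positivity) (mem_univ j)
      rw [mem_Icc, ← abs_le]
      have h3 : |((⌊D.H_XX_le_tr ω j⌋ - ⌊A⌋ : ℤ) : ℝ)| ≤ 2 * n + c := by linarith
      exact_mod_cast h3)
  rw [Fintype.card_piFinset, prod_const, card_univ, Fintype.card_fin, Int.card_Icc,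
    show (2 * (n : ℤ) + c + 1 - -(2 * (n : ℤ) + c)).toNat = 4 * n + 2 * c + 1 by omega] at h
  push_cast at h
  rw [Real.log_pow] at h
  refine le_trans (H_mono _ _ fun ω ω' hω => ?_) h
  have h1 : ∀ r, ⌊D.co (D.XX ω n) r⌋ = ⌊D.co (D.XX ω' n) r⌋ :=
    congrFun (Prod.mk.inj (Prod.mk.inj hω).1).1
  have h2 : ∀ j : ℕ, j < d → D.H_XX_le_tr ω j = D.H_XX_le_tr ω' j := by
    intro j hj
    have h3 := congrFun (Prod.mk.inj hω).2 ⟨j, hj⟩
    simp only [h1, sub_left_inj] at h3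
    obtain ⟨a, e⟩ := D.H_XX_le_int ω j
    obtain ⟨a', e'⟩ := D.H_XX_le_int ω' j
    rw [e, e', Int.floor_intCast, Int.floor_intCast] at h3
    rw [e, e', h3]
  have h3 := D.vand (c := D.θ ^ (n : ℤ) * D.ZZ ω n - D.θ ^ (n : ℤ) * D.ZZ ω' n)
    (Dat.H_XX_le_sym (D.XX_sym ω n) (D.XX_sym ω' n))
    (Dat.H_XX_le_sym (D.WW_sym ω n) (D.WW_sym ω' n)) fun j hj => by
      have h4 := h2 j hj
      unfold Dat.H_XX_le_tr at h4
      rw [D.H_XX_le_sub, D.H_XX_le_sub, mul_sub, Complex.sub_re]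
      linarith
  funext r
  exact sub_eq_zero.1 (congrFun h3 r)

end Pool.Agent.Lib.MP_e840b2_an.OP
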