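import Pool.Agent.Lib.MP_e840b2_an.OP.Blk
import Pool.Agent.Lib.MP_e840b2_an.OP.Walk
import Pool.Agent.Lib.MP_e840b2_an.OP.Dbl

/-! The entropy of the digit sums. -/

set_option autoImplicit false
open Finset Real
open scoped ComplexConjugate

namespace Pool.Agent.Lib.MP_e840b2_an.OP

variable {ι : Type} [Fintype ι] {D : Dat ι}

/-- Copy `chain_bound`. -/
theorem Dat.Ok.chain {Γ ε W ρ : ℝ} {y w : ι → ℂ} {z : ℂ} {L g N nJ : ℕ}
    (h : D.Ok Γ y z w L ε W g N nJ ρ) (K : ℕ) :
    H (fun ω : Fin (K * N) → Bool => D.cst ρ (D.XX ω (K * N)) (D.ZZ ω (K * N))) ≤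
      K * (N * Real.log D.M - 1) := by
  have hlt : ∀ k < K, ∀ t : Fin N, k * N + t < K * N := by
    intro k hk t
    have := t.2
    have : (k + 1) * N ≤ K * N := Nat.mul_le_mul_right N hk
    nlinarith
  apply H_chain (fun k (ω : Fin (K * N) → Bool) => D.cst ρ (D.XX ω (k * N)) (D.ZZ ω (k * N)))
    (fun k => D.kk y z L g N nJ ρ (W * exp (-(2 * Γ)) / 8) (k * N))
  · intro ω ω'
    have e : ∀ ω : Fin (K * N) → Bool, D.XX ω (0 * N) = 0 ∧ D.ZZ ω (0 * N) = 0 := fun ω =>
      ⟨funext fun r => by simp [Dat.XX], by simp [Dat.ZZ]⟩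
    rw [(e ω).1, (e ω).2, (e ω').1, (e ω').2]
  · intro k s
    exact h.kk_subP h.lam.1.le h.lam.2 _ s
  · intro k hk ω
    have hb := (h.block (k * N) (D.XX_sym ω (k * N)) (D.norm_WW_le ω (k * N))
      (h.st.dual.pair ω _)).1 (fun t => ω ⟨k * N + t, hlt k hk t⟩)
    have e : ∀ t : Fin N, eg ω (k * N + t) = dg (ω ⟨k * N + t, hlt k hk t⟩) := fun t => dif_pos _
    rw [add_mul, one_mul, D.XX_add ω _ _ e, D.ZZ_add ω _ _ e]
    exact hb
  · intro k hk
    let τ : Fin N → Fin (K * N) := fun t => ⟨k * N + t, hlt k hk t⟩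
    have hι : Function.Injective τ := by
      intro a b hab
      have := congrArg Fin.val hab
      simp only [τ] at this
      exact Fin.ext (by omega)
    have h1 := sum_extend τ hι (fun ω : Fin (K * N) → Bool =>
      -Real.log (D.kk y z L g N nJ ρ (W * exp (-(2 * Γ)) / 8) (k * N)
        (D.cst ρ (D.XX ω (k * N)) (D.ZZ ω (k * N)))
        (D.cst ρ (D.XX ω ((k + 1) * N)) (D.ZZ ω ((k + 1) * N)))))
    have h2 : ∀ ω : Fin (K * N) → Bool, ∑ b : Fin N → Bool,
        -Real.log (D.kk y z L g N nJ ρ (W * exp (-(2 * Γ)) / 8) (k * N)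
        (D.cst ρ (D.XX (Function.extend τ b ω) (k * N)) (D.ZZ (Function.extend τ b ω) (k * N)))
        (D.cst ρ (D.XX (Function.extend τ b ω) ((k + 1) * N))
          (D.ZZ (Function.extend τ b ω) ((k + 1) * N)))) ≤ 2 ^ N * (N * Real.log D.M - 1) := by
      intro ω
      have hb := (h.block (k * N) (D.XX_sym ω (k * N)) (D.norm_WW_le ω (k * N))
        (h.st.dual.pair ω _)).2
      refine le_trans (le_of_eq (sum_congr rfl fun b _ => ?_)) hb
      have e1 : ∀ t : Fin N, eg (Function.extend τ b ω) (k * N + t) = dg (b t) := by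
        intro t
        unfold eg
        rw [dif_pos (hlt k hk t)]
        exact congrArg dg (hι.extend_apply b ω t)
      have e2 : ∀ i ∈ range (k * N), eg (Function.extend τ b ω) i = eg ω i := by
        intro i hi
        unfold eg
        split_ifs with h'
        · rw [Function.extend_apply']
          rintro ⟨t, ht⟩
          have := congrArg Fin.val ht
          simp only [τ] at this
          have := mem_range.mp hi
          omega
        · rfl
      have e3 : D.XX (Function.extend τ b ω) (k * N) = D.XX ω (k * N) :=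
        funext fun r => sum_congr rfl fun i hi => by rw [e2 i hi]
      have e4 : D.ZZ (Function.extend τ b ω) (k * N) = D.ZZ ω (k * N) :=
        sum_congr rfl fun i hi => by rw [e2 i hi]
      rw [add_mul, one_mul, D.XX_add _ _ _ e1, D.ZZ_add _ _ _ e1, e3, e4]
    have h3 := sum_le_sum (fun ω (_ : ω ∈ (univ : Finset (Fin (K * N) → Bool))) => h2 ω)
    rw [h1, sum_const, card_univ, nsmul_eq_mul, Fintype.card_fun (α := Fin N), Fintype.card_bool,
      Fintype.card_fin] at h3
    push_cast at h3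
    have hc : (0 : ℝ) < Fintype.card (Fin (K * N) → Bool) := by exact_mod_cast Fintype.card_pos
    rw [div_le_iff₀ hc]
    have h2N : (0 : ℝ) < 2 ^ N := by positivity
    apply le_of_mul_le_mul_left _ h2N
    linarith

/-- Copy `H_val_le`. -/
theorem Dat.H_val_le (D : Dat ι) (r : ι) (n : ℕ) :
    H (sg (D.σ r)⁻¹ n) ≤ H (fun ω : Fin n → Bool => D.XX ω n) := by
  have key : ∀ ε : Fin n → Bool, sg (D.σ r)⁻¹ n ε =
      2 * D.σ r ^ (1 - (n : ℤ)) * D.XX ε n r - ∑ i : Fin n, (D.σ r)⁻¹ ^ (i : ℕ) := by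
    intro ε
    unfold Dat.XX sg
    rw [← Fin.sum_univ_eq_sum_range (fun i => (eg ε i : ℂ) * D.σ r ^ ((n : ℤ) - 1 - i)), mul_sum,
      ← sum_sub_distrib]
    apply sum_congr rfl
    intro i _
    have e1 : eg ε i = dg (ε i) := dif_pos i.2
    have e2 : (D.σ r)⁻¹ ^ (i : ℕ) = D.σ r ^ (1 - (n : ℤ)) * D.σ r ^ ((n : ℤ) - 1 - i) := by
      rw [← zpow_add₀ (D.ne r), inv_pow, ← zpow_natCast, ← zpow_neg]
      congr 1
      ring
    rw [e1, e2]
    unfold dg
    split_ifs <;> push_cast <;> ring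
  apply H_mono
  intro ω ω' h
  rw [key, key, h]

theorem cnt_equiv {Ω Ω' A : Type*} [Fintype Ω] [Fintype Ω'] (e : Ω ≃ Ω') (f : Ω' → A) (a : A) :
    cnt (fun ω => f (e ω)) a = cnt f a := by
  classical
  unfold cnt
  exact card_equiv e (by simp)

theorem H_equiv {Ω Ω' A : Type*} [Fintype Ω] [Fintype Ω'] (e : Ω ≃ Ω') (f : Ω' → A) :
    H (fun ω => f (e ω)) = H f := by
  unfold H
  rw [Fintype.card_congr e]
  congr 1
  refine Fintype.sum_equiv e _ _ fun ω => ?_
  rw [cnt_equiv]

theorem cnt_prod {Ω Ω' A B : Type*} [Fintype Ω] [Fintype Ω'] (f : Ω → A) (g : Ω' → B) (a : A)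
    (b : B) : cnt (fun p : Ω × Ω' => (f p.1, g p.2)) (a, b) = cnt f a * cnt g b := by
  classical
  unfold cnt
  rw [← card_product]
  congr 1
  ext p
  simp

theorem H_prod {Ω Ω' A B : Type*} [Fintype Ω] [Fintype Ω'] [Nonempty Ω] [Nonempty Ω'] (f : Ω → A)
    (g : Ω' → B) : H (fun p : Ω × Ω' => (f p.1, g p.2)) = H f + H g := by
  have h1 : (0 : ℝ) < Fintype.card Ω := by exact_mod_cast Fintype.card_pos
  have h2 : (0 : ℝ) < Fintype.card Ω' := by exact_mod_cast Fintype.card_pos
  have key : ∀ p : Ω × Ω', -Real.log ((cnt (fun p : Ω × Ω' => (f p.1, g p.2)) (f p.1, g p.2) : ℝ) /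
      Fintype.card (Ω × Ω')) = -Real.log ((cnt f (f p.1) : ℝ) / Fintype.card Ω) +
        -Real.log ((cnt g (g p.2) : ℝ) / Fintype.card Ω') := by
    intro p
    have h3 : (0 : ℝ) < cnt f (f p.1) := by exact_mod_cast cnt_pos f p.1
    have h4 : (0 : ℝ) < cnt g (g p.2) := by exact_mod_cast cnt_pos g p.2
    rw [cnt_prod, Fintype.card_prod, Nat.cast_mul, Nat.cast_mul, mul_div_mul_comm,
      Real.log_mul (by positivity) (by positivity)]
    ring
  unfold H
  rw [sum_congr rfl fun p _ => key p, sum_add_distrib, Fintype.sum_prod_type,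
    Fintype.sum_prod_type_right, Fintype.card_prod]
  simp only [sum_const, card_univ, nsmul_eq_mul, ← mul_sum]
  push_cast
  field_simp

/-- Copy `cnt_equiv` up to `subadd` from the hand-in `GarsiaGap`. -/
theorem subadd (l : ℂ) : Subadditive fun n => H (sg l n) := by
  intro m n
  have h := H_equiv (Fin.appendEquiv (α := Bool) m n) (sg l (m + n))
  simp only
  rw [← h, ← H_prod]
  apply H_mono
  intro p q hpq
  have key : ∀ p : (Fin m → Bool) × (Fin n → Bool),
      sg l (m + n) (Fin.appendEquiv m n p) = sg l m p.1 + l ^ m * sg l n p.2 := by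
    intro p
    unfold sg
    rw [Fin.sum_univ_add, mul_sum]
    congr 1
    · refine sum_congr rfl fun i _ => ?_
      simp
    · refine sum_congr rfl fun i _ => ?_
      simp [pow_add]
  rw [key, key, (Prod.mk.inj hpq).1, (Prod.mk.inj hpq).2]

theorem H_sg_nonneg (l : ℂ) (n : ℕ) : 0 ≤ H (sg l n) := by
  have := H_mono (fun _ : Fin n → Bool => ()) (sg l n) fun _ _ _ => rfl
  rwa [H_const _ fun _ _ => rfl] at this

/-- `H_pair_le_log` with a constant first map, or directly from `cnt_pos`. -/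
theorem H_sg_le (l : ℂ) (n : ℕ) : H (sg l n) ≤ n * Real.log 2 := by
  have h := H_pair_le_log (fun _ : Fin n → Bool => ()) (fun ω => ω) univ fun _ => mem_univ _
  rw [H_const (fun _ : Fin n → Bool => ()) fun _ _ => rfl, card_univ, Fintype.card_fun,
    Fintype.card_bool, Fintype.card_fin, zero_add] at h
  push_cast at h
  rw [Real.log_pow] at h
  exact (H_mono _ _ fun ω ω' e => by rw [(Prod.mk.inj e).2]).trans h

open Filter Topology in
/-- Copy `exists_lim` from the hand-in `GarsiaGap`. -/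
theorem Dat.exists_lim (D : Dat ι) (r : ι) :
    ∃ h < Real.log D.M, Tendsto (fun n : ℕ => H (sg (D.σ r)⁻¹ n) / n) atTop (𝓝 h) := by
  have h := (subadd (D.σ r)⁻¹).tendsto_lim ⟨0, by
    rintro _ ⟨n, rfl⟩
    exact div_nonneg (H_sg_nonneg _ _) (Nat.cast_nonneg _)⟩
  refine ⟨_, ?_, h⟩
  obtain ⟨Γ, y, z, w, L, ε, W, g, N, nJ, ρ, hN, hK⟩ := D.exists_ok
  obtain ⟨d, c, hd⟩ := D.H_XX_le
  have hN' : (0 : ℝ) < N := by exact_mod_cast hN
  have t0 : Tendsto (fun K : ℕ => K * N) atTop atTop := tendsto_id.atTop_mul_const' hN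
  have t1 : Tendsto (fun n : ℕ => (4 * n + (2 * c + 1) : ℝ)) atTop atTop :=
    tendsto_atTop_add_const_right _ _ (tendsto_natCast_atTop_atTop.const_mul_atTop four_pos)
  have t2 := ((Real.tendsto_pow_log_div_mul_add_atTop (1 / 4) (-(2 * c + 1) / 4) 1
    (by norm_num)).comp t1).comp t0
  have t3 := (t2.const_mul (d : ℝ)).const_add (Real.log D.M - 1 / N)
  have := le_of_tendsto_of_tendsto (h.comp t0) t3 (by
    filter_upwards [eventually_gt_atTop 0] with K hK0
    have hK' : (0 : ℝ) < K := by exact_mod_cast hK0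
    have h1 := ((D.H_val_le r (K * N)).trans (hd (K * N) ρ)).trans
      (add_le_add_left (hK.chain K) _)
    simp only [Function.comp]
    rw [div_le_iff₀ (by push_cast; positivity)]
    refine h1.trans (le_of_eq ?_)
    push_cast
    have e : 1 / 4 * (4 * ((K : ℝ) * N) + (2 * c + 1)) + -(2 * c + 1) / 4 = K * N := by ring
    rw [e, add_assoc (4 * ((K : ℝ) * N))]
    field_simp)
  have h2 : (0 : ℝ) < 1 / N := by positivity
  linarith

end Pool.Agent.Lib.MP_e840b2_an.OP
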