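import Pool.Agent.Lib.MP_e840b2_an.OP.Basic

/-! Real coordinates on the expanding space. -/

set_option autoImplicit false
open Finset Real
open scoped ComplexConjugate

namespace Pool.Agent.Lib.MP_e840b2_an.OP

variable {ι : Type} [Fintype ι] {D : Dat ι}

variable {X y : ι → ℂ}

theorem Dat.bar_of_real (D : Dat ι) {i : ι} (h : (D.σ i).im = 0) : D.bar i = i := by
  apply D.inj
  rw [D.cj, Complex.conj_eq_iff_im.2 h]

theorem Dat.im_bar (D : Dat ι) (i : ι) : (D.σ (D.bar i)).im = -(D.σ i).im := by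
  rw [D.cj, Complex.conj_im]

theorem Dat.abs_co_le (D : Dat ι) (X : ι → ℂ) (i : ι) : |D.co X i| ≤ ‖X i‖ := by
  unfold Dat.co
  split_ifs
  · exact Complex.abs_re_le_norm _
  · exact Complex.abs_im_le_norm _

theorem Dat.abs_du_le (D : Dat ι) (y : ι → ℂ) (i : ι) : |D.du y i| ≤ 2 * ‖y i‖ := by
  have h1 := Complex.abs_re_le_norm (y i)
  have h2 := Complex.abs_im_le_norm (y i)
  have h3 := norm_nonneg (y i)
  unfold Dat.du
  split_ifs
  · linarith
  · rw [abs_mul, abs_two]
    linarith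
  · rw [abs_mul, abs_neg, abs_two]
    linarith

theorem Dat.co_sub (D : Dat ι) (X X' : ι → ℂ) (i : ι) :
    D.co (fun r => X r - X' r) i = D.co X i - D.co X' i := by
  unfold Dat.co
  split_ifs
  · exact Complex.sub_re _ _
  · exact Complex.sub_im _ _

theorem Dat.Sym.norm_le_co (h : D.Sym X) (i : ι) :
    ‖X i‖ ≤ |D.co X i| + |D.co X (D.bar i)| := by
  have h1 := Complex.norm_le_abs_re_add_abs_im (X i)
  have h2 := abs_nonneg (X i).re
  unfold Dat.co
  rw [D.im_bar, h i, Complex.conj_re, Complex.conj_im]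
  rcases lt_trichotomy (D.σ i).im 0 with h0 | h0 | h0
  · rw [if_neg (by linarith), if_pos (by linarith)]
    linarith
  · have h3 := h i
    rw [D.bar_of_real h0] at h3
    rw [Complex.conj_eq_iff_im.1 h3.symm, abs_zero] at h1
    rw [if_pos (by linarith), if_pos (by linarith)]
    linarith
  · rw [if_pos (by linarith), if_neg (by linarith), abs_neg]
    linarith

theorem Dat.Sym.norm_le_du (h : D.Sym y) (i : ι) :
    ‖y i‖ ≤ |D.du y i| + |D.du y (D.bar i)| := by
  have h1 := Complex.norm_le_abs_re_add_abs_im (y i)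
  have h2 := abs_nonneg (y i).re
  have h2' := abs_nonneg (y i).im
  unfold Dat.du
  rw [D.im_bar, h i, Complex.conj_re, Complex.conj_im]
  rcases lt_trichotomy (D.σ i).im 0 with h0 | h0 | h0
  · rw [if_neg h0.ne, if_neg (by linarith), if_neg (by linarith), if_pos (by linarith), abs_mul,
      abs_mul, abs_neg, abs_two]
    linarith
  · have h3 := h i
    rw [D.bar_of_real h0] at h3
    rw [Complex.conj_eq_iff_im.1 h3.symm, abs_zero] at h1
    rw [if_pos h0, if_pos (by linarith)]
    linarith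
  · rw [if_neg h0.ne', if_pos h0, if_neg (by linarith), if_neg (by linarith), abs_mul,
      abs_mul, abs_neg, abs_neg, abs_two]
    linarith

theorem Dat.Sym.du_le (h : D.Sym y) (i : ι) :
    |D.du y i| + |D.du y (D.bar i)| ≤ 4 * ‖y i‖ := by
  have h1 := D.abs_du_le y i
  have h2 := D.abs_du_le y (D.bar i)
  rw [h i, Complex.norm_conj] at h2
  linarith

/-- Twice each side is the sum over `i` of the terms at `i` and at `bar i` (`Equiv.sum_comp` for the
involution `bar`); compare these pairs by the sign of the imaginary part of `σ i`. -/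
theorem Dat.Sym.pair (hy : D.Sym y) (hX : D.Sym X) :
    (∑ i, y i * X i).re = ∑ i, D.du y i * D.co X i := by
  have e1 := Equiv.sum_comp (Function.Involutive.toPerm D.bar D.bar_bar) fun i => (y i * X i).re
  have e2 := Equiv.sum_comp (Function.Involutive.toPerm D.bar D.bar_bar)
    fun i => D.du y i * D.co X i
  have e3 : ∑ i, ((y i * X i).re + (y (D.bar i) * X (D.bar i)).re) =
      ∑ i, (D.du y i * D.co X i + D.du y (D.bar i) * D.co X (D.bar i)) := by
    refine sum_congr rfl fun i _ => ?_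
    unfold Dat.du Dat.co
    rw [D.im_bar, hy i, hX i]
    simp only [Complex.mul_re, Complex.conj_re, Complex.conj_im]
    rcases lt_trichotomy (D.σ i).im 0 with h0 | h0 | h0
    · rw [if_neg h0.ne, if_neg (by linarith), if_neg (by linarith), if_neg (by linarith),
        if_pos (by linarith), if_pos (by linarith)]
      ring
    · have h3 := hy i
      rw [D.bar_of_real h0] at h3
      rw [Complex.conj_eq_iff_im.1 h3.symm, if_pos h0, if_pos (by linarith),
        if_pos (by linarith), if_pos (by linarith)]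
      ring
    · rw [if_neg h0.ne', if_pos h0, if_pos (by linarith), if_neg (by linarith),
        if_neg (by linarith), if_neg (by linarith)]
      ring
  simp only [Function.Involutive.coe_toPerm] at e1 e2
  rw [sum_add_distrib, sum_add_distrib, e1, e2] at e3
  rw [Complex.re_sum]
  linarith

theorem Dat.rc_sym (D : Dat ι) (n : ι → ℤ) : D.Sym (D.rc n) := by
  intro i
  unfold Dat.rc
  rw [D.im_bar, D.bar_bar]
  rcases lt_trichotomy (D.σ i).im 0 with h0 | h0 | h0
  · rw [if_neg (by linarith), if_pos (by linarith), if_neg h0.ne, if_neg (by linarith)]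
    exact Complex.ext rfl rfl
  · rw [if_pos (by linarith), if_pos h0, D.bar_of_real h0, map_intCast]
  · rw [if_neg (by linarith), if_neg (by linarith), if_neg h0.ne', if_pos h0]
    exact Complex.ext rfl (neg_neg _).symm

theorem Dat.co_rc (D : Dat ι) (n : ι → ℤ) (i : ι) : D.co (D.rc n) i = n i := by
  unfold Dat.co Dat.rc
  rcases lt_trichotomy (D.σ i).im 0 with h0 | h0 | h0
  · rw [if_neg (by linarith), if_neg h0.ne, if_neg (by linarith)]
  · rw [if_pos (by linarith), if_pos h0, Complex.intCast_re]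
  · rw [if_pos (by linarith), if_neg h0.ne', if_pos h0]

theorem Dat.Sym.near (h : D.Sym X) (i : ι) : ‖X i - D.rc (fun r => ⌊D.co X r⌋) i‖ ≤ 2 := by
  have hs : D.Sym fun r => X r - D.rc (fun r => ⌊D.co X r⌋) r := fun r => by
    simp only [h r, D.rc_sym _ r, map_sub]
  have k : ∀ r, |D.co (fun r => X r - D.rc (fun r => ⌊D.co X r⌋) r) r| ≤ 1 := fun r => by
    rw [D.co_sub, D.co_rc]
    exact abs_le.2 ⟨by linarith [Int.floor_le (D.co X r)],
      by linarith [Int.lt_floor_add_one (D.co X r)]⟩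
  linarith [hs.norm_le_co i, k i, k (D.bar i)]

theorem Dat.Sym.nx (h : D.Sym X) {N : ℕ} (b : Fin N → Bool) : D.Sym (D.nx X b) := by
  intro i
  simp only [Dat.nx, h i, D.cj, map_add, map_mul, map_pow, map_sum, map_zpow₀, Complex.conj_ofReal]

/-- `‖nx X b r - σ r ^ N * rc n r‖ ≤ (2 + G) * ‖σ r‖ ^ N ≤ 3 * G * ‖σ r‖ ^ N` by `near`, `geom`. -/
theorem Dat.Sym.mem_box (h : D.Sym X) {N : ℕ} (b : Fin N → Bool) :
    (fun r => ⌊D.co (D.nx X b) r⌋) ∈ D.box N fun r => ⌊D.co X r⌋ := by
  classical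
  unfold Dat.box
  refine Fintype.mem_piFinset.2 fun r => ?_
  have p0 : 1 ≤ ‖D.σ r‖ ^ N := one_le_pow₀ (D.a1.le.trans (D.big r))
  have g1 := D.one_le_G
  have a1 : ‖∑ t : Fin N, (dg (b t) : ℂ) * D.σ r ^ ((N : ℤ) - 1 - t)‖ ≤ D.G * ‖D.σ r‖ ^ N := by
    have g2 := D.geom univ (fun t : Fin N => (t : ℤ) + 1)
      (fun s _ t _ e => Fin.ext (by simp only at e; omega)) fun t _ => by positivity
    refine (norm_sum_le _ _).trans (le_trans ?_ (mul_le_mul_of_nonneg_right g2 (by positivity)))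
    rw [sum_mul]
    refine sum_le_sum fun t _ => ?_
    have a2 : ‖(dg (b t) : ℂ)‖ ≤ 1 := by cases b t <;> simp [dg]
    rw [show (N : ℤ) - 1 - t = -((t : ℤ) + 1) + N by ring, zpow_add₀ (D.ne r), norm_mul, norm_mul,
      zpow_natCast, norm_pow]
    refine (mul_le_of_le_one_left (by positivity) a2).trans ?_
    exact mul_le_mul_of_nonneg_right (D.norm_zpow_le r (by omega)) (by positivity)
  have a3 : ‖D.nx X b r - D.σ r ^ N * D.rc (fun r => ⌊D.co X r⌋) r‖ ≤
      3 * D.G * ‖D.σ r‖ ^ N := by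
    have e : D.nx X b r - D.σ r ^ N * D.rc (fun r => ⌊D.co X r⌋) r =
        D.σ r ^ N * (X r - D.rc (fun r => ⌊D.co X r⌋) r) +
          ∑ t : Fin N, (dg (b t) : ℂ) * D.σ r ^ ((N : ℤ) - 1 - t) := by
      unfold Dat.nx
      ring
    rw [e]
    refine (norm_add_le _ _).trans ?_
    rw [norm_mul, norm_pow]
    nlinarith [mul_le_mul_of_nonneg_left (h.near r) (zero_le_one.trans p0)]
  have a4 := (D.abs_co_le (fun r => D.nx X b r - D.σ r ^ N * D.rc (fun r => ⌊D.co X r⌋) r) r).trans a3
  rw [D.co_sub (D.nx X b) fun r => D.σ r ^ N * D.rc (fun r => ⌊D.co X r⌋) r, abs_le] at a4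
  have a5 : 1 ≤ D.G * ‖D.σ r‖ ^ N := one_le_mul_of_one_le_of_one_le g1 p0
  refine mem_Ico.2 ⟨Int.floor_le_floor (by linarith [a4.1]), ?_⟩
  have b1 := Int.floor_le (D.co (D.nx X b) r)
  have b2 := Int.lt_floor_add_one
    (D.co (fun r => D.σ r ^ N * D.rc (fun r => ⌊D.co X r⌋) r) r - 3 * D.G * ‖D.σ r‖ ^ N)
  have b3 := Nat.lt_floor_add_one (8 * D.G * ‖D.σ r‖ ^ N)
  refine Int.cast_lt (R := ℝ).1 ?_
  push_cast
  linarith [a4.2]

end Pool.Agent.Lib.MP_e840b2_an.OP
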