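import Pool.Agent.Lib.MP_e840b2_an.Main

/-! Definitions: an algebraic unit with one pair of conjugates on the unit circle. -/

set_option autoImplicit false
open Finset Real
open scoped ComplexConjugate

namespace Pool.Agent.Lib.MP_e840b2_an.OP

/-- The roots outside the unit disc `σ`, their inverses and `θ`, `θ⁻¹` are all the roots. -/
structure Dat (ι : Type) [Fintype ι] where
  σ : ι → ℂ
  bar : ι → ι
  θ : ℂ
  a : ℝ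
  i0 : ι
  a1 : 1 < a
  big : ∀ i, a ≤ ‖σ i‖
  inj : Function.Injective σ
  cj : ∀ i, σ (bar i) = conj (σ i)
  th : ‖θ‖ = 1
  nru : ∀ n : ℕ, 0 < n → θ ^ n ≠ 1
  int : ∀ i, IsIntegral ℤ (σ i) ∧ IsIntegral ℤ (σ i)⁻¹
  tr : ∀ k : ℤ, ∃ n : ℤ, (∑ i, σ i ^ k).re + 2 * (θ ^ k).re + (∑ i, σ i ^ (-k)).re = n

/-- One factor of a Riesz product. -/
noncomputable def rg (lam : ℝ) (u : ℂ) (t : ℝ) : ℝ := 1 + lam * (u * ee t).re

/-- The test times. -/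
def jj (L g i : ℕ) : ℤ := L + g + g * i

namespace Dat

variable {ι : Type} [Fintype ι] (D : Dat ι)

/-- The sum of the geometric series. -/
noncomputable def G : ℝ := D.a / (D.a - 1)

/-- The Mahler measure. -/
noncomputable def M : ℝ := ∏ i, ‖D.σ i‖

/-- The expanding part of a trace. -/
noncomputable def E (y : ι → ℂ) (k : ℤ) : ℝ := (∑ i, D.σ i ^ k * y i).re

/-- Compatibility with complex conjugation. -/
def Sym (y : ι → ℂ) : Prop := ∀ i, y (D.bar i) = conj (y i)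

/-- Points of the dual lattice. -/
def Dual (y : ι → ℂ) (z : ℂ) (w : ι → ℂ) : Prop :=
  ∀ k : ℤ, ∃ n : ℤ, D.E y k + 2 * (D.θ ^ k * z).re + D.E w (-k) = n

/-- The invariant of the doubling construction. -/
structure St (Γ : ℝ) (y : ι → ℂ) (z : ℂ) (w : ι → ℂ) (L : ℕ) (ε W : ℝ) : Prop where
  dual : D.Dual y z w
  sym : D.Sym y
  y_le : ∑ i, ‖y i‖ ≤ 1 / 5 - ε
  y_ge : D.a ^ (-(L : ℤ)) ≤ ‖y D.i0‖
  z_le : ‖z‖ ≤ ε
  w_le : ∑ i, ‖w i‖ / ‖D.σ i‖ ^ L ≤ 1 / 5 - ε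
  marg : ∀ k : ℤ, 1 / Γ + 20 * ε ≤ cc (D.E y k)
  cost : ∀ s : Finset ℤ, (∀ k ∈ s, k < L) → W ≤ ∏ k ∈ s, cc (D.E y k)

/-- Logarithmic bookkeeping. -/
def Good (Γ e l u : ℝ) : Prop :=
  ∃ (y : ι → ℂ) (z : ℂ) (w : ι → ℂ) (L : ℕ), D.St Γ y z w L (exp (-e)) (exp (-u)) ∧
    (L : ℝ) + 2 * Γ * e + 2 ≤ exp l ∧ 0 ≤ l ∧ l ≤ e + 2 ∧ 20 ≤ e ∧ 100 * Γ ^ 2 ≤ exp e

/-- Real coordinates of a symmetric vector. -/
noncomputable def co (X : ι → ℂ) (i : ι) : ℝ := if 0 ≤ (D.σ i).im then (X i).re else (X i).im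

/-- The dual coordinates. -/
noncomputable def du (y : ι → ℂ) (i : ι) : ℝ :=
  if (D.σ i).im = 0 then (y i).re else if 0 < (D.σ i).im then 2 * (y i).re else -2 * (y i).im

/-- The symmetric vector with given integer coordinates. -/
noncomputable def rc (n : ι → ℤ) (i : ι) : ℂ :=
  if (D.σ i).im = 0 then n i else
    if 0 < (D.σ i).im then ⟨n i, -n (D.bar i)⟩ else ⟨n (D.bar i), n i⟩

/-- The coarse state. -/
noncomputable def cst (ρ : ℝ) (X : ι → ℂ) (ζ : ℂ) : (ι → ℤ) × ℤ × ℤ :=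
  (fun i => ⌊D.co X i⌋, ⌊ζ.re / ρ⌋, ⌊ζ.im / ρ⌋)

/-- The expanding coordinates after one block. -/
noncomputable def nx {N : ℕ} (X : ι → ℂ) (b : Fin N → Bool) (r : ι) : ℂ :=
  D.σ r ^ N * X r + ∑ t : Fin N, (dg (b t) : ℂ) * D.σ r ^ ((N : ℤ) - 1 - t)

/-- The neutral coordinate after one block. -/
noncomputable def nz {N : ℕ} (m : ℕ) (ζ : ℂ) (b : Fin N → Bool) : ℂ :=
  ζ + ∑ t : Fin N, (dg (b t) : ℂ) * D.θ ^ (-((m : ℤ) + t + 1))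

/-- Test frequencies. -/
noncomputable def ff (y : ι → ℂ) (L g N i : ℕ) : ι → ℝ :=
  D.du fun r => D.σ r ^ (jj L g i - N) * y r

/-- Fourier coefficients of a block. -/
noncomputable def om (y : ι → ℂ) (L g N i : ℕ) : ℂ :=
  ∏ t : Fin N, (1 + ee (D.E y (jj L g i - 1 - t))) / 2

/-- Phases of the test functions. -/
noncomputable def uu (y : ι → ℂ) (z : ℂ) (L g N : ℕ) (ρ : ℝ) (m : ℕ) (c : ℤ × ℤ) (i : ℕ) : ℂ :=
  conj (D.om y L g N i) / (‖D.om y L g N i‖ : ℂ) *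
    ee (2 * (D.θ ^ (jj L g i + m) * z * ⟨ρ * c.1, ρ * c.2⟩).re)

open Classical in
/-- The cells that can follow a given cell. -/
noncomputable def box (N : ℕ) (n : ι → ℤ) : Finset (ι → ℤ) :=
  Fintype.piFinset fun r =>
    Ico ⌊D.co (fun r => D.σ r ^ N * D.rc n r) r - 3 * D.G * ‖D.σ r‖ ^ N⌋
      (⌊D.co (fun r => D.σ r ^ N * D.rc n r) r - 3 * D.G * ‖D.σ r‖ ^ N⌋ +
        (⌊8 * D.G * ‖D.σ r‖ ^ N⌋₊ : ℕ))

open Classical in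
/-- The kernel for the expanding coordinates. -/
noncomputable def kD (y : ι → ℂ) (z : ℂ) (L g N nJ : ℕ) (ρ lam : ℝ) (m : ℕ)
    (s : (ι → ℤ) × ℤ × ℤ) (n : ι → ℤ) : ℝ :=
  if n ∈ D.box N s.1 then
    (∏ i ∈ range nJ, rg lam (D.uu y z L g N ρ m s.2 i) (∑ r, D.ff y L g N i r * n r)) /
      (2 * ∏ r, 8 * D.G * ‖D.σ r‖ ^ N) else 0

/-- The full kernel. -/
noncomputable def kk (y : ι → ℂ) (z : ℂ) (L g N nJ : ℕ) (ρ lam : ℝ) (m : ℕ)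
    (s s' : (ι → ℤ) × ℤ × ℤ) : ℝ :=
  D.kD y z L g N nJ ρ lam m s s'.1 * (k1 (s'.2.1 - s.2.1) * k1 (s'.2.2 - s.2.2))

/-- The parameters of the coding. -/
structure Ok (Γ : ℝ) (y : ι → ℂ) (z : ℂ) (w : ι → ℂ) (L : ℕ) (ε W : ℝ) (g N nJ : ℕ) (ρ : ℝ) :
    Prop where
  st : D.St Γ y z w L ε W
  hG : D.G ≤ Γ
  W0 : 0 < W
  r1 : 1 ≤ ρ
  r2 : 2 ≤ ρ * ‖D.θ⁻¹ - 1‖
  r3 : ε * ρ ≤ 1 / 50
  r4 : (N : ℝ) ≤ ρ ^ 2
  gap : 20 * D.G ≤ D.a ^ g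
  hN : L + g + g * nJ ≤ N
  lot : 32 * (Real.log (2 * (8 * D.G) ^ Fintype.card ι) + 11) ≤ nJ * (W * exp (-(2 * Γ))) ^ 2

/-- The expanding coordinates. -/
noncomputable def XX {n : ℕ} (ω : Fin n → Bool) (m : ℕ) (r : ι) : ℂ :=
  ∑ i ∈ range m, (eg ω i : ℂ) * D.σ r ^ ((m : ℤ) - 1 - i)

/-- The unrotated neutral coordinate. -/
noncomputable def ZZ {n : ℕ} (ω : Fin n → Bool) (m : ℕ) : ℂ :=
  ∑ i ∈ range m, (eg ω i : ℂ) * D.θ ^ (-((i : ℤ) + 1))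

/-- The contracting coordinates. -/
noncomputable def WW {n : ℕ} (ω : Fin n → Bool) (m : ℕ) (r : ι) : ℂ :=
  ∑ i ∈ range m, (eg ω i : ℂ) * D.σ r ^ (-((m : ℤ) - 1 - i))

end Dat

/-- The signed sum attached to a sign pattern. -/
noncomputable def sg (l : ℂ) (n : ℕ) (ε : Fin n → Bool) : ℂ :=
  ∑ i : Fin n, (if ε i then (1 : ℂ) else -1) * l ^ (i : ℕ)

end Pool.Agent.Lib.MP_e840b2_an.OP
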