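import Pool.Agent.Lib.MP_e840b2_an.OP.Defs

/-! Lacunary Riesz products on a box of integer points. -/

set_option autoImplicit false
open Finset Real
open scoped ComplexConjugate

namespace Pool.Agent.Lib.MP_e840b2_an.OP

variable {ι : Type} [Fintype ι]

theorem rg_pos {lam : ℝ} (h0 : 0 ≤ lam) (h1 : lam ≤ 1 / 2) {u : ℂ} (hu : ‖u‖ ≤ 1) (t : ℝ) :
    0 < rg lam u t := by
  simpa only [rf, rg, mul_one] using rf_pos lam h0 h1 u hu t 1

theorem neg_log_rg_le {lam : ℝ} (h0 : 0 ≤ lam) (h1 : lam ≤ 1 / 2) {u : ℂ} (hu : ‖u‖ ≤ 1) (t : ℝ) :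
    -Real.log (rg lam u t) ≤ -(lam * (u * ee t).re) + 2 * lam ^ 2 := by
  simpa only [rf, rg, mul_one] using neg_log_rf_le lam h0 h1 u hu t 1

variable [DecidableEq ι]

/-- The sum is a product (`ee_sum`, `Finset.prod_univ_sum`); `norm_sum_ee_le` in the coordinate
`i0` or `i1` where `|F|` is at least `μ / 2`, the trivial bound in the others. -/
theorem box_ee (lo : ι → ℤ) (Mn : ι → ℕ) {B : ι → ℝ} (hB : ∀ i, (Mn i : ℝ) ≤ B i)
    (B0 : ∀ i, 0 < B i) {i0 i1 : ι} (h01 : B i1 = B i0) {F : ι → ℝ} {μ : ℝ} (hμ : 0 < μ)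
    (h1 : μ ≤ |F i0| + |F i1|) (h2 : ∑ i, |F i| ≤ 1 / 2) :
    ‖∑ n ∈ Fintype.piFinset fun i => Ico (lo i) (lo i + Mn i), ee (∑ i, F i * n i)‖ ≤
      (∏ i, B i) / (B i0 * μ) := by
  have e : ∑ n ∈ Fintype.piFinset fun i => Ico (lo i) (lo i + Mn i), ee (∑ i, F i * n i) =
      ∏ i, ∑ k ∈ Ico (lo i) (lo i + Mn i), ee (F i * k) := by
    rw [Finset.prod_univ_sum]
    exact sum_congr rfl fun n _ => ee_sum _ _
  have e2 : ∀ i, ∑ k ∈ Ico (lo i) (lo i + Mn i), ee (F i * k) =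
      ∑ k ∈ range (Mn i), ee (F i * (lo i + k)) := by
    intro i
    symm
    refine sum_bij' (fun k _ => lo i + k) (fun k _ => (k - lo i).toNat) ?_ ?_ ?_ ?_ ?_
    · intro k hk
      have := mem_range.1 hk
      exact mem_Ico.2 (by omega)
    · intro k hk
      have := mem_Ico.1 hk
      exact mem_range.2 (by omega)
    · intro k _
      simp
    · intro k hk
      have := mem_Ico.1 hk
      omega
    · intro k _
      push_cast
      rfl
  have triv : ∀ i, ‖∑ k ∈ range (Mn i), ee (F i * (lo i + k))‖ ≤ B i := fun i =>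
    (norm_sum_le _ _).trans (by simpa [norm_ee] using hB i)
  have key : ∀ j, B j = B i0 → μ / 2 ≤ |F j| →
      ∏ i, ‖∑ k ∈ range (Mn i), ee (F i * (lo i + k))‖ ≤ (∏ i, B i) / (B i0 * μ) := by
    intro j hj h
    have h3 : |F j| ≤ 1 / 2 :=
      (single_le_sum (f := fun i => |F i|) (fun i _ => abs_nonneg _) (mem_univ j)).trans h2
    have h4 := norm_sum_ee_le (F j) (lo j) (Mn j) (μ / 2) (by positivity) h h3
    rw [← mul_prod_erase univ _ (mem_univ j), ← mul_prod_erase univ B (mem_univ j), hj,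
      mul_div_mul_left _ _ (B0 i0).ne', div_eq_inv_mul]
    refine mul_le_mul (h4.trans_eq ?_)
      (prod_le_prod (fun i _ => norm_nonneg _) fun i _ => triv i)
      (prod_nonneg fun i _ => norm_nonneg _) (by positivity)
    field_simp
  rw [e, norm_prod]
  simp only [e2]
  rcases le_total (|F i0|) (|F i1|) with h | h
  · exact key i1 h01 (by linarith)
  · exact key i0 rfl (by linarith)

/-- Twisted sums of Riesz products over a finite set of integer points. -/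
noncomputable def RzS (S : Finset (ι → ℤ)) (lam : ℝ) (u : ℕ → ℂ) (f : ℕ → ι → ℝ) (J : ℕ)
    (F : ι → ℝ) : ℂ :=
  ∑ n ∈ S, ee (∑ i, F i * n i) * ∏ j ∈ range J, ((rg lam (u j) (∑ i, f j i * n i) : ℝ) : ℂ)

omit [DecidableEq ι] in
theorem RzS_succ (S : Finset (ι → ℤ)) (lam : ℝ) (u : ℕ → ℂ) (f : ℕ → ι → ℝ) (J : ℕ) (F : ι → ℝ) :
    RzS S lam u f (J + 1) F = RzS S lam u f J F +
      (lam / 2 : ℂ) * u J * RzS S lam u f J (fun i => F i + f J i) +
      (lam / 2 : ℂ) * conj (u J) * RzS S lam u f J (fun i => F i - f J i) := by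
  unfold RzS
  rw [mul_sum, mul_sum, ← sum_add_distrib, ← sum_add_distrib]
  apply sum_congr rfl
  intro n _
  rw [prod_range_succ]
  have h1 : ((rg lam (u J) (∑ i, f J i * n i) : ℝ) : ℂ) = 1 + (lam / 2 : ℂ) *
      (u J * ee (∑ i, f J i * n i) + conj (u J) * ee (-(∑ i, f J i * n i))) := by
    unfold rg
    rw [← conj_ee, ← map_mul, Complex.add_conj]
    push_cast
    ring
  have h2 : ee (∑ i, (F i + f J i) * n i) = ee (∑ i, F i * n i) * ee (∑ i, f J i * n i) := by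
    rw [← ee_add, ← sum_add_distrib]
    simp only [add_mul]
  have h3 : ee (∑ i, (F i - f J i) * n i) = ee (∑ i, F i * n i) * ee (-(∑ i, f J i * n i)) := by
    rw [← ee_add, ← sub_eq_add_neg, ← sum_sub_distrib]
    simp only [sub_mul]
  rw [h1, h2, h3]
  ring

omit [DecidableEq ι] in
theorem RzS_step (S : Finset (ι → ℤ)) {lam : ℝ} (l0 : 0 ≤ lam) {u : ℕ → ℂ} (hu : ∀ j, ‖u j‖ ≤ 1)
    (f : ℕ → ι → ℝ) (J : ℕ) (F : ι → ℝ) {c : ℝ}
    (a2 : ‖RzS S lam u f J fun i => F i + f J i‖ ≤ c)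
    (a3 : ‖RzS S lam u f J fun i => F i - f J i‖ ≤ c) :
    ‖RzS S lam u f (J + 1) F‖ ≤ ‖RzS S lam u f J F‖ + lam * c := by
  rw [RzS_succ]
  have hl : ‖(lam / 2 : ℂ)‖ = lam / 2 := by
    rw [norm_div, Complex.norm_real, Real.norm_eq_abs, abs_of_nonneg l0]; simp
  have c2 : ‖(lam / 2 : ℂ) * u J * RzS S lam u f J fun i => F i + f J i‖ ≤ lam / 2 * c := by
    rw [norm_mul, norm_mul, hl]
    have := mul_le_mul (hu J) a2 (norm_nonneg _) zero_le_one
    nlinarith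
  have c3 : ‖(lam / 2 : ℂ) * conj (u J) * RzS S lam u f J fun i => F i - f J i‖ ≤
      lam / 2 * c := by
    rw [norm_mul, norm_mul, hl, Complex.norm_conj]
    have := mul_le_mul (hu J) a3 (norm_nonneg _) zero_le_one
    nlinarith
  exact norm_add₃_le.trans (by linarith)

omit [DecidableEq ι] in
theorem RzS_bound (S : Finset (ι → ℤ)) {lam : ℝ} (l0 : 0 ≤ lam) {u : ℕ → ℂ} (hu : ∀ j, ‖u j‖ ≤ 1)
    (f : ℕ → ι → ℝ) (i0 i1 : ι) {μ K : ℝ}
    (hK : ∀ F : ι → ℝ, μ ≤ |F i0| + |F i1| → ∑ i, |F i| ≤ 1 / 2 →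
      ‖∑ n ∈ S, ee (∑ i, F i * n i)‖ ≤ K) (J : ℕ) :
    ∀ F : ι → ℝ, μ + ∑ j ∈ range J, (|f j i0| + |f j i1|) ≤ |F i0| + |F i1| →
      ∑ i, |F i| + ∑ j ∈ range J, ∑ i, |f j i| ≤ 1 / 2 →
      ‖RzS S lam u f J F‖ ≤ (1 + lam) ^ J * K := by
  induction J with
  | zero =>
    intro F h1 h2
    simp only [range_zero, sum_empty, add_zero] at h1 h2
    simpa [RzS] using hK F h1 h2
  | succ J ih =>
    intro F h1 h2
    rw [sum_range_succ] at h1 h2
    have hf : 0 ≤ ∑ i, |f J i| := sum_nonneg fun i _ => abs_nonneg _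
    have a1 := ih F (by linarith [abs_nonneg (f J i0), abs_nonneg (f J i1)]) (by linarith)
    have b1 : ∀ i, |F i| - |f J i| ≤ |F i + f J i| := fun i => by
      have := abs_sub (F i + f J i) (f J i)
      simp only [add_sub_cancel_right] at this
      linarith
    have b2 : ∀ i, |F i| - |f J i| ≤ |F i - f J i| := fun i => abs_sub_abs_le_abs_sub _ _
    have b3 : ∑ i, |F i + f J i| ≤ ∑ i, |F i| + ∑ i, |f J i| := by
      rw [← sum_add_distrib]
      exact sum_le_sum fun i _ => abs_add_le _ _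
    have b4 : ∑ i, |F i - f J i| ≤ ∑ i, |F i| + ∑ i, |f J i| := by
      rw [← sum_add_distrib]
      exact sum_le_sum fun i _ => abs_sub _ _
    have a2 := ih (fun i => F i + f J i) (by linarith [b1 i0, b1 i1]) (by linarith)
    have a3 := ih (fun i => F i - f J i) (by linarith [b2 i0, b2 i1]) (by linarith)
    have := RzS_step S l0 hu f J F a2 a3
    rw [pow_succ]
    linarith

omit [DecidableEq ι] in
theorem RzS_zero (S : Finset (ι → ℤ)) {lam : ℝ} (l0 : 0 ≤ lam) (l1 : lam ≤ 1 / 2) {u : ℕ → ℂ}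
    (hu : ∀ j, ‖u j‖ ≤ 1) (f : ℕ → ι → ℝ) (i0 i1 : ι) {K : ℝ} (K0 : 0 ≤ K)
    (hK : ∀ (μ : ℝ) (F : ι → ℝ), 0 < μ → μ ≤ |F i0| + |F i1| → ∑ i, |F i| ≤ 1 / 2 →
      ‖∑ n ∈ S, ee (∑ i, F i * n i)‖ ≤ K / μ)
    (h0 : 0 < |f 0 i0| + |f 0 i1|)
    (hf : ∀ j, 5 * (|f j i0| + |f j i1|) ≤ |f (j + 1) i0| + |f (j + 1) i1|) (J : ℕ)
    (hJ : ∑ j ∈ range J, ∑ i, |f j i| ≤ 1 / 2) :
    ‖RzS S lam u f J fun _ => 0‖ ≤
      S.card + 2 * (1 - (1 / 2) ^ J) * (K / (|f 0 i0| + |f 0 i1|)) := by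
  have hσ : ∀ j, ∑ i ∈ range j, (|f i i0| + |f i i1|) ≤ (|f j i0| + |f j i1|) / 4 := by
    intro j
    induction j with
    | zero => simp; positivity
    | succ j ih => rw [sum_range_succ]; linarith [hf j]
  have hg : ∀ j, 5 ^ j * (|f 0 i0| + |f 0 i1|) ≤ |f j i0| + |f j i1| := by
    intro j
    induction j with
    | zero => simp
    | succ j ih => rw [pow_succ]; linarith [hf j]
  induction J with
  | zero => simp [RzS, ee_zero]
  | succ J ih =>
    rw [sum_range_succ] at hJ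
    have hn : 0 ≤ ∑ i, |f J i| := sum_nonneg fun i _ => abs_nonneg _
    have ih' := ih (by linarith)
    have hfJ : 0 < |f J i0| + |f J i1| := lt_of_lt_of_le (by positivity) (hg J)
    have a := RzS_bound S l0 hu f i0 i1
      (fun F => hK (3 / 4 * (|f J i0| + |f J i1|)) F (by positivity)) J
    have a2 := a (fun i => 0 + f J i) (by simp only [zero_add]; linarith [hσ J])
      (by simp only [zero_add]; linarith)
    have a3 := a (fun i => 0 - f J i) (by simp only [zero_sub, abs_neg]; linarith [hσ J])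
      (by simp only [zero_sub, abs_neg]; linarith)
    have hb : (1 + lam) ^ J * (K / (3 / 4 * (|f J i0| + |f J i1|))) ≤
        2 * (1 / 2) ^ J * (K / (|f 0 i0| + |f 0 i1|)) := by
      rw [← mul_div_assoc, ← mul_div_assoc, div_le_div_iff₀ (by positivity) h0]
      have h1 : (1 + lam) ^ J ≤ (5 / 2 : ℝ) ^ J := pow_le_pow_left₀ (by linarith) (by linarith) J
      have h2 : (5 / 2 : ℝ) ^ J = (1 / 2) ^ J * 5 ^ J := by rw [← mul_pow]; norm_num
      have h3 : (0 : ℝ) < (1 / 2) ^ J := by positivity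
      have h4 : (1 + lam) ^ J * (|f 0 i0| + |f 0 i1|) ≤ (1 / 2) ^ J * (|f J i0| + |f J i1|) :=
        calc (1 + lam) ^ J * (|f 0 i0| + |f 0 i1|)
            ≤ (1 / 2) ^ J * 5 ^ J * (|f 0 i0| + |f 0 i1|) := by
              rw [← h2]; exact mul_le_mul_of_nonneg_right h1 h0.le
          _ = (1 / 2) ^ J * (5 ^ J * (|f 0 i0| + |f 0 i1|)) := by ring
          _ ≤ _ := mul_le_mul_of_nonneg_left (hg J) h3.le
      have h5 := mul_le_mul_of_nonneg_left h4 K0
      have h6 := mul_nonneg K0 (mul_pos h3 hfJ).le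
      nlinarith
    have h := RzS_step S l0 hu f J (fun _ => 0) (a2.trans hb) (a3.trans hb)
    have hq : 0 ≤ 2 * (1 / 2 : ℝ) ^ J * (K / (|f 0 i0| + |f 0 i1|)) := by positivity
    have h7 := mul_le_mul_of_nonneg_right l1 hq
    rw [pow_succ]
    linarith

/-- Copy `RS`, `RS_succ`, `RS_bound`, `RS_zero_bound`, `riesz_sum_le` with vector frequencies: the
seminorm `|F i0| + |F i1|` for the lower bounds, `∑ i, |F i|` for the upper bounds, `box_ee` (all
bounds get the factor `K = 2 * (∏ i, B i) / B i0`). -/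
theorem riesz_box (lo : ι → ℤ) (Mn : ι → ℕ) {B : ι → ℝ} (hB : ∀ i, (Mn i : ℝ) ≤ B i)
    (B0 : ∀ i, 0 < B i) {i0 i1 : ι} (h01 : B i1 = B i0) {lam : ℝ} (l0 : 0 ≤ lam)
    (l1 : lam ≤ 1 / 2) {u : ℕ → ℂ} (hu : ∀ j, ‖u j‖ ≤ 1) (f : ℕ → ι → ℝ) (J : ℕ)
    (h0 : 0 < |f 0 i0| + |f 0 i1|)
    (hf : ∀ j, 5 * (|f j i0| + |f j i1|) ≤ |f (j + 1) i0| + |f (j + 1) i1|)
    (hJ : ∑ j ∈ range J, ∑ i, |f j i| ≤ 1 / 2) :
    ∑ n ∈ Fintype.piFinset fun i => Ico (lo i) (lo i + Mn i),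
      ∏ j ∈ range J, rg lam (u j) (∑ i, f j i * n i) ≤
        (∏ i, B i) * (1 + 2 / (B i0 * (|f 0 i0| + |f 0 i1|))) := by
  have hP : 0 < ∏ i, B i := prod_pos fun i _ => B0 i
  have hb := B0 i0
  have h := RzS_zero (Fintype.piFinset fun i => Ico (lo i) (lo i + Mn i)) l0 l1 hu f i0 i1
    (K := (∏ i, B i) / B i0) (by positivity)
    (fun μ F hμ h1 h2 => (box_ee lo Mn hB B0 h01 hμ h1 h2).trans_eq (div_div _ _ _).symm)
    h0 hf J hJ
  have h2 : (RzS (Fintype.piFinset fun i => Ico (lo i) (lo i + Mn i)) lam u f J fun _ => 0) =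
      ((∑ n ∈ Fintype.piFinset fun i => Ico (lo i) (lo i + Mn i),
        ∏ j ∈ range J, rg lam (u j) (∑ i, f j i * n i) : ℝ) : ℂ) := by
    unfold RzS
    simp only [zero_mul, sum_const_zero, ee_zero, one_mul, Complex.ofReal_sum (f := fun n : ι → ℤ =>
      ∏ j ∈ range J, rg lam (u j) (∑ i, f j i * n i)), Complex.ofReal_prod]
  rw [h2, Complex.norm_real, Real.norm_eq_abs] at h
  refine (le_abs_self _).trans (h.trans ?_)
  have h3 : ((Fintype.piFinset fun i => Ico (lo i) (lo i + Mn i)).card : ℝ) ≤ ∏ i, B i := by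
    rw [Fintype.card_piFinset]
    push_cast
    refine prod_le_prod (fun i _ => Nat.cast_nonneg _) fun i _ => le_trans (le_of_eq ?_) (hB i)
    rw [Int.card_Ico, add_sub_cancel_left, Int.toNat_natCast]
  have h4 : (0 : ℝ) ≤ (1 / 2) ^ J * ((∏ i, B i) / B i0 / (|f 0 i0| + |f 0 i1|)) := by positivity
  have h5 : (∏ i, B i) * (1 + 2 / (B i0 * (|f 0 i0| + |f 0 i1|))) =
      ∏ i, B i + 2 * ((∏ i, B i) / B i0 / (|f 0 i0| + |f 0 i1|)) := by
    field_simp
  linarith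

end Pool.Agent.Lib.MP_e840b2_an.OP
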