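import Pool.Agent.Lib.MP_e840b2_an.OP.Basic

/-! One doubling step. -/

set_option autoImplicit false
open Finset Real
open scoped ComplexConjugate

namespace Pool.Agent.Lib.MP_e840b2_an.OP

variable {ι : Type} [Fintype ι] {D : Dat ι}

variable {Γ ε W : ℝ} {y w : ι → ℂ} {z : ℂ} {L : ℕ}

/-- Copy `St.rep`, with `E_w`. -/
theorem Dat.St.rep (h : D.St Γ y z w L ε W) {k : ℤ} (hk : (L : ℤ) ≤ k) :
    ∃ (n : ℤ) (r : ℝ), D.E y k = n - r ∧ |r| ≤ 2 * ε + D.a ^ ((L : ℤ) - k) / 5 := by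
  obtain ⟨n, hn⟩ := h.dual k
  have hε0 : 0 ≤ ε := (norm_nonneg _).trans h.z_le
  refine ⟨n, 2 * (D.θ ^ k * z).re + D.E w (-k), by linarith, ?_⟩
  refine (abs_add_le _ _).trans (add_le_add ((D.abs_re_le k z).trans (by linarith [h.z_le])) ?_)
  refine (D.E_w w L hk).trans ?_
  rw [div_eq_mul_one_div]
  exact mul_le_mul_of_nonneg_left (by linarith [h.w_le]) (zpow_pos D.a_pos _).le

/-- Copy `St.ext`; `2 * ∑ x ≤ 0.8 + 0.8 * G ≤ 2 * Γ`. -/
theorem Dat.St.ext (h : D.St Γ y z w L ε W) (hG : D.G ≤ Γ) (T : ℕ) (hε : ε ≤ 1 / 40)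
    (hT : ε ^ 2 * T ≤ 1 / 100) (s : Finset ℤ) (hs : ∀ k ∈ s, k < L + T) :
    W * exp (-(2 * Γ)) ≤ ∏ k ∈ s, cc (D.E y k) := by
  have hε0 : 0 ≤ ε := (norm_nonneg _).trans h.z_le
  have G1 := D.one_le_G
  have zp : ∀ k : ℤ, 0 < D.a ^ k := fun k => zpow_pos D.a_pos k
  have z1 : ∀ k : ℤ, k ≤ 0 → D.a ^ k ≤ 1 := fun k hk => by simpa using D.zpow_le hk
  rw [← prod_filter_mul_prod_filter_not s (fun k => k < (L : ℤ))]
  apply mul_le_mul (h.cost _ (fun k hk => (mem_filter.mp hk).2)) _ (exp_pos _).le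
    (prod_nonneg fun k _ => cc_nonneg _)
  set s2 := s.filter (fun k => ¬ k < (L : ℤ)) with hs2
  have hm : ∀ k ∈ s2, (L : ℤ) ≤ k ∧ k < L + T := fun k hk =>
    ⟨not_lt.mp (mem_filter.mp hk).2, hs k (mem_filter.mp hk).1⟩
  have := prod_pert s2 (fun k => cc (D.E y k)) (fun _ => 1)
    (fun k => 40 * ε ^ 2 + 2 / 5 * D.a ^ (-(k - L))) (2 * Γ) (fun _ _ => zero_le_one)
    (fun k _ => by have := zp (-(k - L)); positivity)
    (fun k hk => by
      have := z1 (-(k - L)) (by linarith [(hm k hk).1])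
      nlinarith)
    (fun k hk => by
      obtain ⟨n, r, h1, h2⟩ := h.rep (hm k hk).1
      rw [h1, cc_int_sub, one_mul]
      refine le_trans ?_ (cc_ge_quad r)
      have h3 := z1 (-(k - L)) (by linarith [(hm k hk).1])
      have h4 := zp (-(k - L))
      rw [show (L : ℤ) - k = -(k - L) by ring] at h2
      have h5 : r ^ 2 ≤ (2 * ε + D.a ^ (-(k - L)) / 5) ^ 2 := by
        rw [← sq_abs]; exact pow_le_pow_left₀ (abs_nonneg _) h2 2
      nlinarith [sq_nonneg (2 * ε - D.a ^ (-(k - L)) / 5)])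
    (by
      rw [sum_add_distrib, sum_const, nsmul_eq_mul, ← mul_sum]
      have h1 := card_le_of_Ico s2 L T hm
      have h2 := D.geom s2 (fun k => k - L) (fun a _ b _ hab => by simpa using hab)
        (fun k hk => by linarith [(hm k hk).1])
      have h3 : (s2.card : ℝ) * ε ^ 2 ≤ T * ε ^ 2 := mul_le_mul_of_nonneg_right h1 (sq_nonneg ε)
      nlinarith)
  simpa using this

/-- Copy `St.step`, with `E_step`, `E_le`; relative errors `Γ * ε * a ^ (-(J - s0 - k))` (total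
`1`) on the left and `7 * Γ * ε` (total `140 * Γ`) on the right. -/
theorem Dat.St.step (h : D.St Γ y z w L ε W) (hG : D.G ≤ Γ) (hW : 0 ≤ W) (s0 J : ℕ)
    (hJ : L + 2 * s0 ≤ J) (hs : D.a ^ (-(s0 : ℤ)) ≤ ε) (hε : 100 * Γ ^ 2 * ε ≤ 1)
    (hT : ε ^ 2 * J ≤ 1 / 100) (hL : ε * (L + s0) ≤ 10) {ε' : ℝ}
    (h1 : ε * ‖1 - D.θ ^ (-(J : ℤ))‖ ≤ ε') (h2 : ε' ≤ ε / 2) :
    D.St Γ (fun i => y i * (1 - D.σ i ^ (-(J : ℤ)))) (z * (1 - D.θ ^ (-(J : ℤ))))
      (fun i => w i * (1 - D.σ i ^ (J : ℤ))) (L + J) ε' (W * W * exp (-(150 * Γ))) := by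
  have hε0 : 0 ≤ ε := (norm_nonneg _).trans h.z_le
  have G1 := D.one_le_G
  have Γ1 : 1 ≤ Γ := G1.trans hG
  have zp : ∀ k : ℤ, 0 < D.a ^ k := fun k => zpow_pos D.a_pos k
  have z1 : ∀ k : ℤ, k ≤ 0 → D.a ^ k ≤ 1 := fun k hk => by simpa using D.zpow_le hk
  have za : ∀ j k : ℤ, D.a ^ (j + k) = D.a ^ j * D.a ^ k := zpow_add₀ D.a_pos.ne'
  have hΓε : 100 * (Γ * ε) ≤ 1 := by
    nlinarith [mul_nonneg (mul_nonneg (sub_nonneg.2 Γ1) hε0) (zero_le_one.trans Γ1)]
  have hε1 : 100 * ε ≤ 1 := by nlinarith [mul_nonneg (sub_nonneg.2 Γ1) hε0]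
  have hb1 : D.a ^ (-(J : ℤ)) ≤ ε := (D.zpow_le (by omega)).trans hs
  have hσ : ∀ i, ‖D.σ i ^ (-(J : ℤ))‖ ≤ ε := fun i => (D.norm_zpow_le i (by omega)).trans hb1
  have hup : ∀ i, ‖1 - D.σ i ^ (-(J : ℤ))‖ ≤ 1 + ε := fun i =>
    (norm_sub_le _ _).trans (by rw [norm_one]; linarith [hσ i])
  have hsplit : ∀ k : ℤ, D.E (fun i => y i * (1 - D.σ i ^ (-(J : ℤ)))) k =
      D.E y k - D.E y (k - J) := fun k => by rw [D.E_step, ← sub_eq_add_neg]
  have hpi : π ≤ 3.15 := pi_lt_d2.le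
  have hg : ∀ k, 1 ≤ Γ * cc (D.E y k) := fun k => by
    have h3 := h.marg k
    have h4 : 1 / Γ ≤ cc (D.E y k) := by linarith
    rwa [div_le_iff₀ (by linarith), mul_comm] at h4
  have left : ∀ k : ℤ, k < J - s0 → cc (D.E y k) - ε * D.a ^ (-(J - s0 - k)) ≤
      cc (D.E (fun i => y i * (1 - D.σ i ^ (-(J : ℤ)))) k) := by
    intro k hk
    rw [hsplit, sub_eq_add_neg (D.E y k)]
    refine le_trans ?_ (cc_lip _ _)
    have h3 := D.E_le y (k := k - J) (by omega)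
    rw [show k - (J : ℤ) = -(J - s0 - k) + -(s0 : ℤ) by ring, za] at h3
    rw [abs_neg, show k - (J : ℤ) = -(J - s0 - k) + -(s0 : ℤ) by ring]
    have h4 := zp (-((J : ℤ) - s0 - k))
    have h5 : D.a ^ (-(s0 : ℤ)) * ∑ i, ‖y i‖ ≤ ε * (1 / 4) :=
      mul_le_mul hs (by linarith [h.y_le]) (sum_nonneg fun i _ => norm_nonneg _) hε0
    have h6 := h3.trans ((mul_assoc _ _ _).trans_le (mul_le_mul_of_nonneg_left h5 h4.le))
    have h7 := mul_le_mul hpi h6 (abs_nonneg _) (by norm_num)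
    nlinarith [mul_nonneg hε0 h4.le]
  have right : ∀ k : ℤ, (J : ℤ) - s0 ≤ k → cc (D.E y (k - J)) - 7 * ε ≤
      cc (D.E (fun i => y i * (1 - D.σ i ^ (-(J : ℤ)))) k) := by
    intro k hk
    obtain ⟨n, r, h1, h2⟩ := h.rep (k := k) (by omega)
    rw [hsplit, h1, sub_sub, cc_int_sub, add_comm r]
    refine le_trans ?_ (cc_lip _ _)
    have h3 : D.a ^ ((L : ℤ) - k) ≤ ε := (D.zpow_le (by omega)).trans hs
    have h4 : π * |r| ≤ 3.15 * (2.2 * ε) :=
      mul_le_mul hpi (by linarith) (abs_nonneg _) (by norm_num)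
    linarith
  refine ⟨h.dual.step J, h.sym.step _, ?_, ?_, ?_, ?_, ?_, ?_⟩
  · have h3 : ∑ i, ‖y i * (1 - D.σ i ^ (-(J : ℤ)))‖ ≤ (∑ i, ‖y i‖) * (1 + ε) := by
      rw [sum_mul]
      exact sum_le_sum fun i _ => (norm_mul _ _).trans_le
        (mul_le_mul_of_nonneg_left (hup i) (norm_nonneg _))
    have h4 := mul_le_mul_of_nonneg_right h.y_le (show 0 ≤ 1 + ε by linarith)
    nlinarith [sq_nonneg ε]
  · rw [norm_mul]
    push_cast
    rw [neg_add, za]
    refine mul_le_mul h.y_ge ?_ (zp _).le (norm_nonneg _)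
    have h3 := norm_sub_norm_le (1 : ℂ) (D.σ D.i0 ^ (-(J : ℤ)))
    rw [norm_one] at h3
    linarith [hσ D.i0]
  · rw [norm_mul]
    exact (mul_le_mul_of_nonneg_right h.z_le (norm_nonneg _)).trans h1
  · have h3 : ∑ i, ‖w i * (1 - D.σ i ^ (J : ℤ))‖ / ‖D.σ i‖ ^ (L + J) ≤
        (∑ i, ‖w i‖ / ‖D.σ i‖ ^ L) * (1 + ε) := by
      rw [sum_mul]
      refine sum_le_sum fun i _ => ?_
      have h4 : 0 < ‖D.σ i‖ := norm_pos_iff.2 (D.ne i)
      have h5 : 1 - D.σ i ^ (J : ℤ) = -(D.σ i ^ J * (1 - D.σ i ^ (-(J : ℤ)))) := by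
        have := pow_ne_zero J (D.ne i)
        rw [zpow_neg, zpow_natCast]
        field_simp
        ring
      rw [h5, norm_mul, norm_neg, norm_mul, norm_pow, pow_add]
      refine le_trans (le_of_eq ?_) (mul_le_mul_of_nonneg_left (hup i) (by positivity))
      field_simp
    have h4 := mul_le_mul_of_nonneg_right h.w_le (show 0 ≤ 1 + ε by linarith)
    nlinarith [sq_nonneg ε]
  · intro k
    rcases lt_or_ge k ((J : ℤ) - s0) with hk | hk
    · have h3 := left k hk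
      have h4 := h.marg k
      have h5 := mul_le_mul_of_nonneg_left (z1 (-((J : ℤ) - s0 - k)) (by omega)) hε0
      linarith
    · have h3 := right k hk
      have h4 := h.marg (k - J)
      linarith
  · intro s hs'
    rw [← prod_filter_mul_prod_filter_not s (fun k => k < (J : ℤ) - s0)]
    set s1 := s.filter (fun k => k < (J : ℤ) - s0) with hs1
    set s2 := s.filter (fun k => ¬ k < (J : ℤ) - s0) with hs2
    have hm1 : ∀ k ∈ s1, k < (J : ℤ) - s0 := fun k hk => (mem_filter.mp hk).2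
    have hm2 : ∀ k ∈ s2, (J : ℤ) - s0 ≤ k ∧ k < (J : ℤ) - s0 + (L + s0 : ℕ) := fun k hk =>
      ⟨not_lt.mp (mem_filter.mp hk).2, by
        have := hs' k (mem_filter.mp hk).1
        push_cast at this ⊢
        omega⟩
    have hΓε0 : 0 ≤ Γ * ε := mul_nonneg (by linarith) hε0
    have a1 := prod_pert s1 (fun k => cc (D.E (fun i => y i * (1 - D.σ i ^ (-(J : ℤ)))) k))
      (fun k => cc (D.E y k)) (fun k => Γ * ε * D.a ^ (-(J - s0 - k))) 1
      (fun _ _ => cc_nonneg _) (fun k _ => mul_nonneg hΓε0 (zp _).le)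
      (fun k hk => by
        have := mul_le_mul_of_nonneg_left
          (z1 (-((J : ℤ) - s0 - k)) (by linarith [hm1 k hk])) hΓε0
        linarith)
      (fun k hk => by
        refine le_trans ?_ (left k (hm1 k hk))
        have h3 : 0 ≤ ε * D.a ^ (-((J : ℤ) - s0 - k)) := mul_nonneg hε0 (zp _).le
        nlinarith [mul_le_mul_of_nonneg_right (hg k) h3])
      (by
        rw [← mul_sum]
        have h3 := D.geom s1 (fun k => J - s0 - k) (fun a _ b _ hab => by simpa using hab)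
          (fun k hk => by linarith [hm1 k hk])
        nlinarith [mul_le_mul_of_nonneg_left (h3.trans hG) hΓε0])
    have a2 := prod_pert s2 (fun k => cc (D.E (fun i => y i * (1 - D.σ i ^ (-(J : ℤ)))) k))
      (fun k => cc (D.E y (k - J))) (fun _ => 7 * (Γ * ε)) (140 * Γ)
      (fun _ _ => cc_nonneg _) (fun k _ => by positivity) (fun k _ => by linarith)
      (fun k hk => by
        refine le_trans ?_ (right k (hm2 k hk).1)
        nlinarith [mul_le_mul_of_nonneg_right (hg (k - J)) hε0])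
      (by
        rw [sum_const, nsmul_eq_mul]
        have h3 := card_le_of_Ico s2 _ _ hm2
        push_cast at h3
        have h4 := (mul_le_mul_of_nonneg_left h3 hε0).trans hL
        nlinarith [mul_le_mul_of_nonneg_left h4 (zero_le_one.trans Γ1)])
    have b1 := h.ext hG J (by linarith) hT s1 (fun k hk => by have := hm1 k hk; omega)
    have b2 : W ≤ ∏ k ∈ s2, cc (D.E y (k - J)) := by
      have := h.cost (s2.image (fun k => k - J)) (fun k hk => by
        obtain ⟨j, hj, rfl⟩ := mem_image.mp hk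
        have := (hm2 j hj).2
        push_cast at this
        omega)
      rwa [prod_image (fun a _ b _ hab => by simpa using hab)] at this
    have c1 : W * exp (-(2 * Γ)) * exp (-1) ≤ _ :=
      (mul_le_mul_of_nonneg_right b1 (exp_pos _).le).trans a1
    have c2 : W * exp (-(140 * Γ)) ≤ _ := (mul_le_mul_of_nonneg_right b2 (exp_pos _).le).trans a2
    refine le_trans ?_ (mul_le_mul c1 c2 (by positivity) (prod_nonneg fun k _ => cc_nonneg _))
    have : W * exp (-(2 * Γ)) * exp (-1) * (W * exp (-(140 * Γ))) =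
        W * W * exp (-(2 * Γ) + -1 + -(140 * Γ)) := by
      rw [exp_add, exp_add]; ring
    rw [this]
    exact mul_le_mul_of_nonneg_left (exp_le_exp.mpr (by linarith)) (mul_nonneg hW hW)

end Pool.Agent.Lib.MP_e840b2_an.OP
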