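import Pool.Agent.Lib.MP_e840b2_an.OP.Coord
import Pool.Agent.Lib.MP_e840b2_an.OP.Rz
import Pool.Agent.Lib.MP_e840b2_an.OP.Step

/-! The coding kernel is a subprobability. -/

set_option autoImplicit false
open Finset Real
open scoped ComplexConjugate

namespace Pool.Agent.Lib.MP_e840b2_an.OP

variable {ι : Type} [Fintype ι] {D : Dat ι}

variable {Γ ε W ρ : ℝ} {y w : ι → ℂ} {z : ℂ} {L g N nJ : ℕ}

theorem Dat.norm_uu_le (D : Dat ι) (y : ι → ℂ) (z : ℂ) (L g N : ℕ) (ρ : ℝ) (m : ℕ) (c : ℤ × ℤ)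
    (i : ℕ) : ‖D.uu y z L g N ρ m c i‖ ≤ 1 := by
  unfold Dat.uu
  rw [norm_mul, norm_ee, mul_one, norm_div, Complex.norm_conj, Complex.norm_real, norm_norm]
  exact div_self_le_one _

/-- `abs_du_le`, `norm_zpow_le`, `geom` for `N - jj L g i - g`; `g ≠ 0` by `gap`. -/
theorem Dat.Ok.ff_sum (h : D.Ok Γ y z w L ε W g N nJ ρ) :
    ∑ i ∈ range nJ, ∑ r, |D.ff y L g N i r| ≤ 1 / 2 := by
  have hG := D.one_le_G
  have ha := D.a_pos
  have hgap := h.gap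
  have hg : g ≠ 0 := by
    rintro rfl
    rw [pow_zero] at hgap
    linarith
  have hε : 0 ≤ ε := (norm_nonneg z).trans h.st.z_le
  have hy : ∑ r, ‖y r‖ ≤ 1 / 5 := by linarith [h.st.y_le]
  have hk : ∀ i ∈ range nJ, 0 ≤ (N : ℤ) - jj L g i - g := by
    intro i hi
    have h1 : g * (i + 1) ≤ g * nJ := Nat.mul_le_mul_left g (Finset.mem_range.mp hi)
    have h2 : L + g + g * (i + 1) ≤ N := le_trans (by omega) h.hN
    have h3 : (L : ℤ) + g + g * (i + 1) ≤ N := by exact_mod_cast h2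
    unfold jj
    linarith
  have hgeom := D.geom (range nJ) (fun i => (N : ℤ) - jj L g i - g) (by
    intro i _ j _ hij
    have h1 : (g : ℤ) * i = g * j := by
      have h2 : (N : ℤ) - jj L g i - g = (N : ℤ) - jj L g j - g := hij
      unfold jj at h2
      linarith
    have h3 : (g : ℤ) ≠ 0 := by exact_mod_cast hg
    exact_mod_cast mul_left_cancel₀ h3 h1) hk
  have hag : 0 < D.a ^ g := pow_pos ha g
  have hrow : ∀ i ∈ range nJ, ∑ r, |D.ff y L g N i r| ≤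
      2 / 5 / D.a ^ g * D.a ^ (-((N : ℤ) - jj L g i - g)) := by
    intro i hi
    have h1 : jj L g i - N ≤ 0 := by
      have h2 := hk i hi
      have h3 : (0 : ℤ) ≤ g := Int.natCast_nonneg g
      linarith
    have h2 : D.a ^ (-((N : ℤ) - jj L g i - g)) = D.a ^ (jj L g i - N) * D.a ^ g := by
      rw [← zpow_natCast, ← zpow_add₀ ha.ne']
      congr 1
      ring
    have h3 : 0 < D.a ^ (jj L g i - N) := zpow_pos ha _
    calc ∑ r, |D.ff y L g N i r| ≤ ∑ r, 2 * D.a ^ (jj L g i - N) * ‖y r‖ := by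
          refine Finset.sum_le_sum fun r _ => (D.abs_du_le _ r).trans ?_
          rw [norm_mul, mul_assoc]
          gcongr
          exact D.norm_zpow_le r h1
      _ = 2 * D.a ^ (jj L g i - N) * ∑ r, ‖y r‖ := by rw [Finset.mul_sum]
      _ ≤ 2 * D.a ^ (jj L g i - N) * (1 / 5) := by gcongr
      _ = 2 / 5 / D.a ^ g * D.a ^ (-((N : ℤ) - jj L g i - g)) := by
          rw [h2]
          field_simp
  calc ∑ i ∈ range nJ, ∑ r, |D.ff y L g N i r|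
      ≤ ∑ i ∈ range nJ, 2 / 5 / D.a ^ g * D.a ^ (-((N : ℤ) - jj L g i - g)) :=
        Finset.sum_le_sum hrow
    _ = 2 / 5 / D.a ^ g * ∑ i ∈ range nJ, D.a ^ (-((N : ℤ) - jj L g i - g)) := by
        rw [Finset.mul_sum]
    _ ≤ 2 / 5 / D.a ^ g * D.G := by gcongr
    _ ≤ 1 / 2 := by
        rw [div_mul_eq_mul_div, div_le_iff₀ hag]
        linarith

/-- `du_le`, `norm_le_du`, `20 ≤ ‖σ i0‖ ^ g`. -/
theorem Dat.Ok.ff_lac (h : D.Ok Γ y z w L ε W g N nJ ρ) (j : ℕ) :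
    5 * (|D.ff y L g N j D.i0| + |D.ff y L g N j (D.bar D.i0)|) ≤
      |D.ff y L g N (j + 1) D.i0| + |D.ff y L g N (j + 1) (D.bar D.i0)| := by
  have h1 := ((D.sym_zpow (jj L g j - N)).mul h.st.sym).du_le D.i0
  have h2 := ((D.sym_zpow (jj L g (j + 1) - N)).mul h.st.sym).norm_le_du D.i0
  have h3 : (20 : ℝ) ≤ ‖D.σ D.i0‖ ^ g := by
    have h4 : D.a ^ g ≤ ‖D.σ D.i0‖ ^ g := pow_le_pow_left₀ D.a_pos.le (D.big _) g
    linarith [h.gap, D.one_le_G]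
  have h4 : D.σ D.i0 ^ (jj L g (j + 1) - N) = D.σ D.i0 ^ g * D.σ D.i0 ^ (jj L g j - N) := by
    rw [← zpow_natCast, ← zpow_add₀ (D.ne _)]
    congr 1
    unfold jj
    push_cast
    ring
  have h5 : ‖D.σ D.i0 ^ (jj L g (j + 1) - N) * y D.i0‖ =
      ‖D.σ D.i0‖ ^ g * ‖D.σ D.i0 ^ (jj L g j - N) * y D.i0‖ := by
    rw [h4, mul_assoc, norm_mul, norm_pow]
  have h6 := mul_le_mul_of_nonneg_right h3 (norm_nonneg (D.σ D.i0 ^ (jj L g j - N) * y D.i0))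
  unfold Dat.ff
  linarith

/-- `norm_le_du`, `y_ge`. -/
theorem Dat.Ok.ff_low (h : D.Ok Γ y z w L ε W g N nJ ρ) :
    1 ≤ ‖D.σ D.i0‖ ^ N * (|D.ff y L g N 0 D.i0| + |D.ff y L g N 0 (D.bar D.i0)|) := by
  have h2 := ((D.sym_zpow (jj L g 0 - N)).mul h.st.sym).norm_le_du D.i0
  have ha := D.a_pos
  have h3 : D.σ D.i0 ^ N * D.σ D.i0 ^ (jj L g 0 - N) = D.σ D.i0 ^ (L + g) := by
    rw [← zpow_natCast, ← zpow_add₀ (D.ne _), ← zpow_natCast]
    congr 1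
    unfold jj
    push_cast
    ring
  have h4 : ‖D.σ D.i0‖ ^ N * ‖D.σ D.i0 ^ (jj L g 0 - N) * y D.i0‖ =
      ‖D.σ D.i0‖ ^ (L + g) * ‖y D.i0‖ := by
    rw [← norm_pow, ← norm_mul, ← mul_assoc, h3, norm_mul, norm_pow]
  have h5 : D.a ^ L ≤ ‖D.σ D.i0‖ ^ (L + g) :=
    (pow_le_pow_right₀ D.a1.le (Nat.le_add_right L g)).trans
      (pow_le_pow_left₀ ha.le (D.big _) _)
  have h6 : D.a ^ L * D.a ^ (-(L : ℤ)) = 1 := by
    rw [zpow_neg, zpow_natCast, mul_inv_cancel₀ (pow_pos ha L).ne']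
  calc (1 : ℝ) = D.a ^ L * D.a ^ (-(L : ℤ)) := h6.symm
    _ ≤ ‖D.σ D.i0‖ ^ (L + g) * ‖y D.i0‖ :=
        mul_le_mul h5 h.st.y_ge (zpow_pos ha _).le (pow_nonneg (norm_nonneg _) _)
    _ = ‖D.σ D.i0‖ ^ N * ‖D.σ D.i0 ^ (jj L g 0 - N) * y D.i0‖ := h4.symm
    _ ≤ _ := mul_le_mul_of_nonneg_left h2 (pow_nonneg (norm_nonneg _) _)

/-- `riesz_box` with `B r = 8 * G * ‖σ r‖ ^ N`, `i1 = bar i0`. -/
theorem Dat.Ok.kD_subP (h : D.Ok Γ y z w L ε W g N nJ ρ) {lam : ℝ} (l0 : 0 ≤ lam)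
    (l1 : lam ≤ 1 / 2) (m : ℕ) (s : (ι → ℤ) × ℤ × ℤ) : SubP (D.kD y z L g N nJ ρ lam m s) := by
  classical
  have G1 := D.one_le_G
  have s0 : ∀ r, 0 < ‖D.σ r‖ := fun r => D.a_pos.trans_le (D.big r)
  have B0 : ∀ r, 0 < 8 * D.G * ‖D.σ r‖ ^ N := fun r => by
    have := s0 r
    positivity
  have hP : 0 < ∏ r, 8 * D.G * ‖D.σ r‖ ^ N := prod_pos fun r _ => B0 r
  have hpos : ∀ n : ι → ℤ,
      0 < ∏ i ∈ range nJ, rg lam (D.uu y z L g N ρ m s.2 i) (∑ r, D.ff y L g N i r * n r) :=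
    fun n => prod_pos fun i _ => rg_pos l0 l1 (D.norm_uu_le _ _ _ _ _ _ _ _ _) _
  have hn : ∀ n, 0 ≤ D.kD y z L g N nJ ρ lam m s n := by
    intro n
    unfold Dat.kD
    split_ifs
    · exact (div_pos (hpos n) (by positivity)).le
    · exact le_rfl
  refine ⟨hn, fun t => ?_⟩
  have hlow := h.ff_low
  have hN0 : 0 < ‖D.σ D.i0‖ ^ N := pow_pos (s0 _) N
  have h0 : 0 < |D.ff y L g N 0 D.i0| + |D.ff y L g N 0 (D.bar D.i0)| := by
    by_contra hc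
    have := mul_nonpos_of_nonneg_of_nonpos hN0.le (not_lt.1 hc)
    linarith
  have hZ := riesz_box
    (fun r => ⌊D.co (fun r => D.σ r ^ N * D.rc s.1 r) r - 3 * D.G * ‖D.σ r‖ ^ N⌋)
    (fun r => ⌊8 * D.G * ‖D.σ r‖ ^ N⌋₊) (B := fun r => 8 * D.G * ‖D.σ r‖ ^ N)
    (fun r => Nat.floor_le (B0 r).le) B0 (i0 := D.i0) (i1 := D.bar D.i0)
    (by simp only [D.cj, Complex.norm_conj]) l0 l1 (u := D.uu y z L g N ρ m s.2)
    (D.norm_uu_le _ _ _ _ _ _ _ _) (D.ff y L g N) nJ h0 h.ff_lac h.ff_sum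
  have h1 : 2 / (8 * D.G * ‖D.σ D.i0‖ ^ N *
      (|D.ff y L g N 0 D.i0| + |D.ff y L g N 0 (D.bar D.i0)|)) ≤ 1 := by
    rw [div_le_one (mul_pos (B0 _) h0), mul_assoc]
    nlinarith
  calc ∑ n ∈ t, D.kD y z L g N nJ ρ lam m s n
      ≤ ∑ n ∈ t ∪ D.box N s.1, D.kD y z L g N nJ ρ lam m s n :=
        sum_le_sum_of_subset_of_nonneg subset_union_left fun n _ _ => hn n
    _ = ∑ n ∈ D.box N s.1, D.kD y z L g N nJ ρ lam m s n := by
        symm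
        refine sum_subset subset_union_right fun n _ hb => ?_
        unfold Dat.kD
        exact if_neg hb
    _ = (∑ n ∈ D.box N s.1, ∏ i ∈ range nJ,
          rg lam (D.uu y z L g N ρ m s.2 i) (∑ r, D.ff y L g N i r * n r)) /
          (2 * ∏ r, 8 * D.G * ‖D.σ r‖ ^ N) := by
        rw [sum_div]
        refine sum_congr rfl fun n hb => ?_
        unfold Dat.kD
        exact if_pos hb
    _ ≤ 1 := by
        rw [div_le_one (by positivity)]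
        unfold Dat.box
        refine le_trans (by convert hZ) ?_
        nlinarith

theorem Dat.Ok.kk_subP (h : D.Ok Γ y z w L ε W g N nJ ρ) {lam : ℝ} (l0 : 0 ≤ lam)
    (l1 : lam ≤ 1 / 2) (m : ℕ) (s : (ι → ℤ) × ℤ × ℤ) : SubP (D.kk y z L g N nJ ρ lam m s) :=
  (h.kD_subP l0 l1 m s).prod ((k1_subP s.2.1).prod (k1_subP s.2.2))

theorem Dat.Ok.lam (h : D.Ok Γ y z w L ε W g N nJ ρ) :
    0 < W * exp (-(2 * Γ)) / 8 ∧ W * exp (-(2 * Γ)) / 8 ≤ 1 / 2 := by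
  have h0 := h.W0
  have h1 : W ≤ 1 := by simpa using h.st.cost ∅ (by simp)
  have h2 : exp (-(2 * Γ)) ≤ 1 := exp_le_one_iff.2 (by linarith [h.hG, D.one_le_G])
  have h3 := exp_pos (-(2 * Γ))
  exact ⟨by positivity, by nlinarith⟩

/-- Copy `om_ge`. -/
theorem Dat.Ok.om_ge (h : D.Ok Γ y z w L ε W g N nJ ρ) {i : ℕ} (hi : i < nJ) :
    W * exp (-(2 * Γ)) ≤ ‖D.om y L g N i‖ := by
  have hε0 : 0 ≤ ε := (norm_nonneg _).trans h.st.z_le
  have r1 := h.r1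
  have r3 := h.r3
  have hε : ε ≤ 1 / 40 := by nlinarith
  have hT : ε ^ 2 * N ≤ 1 / 100 := by
    have h1 : ε ^ 2 * N ≤ (ε * ρ) ^ 2 := by
      rw [mul_pow]
      exact mul_le_mul_of_nonneg_left h.r4 (sq_nonneg _)
    have h2 : (ε * ρ) ^ 2 ≤ (1 / 50) ^ 2 := pow_le_pow_left₀ (by positivity) r3 2
    linarith
  have hj : jj L g i ≤ N := by
    have h1 : L + g + g * i ≤ N := le_trans (by gcongr) h.hN
    unfold jj
    exact_mod_cast h1
  unfold Dat.om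
  rw [norm_prod]
  simp only [norm_one_add_ee]
  have := h.st.ext h.hG N hε hT (univ.image (fun t : Fin N => jj L g i - 1 - t)) (fun k hk => by
    obtain ⟨t, -, rfl⟩ := mem_image.mp hk
    omega)
  rw [prod_image (fun a _ b _ hab => by
    apply Fin.ext
    omega)] at this
  exact this

end Pool.Agent.Lib.MP_e840b2_an.OP
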