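import Pool.Agent.Lib.MP_e840b2_an.OP.Chain
import Pool.Agent.Lib.MP_e840b2_an.OP.Alg

/-! The entropy gap. -/

set_option autoImplicit false
open Finset Polynomial Filter Topology MeasureTheory ProbabilityTheory
open scoped ComplexConjugate

namespace Pool.Agent.Lib.MP_e840b2_an.OP

theorem gap {p : ℤ[X]} {l θ : ℂ} (hp : Irreducible p) (hl : aeval l p = 0) (l1 : ‖l‖ < 1)
    (hθ : aeval θ p = 0) (h1 : ‖θ‖ = 1)
    (h2 : ∀ z : ℂ, aeval z p = 0 → ‖z‖ = 1 → z = θ ∨ z = conj θ) :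
    ∃ h < Real.log (p.map (Int.castRingHom ℂ)).mahlerMeasure,
      Tendsto (fun n : ℕ => H (sg l n) / n) atTop (𝓝 h) := by
  by_cases hu : IsUnit p.leadingCoeff
  · obtain ⟨ι, _, D, r, e1, e2⟩ := exists_dat hp hl l1 hθ h1 h2 hu
    rw [← e1, ← e2]
    exact D.exists_lim r
  · have h := (subadd l).tendsto_lim ⟨0, by
      rintro _ ⟨n, rfl⟩
      exact div_nonneg (H_sg_nonneg l n) (Nat.cast_nonneg _)⟩
    refine ⟨_, lt_of_le_of_lt (le_of_tendsto' h fun n => ?_)
      (Real.log_lt_log two_pos (two_lt hp hl l1 hθ h1 hu)), h⟩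
    exact div_le_of_le_mul₀ (Nat.cast_nonneg _) (Real.log_nonneg one_le_two)
      ((H_sg_le l n).trans_eq (mul_comm _ _))

/-- Copy `law` from the hand-in `GarsiaGap`. -/
theorem law {Ω : Type*} [MeasurableSpace Ω] (P : Measure Ω) [IsProbabilityMeasure P]
    (ξ : ℕ → Ω → ℝ) (hm : ∀ i, Measurable (ξ i)) (hi : iIndepFun ξ P)
    (h1 : ∀ i, P {ω | ξ i ω = 1} = 1 / 2) (h2 : ∀ i, P {ω | ξ i ω = -1} = 1 / 2)
    (l : ℂ) (n : ℕ) (x : ℂ) :
    P.real {ω | ∑ i ∈ range n, (ξ i ω : ℂ) * l ^ i = x} = (cnt (sg l n) x : ℝ) / 2 ^ n := by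
  classical
  let s : Bool → ℝ := fun b => if b then 1 else -1
  let C : (Fin n → Bool) → Set Ω := fun ε => ⋂ i : Fin n, ξ i ⁻¹' {s (ε i)}
  have hC : ∀ ε, MeasurableSet (C ε) := fun ε =>
    MeasurableSet.iInter fun i => hm i (measurableSet_singleton _)
  have hs : ∀ i b, P (ξ i ⁻¹' {s b}) = 1 / 2 := by
    intro i b
    cases b
    · exact h2 i
    · exact h1 i
  have hPC : ∀ ε, P (C ε) = (1 / 2) ^ n := by
    intro ε
    have := (hi.precomp (g := fun i : Fin n => (i : ℕ)) Fin.val_injective).meas_iInter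
      (s := fun i : Fin n => ξ i ⁻¹' {s (ε i)}) fun i => ⟨_, measurableSet_singleton _, rfl⟩
    rw [this]
    simp [hs]
  have hae : ∀ᵐ ω ∂P, ∀ i, ξ i ω = 1 ∨ ξ i ω = -1 := by
    rw [ae_all_iff]
    intro i
    have hd : Disjoint {ω | ξ i ω = 1} {ω | ξ i ω = -1} := by
      rw [Set.disjoint_left]
      intro ω a b
      have a' : ξ i ω = 1 := a
      have b' : ξ i ω = -1 := b
      linarith
    have hm1 : MeasurableSet {ω | ξ i ω = 1} := hm i (measurableSet_singleton _)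
    have hm2 : MeasurableSet {ω | ξ i ω = -1} := hm i (measurableSet_singleton _)
    have h3 : P ({ω | ξ i ω = 1} ∪ {ω | ξ i ω = -1}) = 1 := by
      rw [measure_union hd hm2, h1, h2, ENNReal.add_halves]
    exact (prob_compl_eq_zero_iff (hm1.union hm2)).2 h3
  have he : {ω | ∑ i ∈ range n, (ξ i ω : ℂ) * l ^ i = x} =ᵐ[P]
      (⋃ ε ∈ univ.filter (fun ε => sg l n ε = x), C ε : Set Ω) := by
    filter_upwards [hae] with ω hω
    have key : ∀ ε, ω ∈ C ε → ∑ i ∈ range n, (ξ i ω : ℂ) * l ^ i = sg l n ε := by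
      intro ε hε
      rw [← Fin.sum_univ_eq_sum_range (fun i => (ξ i ω : ℂ) * l ^ i)]
      refine sum_congr rfl fun i _ => ?_
      rw [show ξ i ω = s (ε i) from Set.mem_iInter.1 hε i]
      cases ε i <;> simp [s]
    apply propext
    change ∑ i ∈ range n, (ξ i ω : ℂ) * l ^ i = x ↔ ω ∈ ⋃ ε ∈ univ.filter (fun ε => sg l n ε = x), C ε
    simp only [Set.mem_iUnion, mem_filter, mem_univ, true_and, exists_prop]
    constructor
    · intro hx
      have hc : ω ∈ C fun i => decide (ξ i ω = 1) := by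
        refine Set.mem_iInter.2 fun i => ?_
        rcases hω i with h | h
        · simp [s, h]
        · simp [s, h, show (-1 : ℝ) ≠ 1 by norm_num]
      exact ⟨_, by rw [← key _ hc, hx], hc⟩
    · rintro ⟨ε, hx, hε⟩
      rw [key ε hε, hx]
  have hd : Set.PairwiseDisjoint (↑(univ.filter (fun ε => sg l n ε = x)) : Set (Fin n → Bool)) C := by
    intro ε _ ε' _ hne
    rw [Function.onFun, Set.disjoint_left]
    intro ω a b
    apply hne
    funext i
    have a' : ξ i ω = s (ε i) := Set.mem_iInter.1 a i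
    have b' : ξ i ω = s (ε' i) := Set.mem_iInter.1 b i
    rw [a'] at b'
    revert b'
    cases ε i <;> cases ε' i <;> simp [s] <;> norm_num
  rw [Measure.real, measure_congr he, measure_biUnion_finset hd fun ε _ => hC ε]
  simp only [hPC, sum_const, nsmul_eq_mul]
  unfold cnt
  simp [div_eq_mul_inv]

end Pool.Agent.Lib.MP_e840b2_an.OP
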